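import Pool.Agent.Lib.MP_f3090c_an.R.Basic

/-! A03: separating functions in the domain; connectedness of the space. -/

open Set Filter Topology

namespace CarpetLib

variable {X : Type*} [TopologicalSpace X] [CompactSpace X]

namespace RForm
variable (R : RForm X)

/-- the truncation `t ↦ min 1 (max 0 (3 t - 1))` -/
private noncomputable def sepTr : C(ℝ, ℝ) :=
  ⟨fun t => min 1 (max 0 (3 * t - 1)), by fun_prop⟩

private theorem sepTr_apply (t : ℝ) : sepTr t = min 1 (max 0 (3 * t - 1)) := rfl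

private theorem sepTr_lip : LipschitzWith 3 (sepTr : ℝ → ℝ) := by
  have h1 : LipschitzWith 3 (fun t : ℝ => 3 * t - 1) := by
    apply LipschitzWith.of_dist_le_mul
    intro x y
    rw [Real.dist_eq, Real.dist_eq]
    have : 3 * x - 1 - (3 * y - 1) = 3 * (x - y) := by ring
    rw [this, abs_mul]
    norm_num
  exact (h1.const_max 0).const_min 1

private theorem sep_of_cont (φ : C(X, ℝ)) : ∃ f ∈ R.dom, (∀ x, 0 ≤ f x ∧ f x ≤ 1) ∧
    (∀ x, φ x = 0 → f x = 0) ∧ ∀ x, φ x = 1 → f x = 1 := by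
  obtain ⟨f₀, hf₀, hd⟩ := Metric.dense_iff.1 R.dense φ (1 / 3) (by norm_num)
  have hd' : ∀ x, |f₀ x - φ x| < 1 / 3 := by
    intro x
    have h := ContinuousMap.dist_apply_le_dist (f := f₀) (g := φ) x
    rw [Metric.mem_ball] at hf₀
    rw [← Real.dist_eq]
    exact lt_of_le_of_lt h hf₀
  refine ⟨sepTr.comp f₀, (R.lip_mem hd sepTr 3 sepTr_lip).1, ?_, ?_, ?_⟩
  · intro x
    rw [ContinuousMap.comp_apply, sepTr_apply]
    exact ⟨le_min zero_le_one (le_max_left _ _), min_le_left _ _⟩
  · intro x hx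
    have h := abs_lt.1 (hd' x)
    rw [hx] at h
    rw [ContinuousMap.comp_apply, sepTr_apply, max_eq_left (by linarith)]
    norm_num
  · intro x hx
    have h := abs_lt.1 (hd' x)
    rw [hx] at h
    rw [ContinuousMap.comp_apply, sepTr_apply, min_eq_left]
    exact le_max_of_le_right (by linarith)

/-- Urysohn functions in the domain -/
theorem exists_sep [T2Space X] {A B : Set X} (hA : IsClosed A) (hB : IsClosed B)
    (hAB : Disjoint A B) : ∃ f ∈ R.dom, (∀ x, 0 ≤ f x ∧ f x ≤ 1) ∧ (∀ x ∈ A, f x = 0) ∧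
      ∀ x ∈ B, f x = 1 := by
  obtain ⟨φ, h0, h1, -⟩ := exists_continuous_zero_one_of_isClosed hA hB hAB
  obtain ⟨f, hf, hr, hz, ho⟩ := sep_of_cont R φ
  exact ⟨f, hf, hr, fun x hx => hz x (h0 hx), fun x hx => ho x (h1 hx)⟩

theorem exists_bump [T2Space X] {Z : Set X} (hZ : IsClosed Z) {y : X} (hy : y ∉ Z) :
    ∃ f ∈ R.domZ Z, (∀ x, 0 ≤ f x) ∧ 0 < f y := by
  obtain ⟨f, hf, hr, hz, ho⟩ := R.exists_sep hZ (isClosed_singleton (x := y))
    (Set.disjoint_singleton_right.2 hy)
  refine ⟨f, ⟨hf, hz⟩, fun x => (hr x).1, ?_⟩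
  rw [ho y rfl]
  exact one_pos

include R in
/-- by irreducibility and strong locality the space is connected -/
theorem preconnected : IsPreconnected (univ : Set X) := by
  classical
  rw [← preconnectedSpace_iff_univ, preconnectedSpace_iff_clopen]
  intro A hA
  have hcont : ∀ B : Set X, IsClopen B → Continuous (B.indicator (fun _ => (1 : ℝ))) := by
    intro B hB
    refine Continuous.indicator ?_ continuous_const
    intro a ha
    rw [hB.frontier_eq] at ha
    exact absurd ha (Set.notMem_empty a)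
  set χ : C(X, ℝ) := ⟨A.indicator (fun _ => (1 : ℝ)), hcont A hA⟩ with hχ
  set χ' : C(X, ℝ) := ⟨Aᶜ.indicator (fun _ => (1 : ℝ)), hcont Aᶜ hA.compl⟩ with hχ'
  have hadd : χ + χ' = 1 := by
    ext x
    change A.indicator (fun _ => (1 : ℝ)) x + Aᶜ.indicator (fun _ => (1 : ℝ)) x = 1
    by_cases hx : x ∈ A
    · rw [Set.indicator_of_mem hx, Set.indicator_of_notMem (Set.notMem_compl_iff.2 hx), add_zero]
    · rw [Set.indicator_of_notMem hx, Set.indicator_of_mem (Set.mem_compl hx), zero_add]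
  have h1 : tsupport χ ⊆ A :=
    closure_minimal (Set.support_indicator_subset (s := A) (f := fun _ => (1 : ℝ))) hA.isClosed
  have h2 : tsupport χ' ⊆ Aᶜ :=
    closure_minimal (Set.support_indicator_subset (s := Aᶜ) (f := fun _ => (1 : ℝ)))
      hA.compl.isClosed
  have hdis : Disjoint (tsupport χ) (tsupport χ') :=
    Set.disjoint_of_subset h1 h2 disjoint_compl_right
  obtain ⟨hm, -, hE⟩ := R.loc χ χ' (by rw [hadd]; exact R.one_mem) hdis
  have hE1 : R.E χ (χ + χ') = 0 := by rw [hadd]; exact R.E_one_right χ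
  rw [map_add, hE, add_zero] at hE1
  have hc := R.const_of_zero χ hm hE1
  rcases Set.eq_empty_or_nonempty A with h | ⟨a, ha⟩
  · exact Or.inl h
  · right
    rw [Set.eq_univ_iff_forall]
    intro x
    by_contra hx
    have h3 := hc x a
    have h4 : χ x = 0 := Set.indicator_of_notMem (f := fun _ => (1 : ℝ)) hx
    have h5 : χ a = 1 := Set.indicator_of_mem (f := fun _ => (1 : ℝ)) ha
    rw [h4, h5] at h3
    exact zero_ne_one h3

end RForm

end CarpetLib
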