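import Pool.Agent.Lib.MP_f3090c_an.R.Soft

/-! A02b: cutting along zero sets, strong locality. -/

open Set Filter Topology

namespace CarpetLib

variable {X : Type*} [TopologicalSpace X] [CompactSpace X]

theorem Glue_soft_eq_zero {ε t : ℝ} (h : |t| ≤ ε) : softC ε t = 0 := by
  obtain ⟨h1, h2⟩ := abs_le.1 h
  simp only [softC, ContinuousMap.coe_mk]
  rw [min_eq_right h2, max_eq_right h1, sub_self]

theorem Glue_soft_zero {ε : ℝ} (h : 0 ≤ ε) : softC ε 0 = 0 :=
  Glue_soft_eq_zero (by simpa using h)

theorem Glue_soft_abs_sub {ε : ℝ} (h : 0 ≤ ε) (t : ℝ) : |t - softC ε t| ≤ ε := by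
  simp only [softC, ContinuousMap.coe_mk, sub_sub_cancel]
  rw [abs_le]
  exact ⟨le_max_left _ _, max_le (by linarith) (min_le_left _ _)⟩

theorem Glue_tsupport_subset {f u : C(X, ℝ)} {δ : ℝ} (h : ∀ x, |f x| < δ → u x = 0) :
    tsupport u ⊆ {x | δ ≤ |f x|} := by
  refine closure_minimal ?_ (isClosed_le continuous_const (by fun_prop))
  intro x hx
  by_contra hlt
  exact hx (h x (not_le.1 hlt))

namespace RForm
variable (R : RForm X)

theorem Glue_tendsto {a b : ℕ → C(X, ℝ)} {α β : ℝ}
    (ha : Tendsto (fun n => R.E (a n) (a n)) atTop (𝓝 α))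
    (hb : Tendsto (fun n => R.E (b n) (b n)) atTop (𝓝 β)) (hαβ : α * β = 0) :
    Tendsto (fun n => R.E (a n) (b n)) atTop (𝓝 0) := by
  have h1 : Tendsto (fun n => (R.E (a n) (b n)) ^ 2) atTop (𝓝 0) := by
    have h2 := ha.mul hb
    rw [hαβ] at h2
    exact squeeze_zero (fun n => sq_nonneg _) (fun n => R.cs (a n) (b n)) h2
  have h3 : Tendsto (fun n => Real.sqrt ((R.E (a n) (b n)) ^ 2)) atTop (𝓝 0) := by
    have := (Real.continuous_sqrt.tendsto 0).comp h1
    rw [Real.sqrt_zero] at this
    exact this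
  refine (tendsto_zero_iff_abs_tendsto_zero _).2 ?_
  refine h3.congr fun n => ?_
  rw [Real.sqrt_sq_eq_abs]
  rfl

theorem Glue_sub_le (a b : C(X, ℝ)) :
    R.E (a - b) (a - b) ≤ 2 * R.E a a + 2 * R.E b b := by
  have h := R.nonneg (a + b)
  simp only [map_add, map_sub, LinearMap.add_apply, LinearMap.sub_apply] at h ⊢
  linarith

theorem Glue_pos (n : ℕ) : (0 : ℝ) < 1 / ((n : ℝ) + 1) := by positivity

/-- A function of the domain vanishing on `frontier O` may be cut off outside `O`. -/
theorem glue {O : Set X} (hO : IsOpen O) {g f : C(X, ℝ)} (hg : g ∈ R.dom)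
    (hfr : ∀ x ∈ frontier O, g x = 0) (hf : ∀ x ∈ O, f x = g x) (hf0 : ∀ x, x ∉ O → f x = 0) :
    f ∈ R.dom ∧ R.E f (g - f) = 0 := by
  rcases isEmpty_or_nonempty X with hX | hX
  · have h0 : f = 0 := by ext x; exact (hX.false x).elim
    rw [h0]
    exact ⟨R.dom.zero_mem, by simp⟩
  obtain ⟨x0⟩ := hX
  set T : ℕ → C(ℝ, ℝ) := fun n => softC (1 / ((n : ℝ) + 1)) with hT
  set fn : ℕ → C(X, ℝ) := fun n => (T n).comp f with hfn
  set kn : ℕ → C(X, ℝ) := fun n => (T n).comp (g - f) with hkn
  have hT0 : ∀ n, T n 0 = 0 := fun n => Glue_soft_zero (Glue_pos n).le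
  have hdj : ∀ x, f x = 0 ∨ (g - f) x = 0 := by
    intro x
    by_cases hx : x ∈ O
    · right; rw [ContinuousMap.sub_apply, hf x hx, sub_self]
    · left; exact hf0 x hx
  have hsum : ∀ n, fn n + kn n = (T n).comp g := by
    intro n
    ext x
    simp only [hfn, hkn, ContinuousMap.add_apply, ContinuousMap.comp_apply]
    rcases hdj x with h | h
    · rw [h, hT0, zero_add, ContinuousMap.sub_apply, h, sub_zero]
    · rw [h, hT0, add_zero]
      rw [ContinuousMap.sub_apply, sub_eq_zero] at h
      rw [h]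
  have hTg : ∀ n, (T n).comp g ∈ R.dom := fun n => R.soft_mem hg (Glue_pos n).le
  -- disjoint supports
  have hloc : ∀ (a b : ℝ) (n m : ℕ), (a • fn n + b • fn m) ∈ R.dom ∧
      (a • kn n + b • kn m) ∈ R.dom ∧ R.E (a • fn n + b • fn m) (a • kn n + b • kn m) = 0 := by
    intro a b n m
    set δ : ℝ := min (1 / ((n : ℝ) + 1)) (1 / ((m : ℝ) + 1)) with hδ
    have hδ0 : 0 < δ := lt_min (Glue_pos n) (Glue_pos m)
    have hz : ∀ (u : C(X, ℝ)) (x : X), |u x| < δ →
        (a • (T n).comp u + b • (T m).comp u) x = 0 := by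
      intro u x hx
      have h1 : T n (u x) = 0 := Glue_soft_eq_zero (hx.le.trans (min_le_left _ _))
      have h2 : T m (u x) = 0 := Glue_soft_eq_zero (hx.le.trans (min_le_right _ _))
      simp only [ContinuousMap.add_apply, ContinuousMap.smul_apply, ContinuousMap.comp_apply,
        h1, h2, smul_zero, add_zero]
    refine R.loc _ _ ?_ ?_
    · have : a • fn n + b • fn m + (a • kn n + b • kn m) =
          a • ((T n).comp g) + b • ((T m).comp g) := by
        rw [← hsum n, ← hsum m, smul_add, smul_add]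
        abel
      rw [this]
      exact R.dom.add_mem (R.dom.smul_mem a (hTg n)) (R.dom.smul_mem b (hTg m))
    · refine Disjoint.mono (Glue_tsupport_subset (f := f) (hz f))
        (Glue_tsupport_subset (f := g - f) (hz (g - f))) ?_
      rw [Set.disjoint_left]
      intro x hx1 hx2
      simp only [Set.mem_ofPred_eq] at hx1 hx2
      rcases hdj x with h | h
      · rw [h, abs_zero] at hx1; linarith
      · rw [h, abs_zero] at hx2; linarith
  have hfdom : ∀ n, fn n ∈ R.dom := by
    intro n
    have := (hloc 1 0 n n).1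
    simpa using this
  have hEfk : ∀ n, R.E (fn n) (kn n) = 0 := by
    intro n
    have := (hloc 1 0 n n).2.2
    simpa using this
  have hle : ∀ n m, R.E (fn n - fn m) (fn n - fn m) ≤
      R.E ((T n).comp g - (T m).comp g) ((T n).comp g - (T m).comp g) := by
    intro n m
    have h0 := (hloc 1 (-1) n m).2.2
    have e1 : (1 : ℝ) • fn n + (-1 : ℝ) • fn m = fn n - fn m := by
      rw [one_smul, neg_one_smul, sub_eq_add_neg]
    have e2 : (1 : ℝ) • kn n + (-1 : ℝ) • kn m = kn n - kn m := by
      rw [one_smul, neg_one_smul, sub_eq_add_neg]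
    rw [e1, e2] at h0
    have e3 : (T n).comp g - (T m).comp g = (fn n - fn m) + (kn n - kn m) := by
      rw [← hsum n, ← hsum m]; abel
    rw [e3]
    generalize fn n - fn m = u at h0 ⊢
    generalize kn n - kn m = v at h0 ⊢
    have h1 := R.nonneg v
    simp only [map_add, LinearMap.add_apply, R.symm v u, h0]
    linarith
  have hsoft := R.soft_tendsto hg
  obtain ⟨F, hFd, hF⟩ := R.complete fn hfdom (by
    intro ε hε
    have h1 : ∀ᶠ n in atTop, R.E (g - (T n).comp g) (g - (T n).comp g) < ε / 8 :=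
      hsoft.eventually (gt_mem_nhds (by positivity))
    obtain ⟨N, hN⟩ := eventually_atTop.1 h1
    refine ⟨N, fun m hm n hn => ?_⟩
    refine lt_of_le_of_lt (hle m n) ?_
    have e : (T m).comp g - (T n).comp g = (g - (T n).comp g) - (g - (T m).comp g) := by abel
    rw [e]
    have h2 := R.Glue_sub_le (g - (T n).comp g) (g - (T m).comp g)
    have h3 := hN m hm
    have h4 := hN n hn
    linarith)
  obtain ⟨C, hC0, hC⟩ := R.bound
  -- pointwise convergence
  have hpt : ∀ x, Tendsto (fun n => fn n x) atTop (𝓝 (f x)) := by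
    intro x
    rw [tendsto_iff_dist_tendsto_zero]
    refine squeeze_zero (fun n => dist_nonneg) (fun n => ?_)
      (tendsto_one_div_add_atTop_nhds_zero_nat (𝕜 := ℝ))
    rw [dist_comm, Real.dist_eq]
    exact Glue_soft_abs_sub (Glue_pos n).le (f x)
  have hconst : ∀ x, (f x - F x) - (f x0 - F x0) = 0 := by
    intro x
    have h1 : Tendsto (fun n => ((fn n - F) x - (fn n - F) x0) ^ 2) atTop (𝓝 0) := by
      refine squeeze_zero (fun n => sq_nonneg _) (fun n => hC _ (R.dom.sub_mem (hfdom n) hFd) x x0)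
        ?_
      simpa using hF.const_mul C
    have h2 : Tendsto (fun n => ((fn n - F) x - (fn n - F) x0) ^ 2) atTop
        (𝓝 (((f x - F x) - (f x0 - F x0)) ^ 2)) := by
      simp only [ContinuousMap.sub_apply]
      exact ((((hpt x).sub_const _).sub ((hpt x0).sub_const _)).pow 2)
    have h3 := tendsto_nhds_unique h2 h1
    exact pow_eq_zero_iff (two_ne_zero) |>.1 h3
  have hfF : f = F + ContinuousMap.const X (f x0 - F x0) := by
    ext x
    simp only [ContinuousMap.add_apply, ContinuousMap.const_apply]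
    have := hconst x
    linarith
  have hfd : f ∈ R.dom := by
    rw [hfF]
    exact R.dom.add_mem hFd (R.const_mem _)
  refine ⟨hfd, ?_⟩
  have hlim : Tendsto (fun n => R.E (f - fn n) (f - fn n)) atTop (𝓝 0) := by
    refine hF.congr fun n => ?_
    have e : f - fn n = ContinuousMap.const X (f x0 - F x0) - (fn n - F) := by
      nth_rewrite 1 [hfF]
      abel
    rw [e]
    generalize fn n - F = u
    simp only [map_sub, LinearMap.sub_apply, R.E_const_left, R.E_const_right]
    ring
  have hlim2 : Tendsto (fun n => R.E ((g - f) - kn n) ((g - f) - kn n)) atTop (𝓝 0) := by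
    have h1 : Tendsto (fun n => 2 * R.E (g - (T n).comp g) (g - (T n).comp g) +
        2 * R.E (f - fn n) (f - fn n)) atTop (𝓝 0) := by
      have := (hsoft.const_mul 2).add (hlim.const_mul 2)
      rw [mul_zero, add_zero] at this
      exact this
    refine squeeze_zero (fun n => R.nonneg _) (fun n => ?_) h1
    have e : (g - f) - kn n = (g - (T n).comp g) - (f - fn n) := by
      rw [← hsum n]; abel
    rw [e]
    exact R.Glue_sub_le _ _
  have hc1 : Tendsto (fun _ : ℕ => R.E f f) atTop (𝓝 (R.E f f)) := tendsto_const_nhds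
  have hc2 : Tendsto (fun _ : ℕ => R.E (g - f) (g - f)) atTop (𝓝 (R.E (g - f) (g - f))) :=
    tendsto_const_nhds
  have t1 := R.Glue_tendsto (a := fun _ => f) (b := fun n => (g - f) - kn n) hc1 hlim2
    (by simp)
  have t2 := R.Glue_tendsto (a := fun n => f - fn n) (b := fun _ => g - f) hlim hc2 (by simp)
  have t3 := R.Glue_tendsto (a := fun n => f - fn n) (b := fun n => (g - f) - kn n) hlim hlim2
    (by simp)
  have t4 := (t1.add t2).sub t3
  have heq : ∀ n, R.E f ((g - f) - kn n) + R.E (f - fn n) (g - f) -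
      R.E (f - fn n) ((g - f) - kn n) = R.E f (g - f) := by
    intro n
    have h0 := hEfk n
    generalize g - f = w
    simp only [map_sub, LinearMap.sub_apply, h0]
    ring
  simp only [heq] at t4
  have := tendsto_nhds_unique t4 (tendsto_const_nhds)
  simpa using this.symm

/-- strong locality for functions vanishing outside / inside an open set -/
theorem loc_zero {O : Set X} (hO : IsOpen O) {f g : C(X, ℝ)} (hf : f ∈ R.dom) (hg : g ∈ R.dom)
    (hf0 : ∀ x, x ∉ O → f x = 0) (hg0 : ∀ x ∈ O, g x = 0) : R.E f g = 0 := by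
  set T : ℕ → C(ℝ, ℝ) := fun n => softC (1 / ((n : ℝ) + 1)) with hT
  have h0 : ∀ n, R.E ((T n).comp f) g = 0 := by
    intro n
    refine (R.loc _ _ (R.dom.add_mem (R.soft_mem hf (Glue_pos n).le) hg) ?_).2.2
    have h1 : tsupport ((T n).comp f) ⊆ {x | 1 / ((n : ℝ) + 1) ≤ |f x|} := by
      refine Glue_tsupport_subset (f := f) fun x hx => ?_
      exact Glue_soft_eq_zero hx.le
    have h2 : {x | 1 / ((n : ℝ) + 1) ≤ |f x|} ⊆ O := by
      intro x hx
      by_contra hn
      simp only [Set.mem_ofPred_eq, hf0 x hn, abs_zero] at hx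
      exact absurd hx (not_le.2 (Glue_pos n))
    have h3 : tsupport g ⊆ Oᶜ := by
      refine closure_minimal ?_ hO.isClosed_compl
      intro x hx hxO
      exact hx (hg0 x hxO)
    exact Disjoint.mono (h1.trans h2) h3 disjoint_compl_right
  have hc : Tendsto (fun _ : ℕ => R.E g g) atTop (𝓝 (R.E g g)) := tendsto_const_nhds
  have t1 := R.Glue_tendsto (a := fun n => f - (T n).comp f) (b := fun _ => g)
    (R.soft_tendsto hf) hc (by simp)
  have heq : ∀ n, R.E (f - (T n).comp f) g = R.E f g := by
    intro n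
    rw [map_sub, LinearMap.sub_apply, h0 n, sub_zero]
  simp only [heq] at t1
  exact (tendsto_nhds_unique t1 tendsto_const_nhds).symm

end RForm

end CarpetLib
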