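import Pool.Agent.Lib.MP_f3090c_an.R.Defs

/-! A01: elementary properties of `RForm`. -/

open Set Filter Topology

namespace CarpetLib

variable {X : Type*} [TopologicalSpace X] [CompactSpace X]

namespace RForm
variable (R : RForm X)

theorem cs (f g : C(X, ℝ)) : (R.E f g) ^ 2 ≤ R.E f f * R.E g g := by
  by_cases hg : R.E g g = 0
  · have h1 : ∀ t : ℝ, 0 ≤ R.E f f + 2 * t * R.E f g := by
      intro t
      have := R.nonneg (f + t • g)
      simp only [map_add, map_smul, LinearMap.add_apply, LinearMap.smul_apply, smul_eq_mul,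
        R.symm g f, hg] at this
      linarith
    have h2 : R.E f g = 0 := by
      by_contra hne
      have := h1 (-(R.E f f + 1) / (2 * R.E f g))
      rw [show 2 * (-(R.E f f + 1) / (2 * R.E f g)) * R.E f g = -(R.E f f + 1) by
        field_simp] at this
      linarith
    rw [h2, hg]; simp
  · have hpos : 0 < R.E g g := lt_of_le_of_ne (R.nonneg g) (Ne.symm hg)
    have := R.nonneg (f - (R.E f g / R.E g g) • g)
    simp only [map_sub, map_smul, LinearMap.sub_apply, LinearMap.smul_apply, smul_eq_mul,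
      R.symm g f] at this
    have h3 : R.E f f - R.E f g / R.E g g * R.E f g -
        R.E f g / R.E g g * (R.E f g - R.E f g / R.E g g * R.E g g)
        = R.E f f - (R.E f g) ^ 2 / R.E g g := by
      field_simp; ring
    have h4 : 0 ≤ R.E f f - (R.E f g) ^ 2 / R.E g g := by
      rw [← h3]; linarith
    have h5 : (R.E f g) ^ 2 / R.E g g ≤ R.E f f := by linarith
    rwa [div_le_iff₀ hpos] at h5

theorem E_one_right (f : C(X, ℝ)) : R.E f 1 = 0 := by
  have := R.cs f 1
  rw [R.E_one, mul_zero] at this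
  exact pow_eq_zero_iff (two_ne_zero) |>.1 (le_antisymm this (sq_nonneg _))

theorem E_one_left (f : C(X, ℝ)) : R.E 1 f = 0 := by rw [R.symm, R.E_one_right]

theorem const_eq (c : ℝ) : ContinuousMap.const X c = c • (1 : C(X, ℝ)) := by
  ext x; simp

theorem const_mem (c : ℝ) : ContinuousMap.const X c ∈ R.dom := by
  rw [const_eq]; exact R.dom.smul_mem c R.one_mem

theorem E_const_right (f : C(X, ℝ)) (c : ℝ) : R.E f (ContinuousMap.const X c) = 0 := by
  rw [const_eq, map_smul, R.E_one_right, smul_zero]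

theorem E_const_left (f : C(X, ℝ)) (c : ℝ) : R.E (ContinuousMap.const X c) f = 0 := by
  rw [R.symm, R.E_const_right]

/-- Lipschitz functional calculus -/
theorem lip_mem {f : C(X, ℝ)} (hf : f ∈ R.dom) (φ : C(ℝ, ℝ)) (L : NNReal)
    (hφ : LipschitzWith L φ) :
    φ.comp f ∈ R.dom ∧ R.E (φ.comp f) (φ.comp f) ≤ (L : ℝ) ^ 2 * R.E f f := by
  have hL1 : (0:ℝ) < (L:ℝ) + 1 := by positivity
  -- use the constant `L` (and `1` when `L = 0`)
  by_cases hL : L = 0
  · subst hL
    have hc : ∀ x y, φ x = φ y := by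
      intro x y
      have := hφ.dist_le_mul x y
      simpa using this
    have : φ.comp f = ContinuousMap.const X (φ 0) := by
      ext x; simp [hc (f x) 0]
    rw [this]
    exact ⟨R.const_mem _, by rw [R.E_const_left]; simp⟩
  · have hLpos : (0:ℝ) < (L:ℝ) := by
      have : 0 < L := pos_iff_ne_zero.2 hL
      exact_mod_cast this
    let ψ : C(ℝ, ℝ) := ((L:ℝ)⁻¹) • φ
    have hψ : LipschitzWith 1 ψ := by
      apply LipschitzWith.of_dist_le_mul
      intro x y
      have h := hφ.dist_le_mul x y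
      rw [Real.dist_eq] at h ⊢
      simp only [ψ, ContinuousMap.smul_apply, smul_eq_mul, NNReal.coe_one, one_mul]
      rw [← mul_sub, abs_mul, abs_of_pos (inv_pos.2 hLpos)]
      calc (L:ℝ)⁻¹ * |φ x - φ y| ≤ (L:ℝ)⁻¹ * (L * dist x y) := by gcongr
        _ = dist x y := by field_simp
    obtain ⟨h1, h2⟩ := R.markov f hf ψ hψ
    have he : φ.comp f = (L:ℝ) • ψ.comp f := by
      ext x; simp [ψ]; field_simp
    rw [he]
    refine ⟨R.dom.smul_mem _ h1, ?_⟩
    simp only [map_smul, LinearMap.smul_apply, smul_eq_mul]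
    nlinarith [sq_nonneg (L:ℝ), h2]

theorem abs_mem {f : C(X, ℝ)} (hf : f ∈ R.dom) : |f| ∈ R.dom ∧ R.E |f| |f| ≤ R.E f f := by
  have := R.markov f hf ⟨fun t => |t|, continuous_abs⟩ (by
    apply LipschitzWith.of_dist_le_mul
    intro x y
    simp only [ContinuousMap.coe_mk, NNReal.coe_one, one_mul, Real.dist_eq]
    exact abs_abs_sub_abs_le x y)
  have he : (⟨fun t => |t|, continuous_abs⟩ : C(ℝ, ℝ)).comp f = |f| := by
    ext x; simp
  rwa [he] at this

theorem sup_mem {f g : C(X, ℝ)} (hf : f ∈ R.dom) (hg : g ∈ R.dom) : f ⊔ g ∈ R.dom := by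
  have h : f ⊔ g = (2:ℝ)⁻¹ • (f + g + |f - g|) := by
    ext x
    simp only [ContinuousMap.sup_apply, ContinuousMap.smul_apply, ContinuousMap.add_apply,
      ContinuousMap.abs_apply, ContinuousMap.sub_apply, smul_eq_mul]
    rcases le_total (f x) (g x) with h | h
    · rw [sup_eq_right.2 h, abs_of_nonpos (by linarith)]; ring
    · rw [sup_eq_left.2 h, abs_of_nonneg (by linarith)]; ring
  rw [h]
  exact R.dom.smul_mem _ (R.dom.add_mem (R.dom.add_mem hf hg) (R.abs_mem (R.dom.sub_mem hf hg)).1)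

theorem inf_mem {f g : C(X, ℝ)} (hf : f ∈ R.dom) (hg : g ∈ R.dom) : f ⊓ g ∈ R.dom := by
  have h : f ⊓ g = (2:ℝ)⁻¹ • (f + g - |f - g|) := by
    ext x
    simp only [ContinuousMap.inf_apply, ContinuousMap.smul_apply, ContinuousMap.add_apply,
      ContinuousMap.abs_apply, ContinuousMap.sub_apply, smul_eq_mul]
    rcases le_total (f x) (g x) with h | h
    · rw [inf_eq_left.2 h, abs_of_nonpos (by linarith)]; ring
    · rw [inf_eq_right.2 h, abs_of_nonneg (by linarith)]; ring
  rw [h]
  exact R.dom.smul_mem _ (R.dom.sub_mem (R.dom.add_mem hf hg) (R.abs_mem (R.dom.sub_mem hf hg)).1)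

/-- squares of functions in the domain are in the domain -/
theorem sq_mem {f : C(X, ℝ)} (hf : f ∈ R.dom) : f * f ∈ R.dom := by
  -- `t ↦ (clamp t)^2` is Lipschitz
  obtain ⟨M, hM0, hM⟩ : ∃ M : ℝ, 0 ≤ M ∧ ∀ x, |f x| ≤ M :=
    ⟨‖f‖, norm_nonneg _, fun x => f.norm_coe_le_norm x⟩
  let φ : C(ℝ, ℝ) := ⟨fun t => (max (-M) (min M t)) ^ 2, by fun_prop⟩
  have hφ : LipschitzWith (Real.toNNReal (2 * M)) φ := by
    apply LipschitzWith.of_dist_le_mul
    intro x y
    rw [Real.coe_toNNReal _ (by positivity), Real.dist_eq, Real.dist_eq]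
    simp only [φ, ContinuousMap.coe_mk]
    have hc : ∀ t : ℝ, |max (-M) (min M t)| ≤ M := by
      intro t
      rw [abs_le]
      exact ⟨le_max_left _ _, max_le (by linarith) (min_le_left _ _)⟩
    have h1 : |max (-M) (min M x) - max (-M) (min M y)| ≤ |x - y| := by
      have k1 : |max (-M) (min M x) - max (-M) (min M y)| ≤ |min M x - min M y| := by
        have := abs_max_sub_max_le_max (-M) (min M x) (-M) (min M y)
        simpa using this
      have k2 : |min M x - min M y| ≤ |x - y| := by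
        have := abs_min_sub_min_le_max M x M y
        simpa using this
      exact k1.trans k2
    rw [sq_sub_sq, abs_mul]
    have h2 : |max (-M) (min M x) + max (-M) (min M y)| ≤ 2 * M :=
      (abs_add_le _ _).trans (by linarith [hc x, hc y])
    exact mul_le_mul h2 h1 (abs_nonneg _) (by positivity)
  have h := (R.lip_mem hf φ _ hφ).1
  have he : φ.comp f = f * f := by
    ext x
    have := abs_le.1 (hM x)
    simp only [φ, ContinuousMap.comp_apply, ContinuousMap.coe_mk, ContinuousMap.mul_apply]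
    rw [min_eq_right this.2, max_eq_right this.1]; ring
  rwa [he] at h

theorem mul_mem {f g : C(X, ℝ)} (hf : f ∈ R.dom) (hg : g ∈ R.dom) : f * g ∈ R.dom := by
  have h : f * g = (2:ℝ)⁻¹ • ((f + g) * (f + g) - f * f - g * g) := by
    ext x
    simp only [ContinuousMap.mul_apply, ContinuousMap.smul_apply, ContinuousMap.sub_apply,
      ContinuousMap.add_apply, smul_eq_mul]
    ring
  rw [h]
  exact R.dom.smul_mem _ (R.dom.sub_mem (R.dom.sub_mem (R.sq_mem (R.dom.add_mem hf hg))
    (R.sq_mem hf)) (R.sq_mem hg))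

/-- nonnegative functions with disjoint positivity sets have nonpositive mutual energy -/
theorem E_disj_nonpos {f g : C(X, ℝ)} (hf : f ∈ R.dom) (hg : g ∈ R.dom) (hf0 : 0 ≤ f)
    (hg0 : 0 ≤ g) (h : ∀ x, f x = 0 ∨ g x = 0) : R.E f g ≤ 0 := by
  have h1 := (R.abs_mem (R.dom.sub_mem hf hg)).2
  have he : |f - g| = f + g := by
    ext x
    have hfx : 0 ≤ f x := hf0 x
    have hgx : 0 ≤ g x := hg0 x
    simp only [ContinuousMap.abs_apply, ContinuousMap.sub_apply, ContinuousMap.add_apply]
    rcases h x with h | h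
    · rw [h, zero_sub, abs_neg, abs_of_nonneg hgx, zero_add]
    · rw [h, sub_zero, abs_of_nonneg hfx, add_zero]
  rw [he] at h1
  simp only [map_add, map_sub, LinearMap.add_apply, LinearMap.sub_apply, R.symm g f] at h1
  linarith

end RForm

end CarpetLib
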