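import Pool.Agent.Lib.MP_f3090c_an.R.Coer

/-! A04b: Riesz representation. -/

open Set Filter Topology

namespace CarpetLib

variable {X : Type*} [TopologicalSpace X] [CompactSpace X]

private theorem Riesz_quad {a b c : ℝ} (h : ∀ t : ℝ, 0 ≤ a + 2 * t * b + t ^ 2 * c) :
    b ^ 2 ≤ a * c := by
  have h1 := discrim_le_zero (a := c) (b := 2 * b) (c := a) (fun t => by
    have := h t
    nlinarith)
  unfold discrim at h1
  nlinarith

namespace RForm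
variable (R : RForm X) {κ : C(X, ℝ) →ₗ[ℝ] ℝ} {Z : Set X}

private theorem Riesz_expand (κ : C(X, ℝ) →ₗ[ℝ] ℝ) (u f : C(X, ℝ)) (t : ℝ) :
    R.Q κ (u + t • f) (u + t • f) = R.Q κ u u + 2 * t * R.Q κ u f + t ^ 2 * R.Q κ f f := by
  rw [Q_add_left, Q_add_right, Q_add_right, Q_smul_left, Q_smul_left, Q_smul_right,
    Q_smul_right, Q_symm R κ f u]
  ring

private theorem Riesz_cs (hκ : Pos κ) (u f : C(X, ℝ)) :
    (R.Q κ u f) ^ 2 ≤ R.Q κ u u * R.Q κ f f := by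
  apply Riesz_quad
  intro t
  rw [← Riesz_expand]
  exact R.Q_nonneg hκ _

/-- Riesz representation -/
theorem riesz (h : Good κ Z) (ℓ : C(X, ℝ) →ₗ[ℝ] ℝ)
    (hℓ : ∃ C : ℝ, ∀ f ∈ R.domZ Z, (ℓ f) ^ 2 ≤ C * R.Q κ f f) :
    ∃ v ∈ R.domZ Z, ∀ f ∈ R.domZ Z, R.Q κ v f = ℓ f := by
  have hκ : Pos κ := h.1
  obtain ⟨C0, hC0⟩ := hℓ
  obtain ⟨C, hC, hCb⟩ : ∃ C : ℝ, 0 ≤ C ∧ ∀ f ∈ R.domZ Z, (ℓ f) ^ 2 ≤ C * R.Q κ f f := by
    refine ⟨max C0 0, le_max_right _ _, fun f hf => (hC0 f hf).trans ?_⟩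
    exact mul_le_mul_of_nonneg_right (le_max_left _ _) (R.Q_nonneg hκ f)
  let J : C(X, ℝ) → ℝ := fun f => R.Q κ f f - 2 * ℓ f
  have hJ : ∀ f ∈ R.domZ Z, -C ≤ J f := by
    intro f hf
    have h1 := hCb f hf
    have h2 := R.Q_nonneg hκ f
    show -C ≤ R.Q κ f f - 2 * ℓ f
    by_contra hcon
    push Not at hcon
    have h3 : R.Q κ f f + C < 2 * ℓ f := by linarith
    have h4 : (R.Q κ f f + C) ^ 2 < (2 * ℓ f) ^ 2 := by
      apply pow_lt_pow_left₀ h3 (by linarith) (by norm_num)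
    nlinarith [sq_nonneg (R.Q κ f f - C)]
  have hbdd : BddBelow (J '' (R.domZ Z : Set C(X, ℝ))) := by
    refine ⟨-C, ?_⟩
    rintro _ ⟨f, hf, rfl⟩
    exact hJ f hf
  have hne : (J '' (R.domZ Z : Set C(X, ℝ))).Nonempty := ⟨_, 0, (R.domZ Z).zero_mem, rfl⟩
  set I := sInf (J '' (R.domZ Z : Set C(X, ℝ))) with hI
  have hIle : ∀ f ∈ R.domZ Z, I ≤ J f := fun f hf => csInf_le hbdd ⟨f, hf, rfl⟩
  have hseq : ∀ n : ℕ, ∃ u ∈ R.domZ Z, J u < I + 1 / ((n : ℝ) + 1) := by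
    intro n
    have hpos : (0 : ℝ) < 1 / ((n : ℝ) + 1) := by positivity
    obtain ⟨_, ⟨u, hu, rfl⟩, hlt⟩ := exists_lt_of_csInf_lt hne
      (show sInf (J '' (R.domZ Z : Set C(X, ℝ))) < I + 1 / ((n : ℝ) + 1) by
        rw [← hI]; linarith)
    exact ⟨u, hu, hlt⟩
  choose u hu hJu using hseq
  have hpar : ∀ m n, R.Q κ (u m - u n) (u m - u n) ≤ 2 * (1 / ((m : ℝ) + 1)) +
      2 * (1 / ((n : ℝ) + 1)) := by
    intro m n
    have hmid : (2 : ℝ)⁻¹ • (u m + u n) ∈ R.domZ Z :=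
      (R.domZ Z).smul_mem _ ((R.domZ Z).add_mem (hu m) (hu n))
    have h1 := hIle _ hmid
    have h2 := hJu m
    have h3 := hJu n
    have e1 : J ((2 : ℝ)⁻¹ • (u m + u n)) = 4⁻¹ * (R.Q κ (u m) (u m) + 2 * R.Q κ (u m) (u n) +
        R.Q κ (u n) (u n)) - (ℓ (u m) + ℓ (u n)) := by
      show R.Q κ _ _ - 2 * ℓ _ = _
      rw [Q_smul_left, Q_smul_right, Q_add_left, Q_add_right, Q_add_right, map_smul, map_add,
        Q_symm R κ (u n) (u m), smul_eq_mul]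
      ring
    have e2 : R.Q κ (u m - u n) (u m - u n) = R.Q κ (u m) (u m) - 2 * R.Q κ (u m) (u n) +
        R.Q κ (u n) (u n) := by
      rw [Q_sub_left, Q_sub_right, Q_sub_right, Q_symm R κ (u n) (u m)]
      ring
    have e3 : J (u m) = R.Q κ (u m) (u m) - 2 * ℓ (u m) := rfl
    have e4 : J (u n) = R.Q κ (u n) (u n) - 2 * ℓ (u n) := rfl
    rw [e1] at h1
    rw [e3] at h2
    rw [e4] at h3
    rw [e2]
    linarith
  have hcauchy : ∀ ε > 0, ∃ N, ∀ m ≥ N, ∀ n ≥ N, R.Q κ (u m - u n) (u m - u n) < ε := by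
    intro ε hε
    obtain ⟨N, hN⟩ := exists_nat_gt (4 / ε)
    refine ⟨N, fun m hm n hn => (hpar m n).trans_lt ?_⟩
    have hN0 : (0 : ℝ) < N := lt_trans (by positivity) hN
    have key : ∀ j : ℕ, N ≤ j → 1 / ((j : ℝ) + 1) < ε / 4 := by
      intro j hj
      have hj' : (N : ℝ) ≤ j := by exact_mod_cast hj
      rw [div_lt_iff₀ (by positivity)]
      have h5 : 4 < N * ε := by
        rwa [div_lt_iff₀ hε] at hN
      nlinarith
    have := key m hm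
    have := key n hn
    linarith
  obtain ⟨v, hv, hlim⟩ := R.Q_complete h u hu hcauchy
  refine ⟨v, hv, fun f hf => ?_⟩
  -- `Q (u n) f → ℓ f` and `Q (u n) f → Q v f`
  have h1 : ∀ n, (R.Q κ (u n) f - ℓ f) ^ 2 ≤ 1 / ((n : ℝ) + 1) * R.Q κ f f := by
    intro n
    apply Riesz_quad
    intro t
    have hmem : u n + t • f ∈ R.domZ Z := (R.domZ Z).add_mem (hu n) ((R.domZ Z).smul_mem _ hf)
    have h2 := hIle _ hmem
    have h3 := hJu n
    have e1 : J (u n + t • f) = R.Q κ (u n) (u n) + 2 * t * R.Q κ (u n) f + t ^ 2 * R.Q κ f f -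
        2 * (ℓ (u n) + t * ℓ f) := by
      show R.Q κ _ _ - 2 * ℓ _ = _
      rw [Riesz_expand, map_add, map_smul, smul_eq_mul]
    have e3 : J (u n) = R.Q κ (u n) (u n) - 2 * ℓ (u n) := rfl
    rw [e1] at h2
    rw [e3] at h3
    nlinarith
  have hz : Tendsto (fun n : ℕ => 1 / ((n : ℝ) + 1)) atTop (𝓝 0) :=
    tendsto_one_div_add_atTop_nhds_zero_nat
  have h2 : Tendsto (fun n : ℕ => (R.Q κ (u n) f - ℓ f) ^ 2) atTop (𝓝 0) := by
    refine squeeze_zero (fun n => sq_nonneg _) h1 ?_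
    simpa using hz.mul_const (R.Q κ f f)
  have h3 : Tendsto (fun n : ℕ => (R.Q κ (u n - v) f) ^ 2) atTop (𝓝 0) := by
    refine squeeze_zero (fun n => sq_nonneg _) (fun n => R.Riesz_cs hκ (u n - v) f) ?_
    simpa using hlim.mul_const (R.Q κ f f)
  have h4 : ∀ n, (R.Q κ v f - ℓ f) ^ 2 ≤ 2 * (R.Q κ (u n) f - ℓ f) ^ 2 +
      2 * (R.Q κ (u n - v) f) ^ 2 := by
    intro n
    rw [Q_sub_left]
    nlinarith [sq_nonneg ((R.Q κ (u n) f - ℓ f) + (R.Q κ (u n) f - R.Q κ v f))]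
  have h5 : (R.Q κ v f - ℓ f) ^ 2 ≤ 0 := by
    have hl : Tendsto (fun n : ℕ => 2 * (R.Q κ (u n) f - ℓ f) ^ 2 +
        2 * (R.Q κ (u n - v) f) ^ 2) atTop (𝓝 0) := by
      simpa using (h2.const_mul 2).add (h3.const_mul 2)
    exact ge_of_tendsto' hl h4
  have h6 : R.Q κ v f - ℓ f = 0 := by
    have := le_antisymm h5 (sq_nonneg _)
    exact pow_eq_zero_iff (two_ne_zero) |>.1 this
  linarith

theorem riesz_unique (h : Good κ Z) {v w : C(X, ℝ)} (hv : v ∈ R.domZ Z) (hw : w ∈ R.domZ Z)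
    (hvw : ∀ f ∈ R.domZ Z, R.Q κ v f = R.Q κ w f) : v = w := by
  have hmem : v - w ∈ R.domZ Z := (R.domZ Z).sub_mem hv hw
  have h1 : R.Q κ (v - w) (v - w) ≤ 0 := by
    rw [Q_sub_left, hvw _ hmem, sub_self]
  exact sub_eq_zero.1 (R.eq_zero_of_Q h hmem h1)

end RForm

end CarpetLib
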