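import Pool.Agent.Lib.MP_f3090c_an.R.Carre

/-! A17: existence of the energy measure. -/

open Set Filter Topology MeasureTheory

namespace CarpetLib

variable {X : Type*} [MetricSpace X] [CompactSpace X] [MeasurableSpace X] [BorelSpace X]

namespace RForm
variable (R : RForm X)

/-- the functional on the domain -/
private noncomputable def enLam (h : C(X, ℝ)) : R.dom →ₗ[ℝ] ℝ where
  toFun f := 2 * R.E (h * (f : C(X, ℝ))) h - R.E (h * h) f
  map_add' f g := by
    have e : h * ((f + g : R.dom) : C(X, ℝ)) = h * f + h * g := by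
      rw [Submodule.coe_add, mul_add]
    rw [e, Submodule.coe_add, map_add, map_add, LinearMap.add_apply]
    ring
  map_smul' c f := by
    have e : h * ((c • f : R.dom) : C(X, ℝ)) = c • (h * (f : C(X, ℝ))) := by
      rw [Submodule.coe_smul, mul_smul_comm]
    rw [e, Submodule.coe_smul, map_smul, map_smul, LinearMap.smul_apply, RingHom.id_apply]
    simp only [smul_eq_mul]
    ring

omit [MeasurableSpace X] [BorelSpace X] in
private lemma enLam_apply (h : C(X, ℝ)) (f : R.dom) :
    enLam R h f = 2 * R.E (h * (f : C(X, ℝ))) h - R.E (h * h) f := rfl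

omit [MeasurableSpace X] [BorelSpace X] in
private lemma enLam_pos {h : C(X, ℝ)} (hh : h ∈ R.dom) (f : R.dom)
    (hf : ∀ x, 0 ≤ (f : C(X, ℝ)) x) : 0 ≤ enLam R h f :=
  R.carre_nonneg f.2 hh hf

omit [MeasurableSpace X] [BorelSpace X] in
private lemma enLam_one (h : C(X, ℝ)) : enLam R h ⟨1, R.one_mem⟩ = 2 * R.E h h := by
  rw [enLam_apply]
  simp only [mul_one, R.E_one_right]
  ring

theorem exists_energyMeasure {h : C(X, ℝ)} (hh : h ∈ R.dom) :
    ∃ ν : Measure X, IsFiniteMeasure ν ∧
      ∀ f ∈ R.dom, ∫ x, f x ∂ν = 2 * R.E (h * f) h - R.E (h * h) f := by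
  classical
  have hb : ∀ f : R.dom, ‖enLam R h f‖ ≤ 2 * R.E h h * ‖f‖ := by
    intro f
    have hn : ∀ x, |(f : C(X, ℝ)) x| ≤ ‖f‖ := fun x => (f : C(X, ℝ)).norm_coe_le_norm x
    have h1 : 0 ≤ enLam R h (‖f‖ • ⟨1, R.one_mem⟩ + f) := by
      apply enLam_pos R hh
      intro x
      have := neg_abs_le ((f : C(X, ℝ)) x)
      have := hn x
      simp only [Submodule.coe_add, Submodule.coe_smul, ContinuousMap.add_apply,
        ContinuousMap.smul_apply, ContinuousMap.one_apply, smul_eq_mul, mul_one]
      linarith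
    have h2 : 0 ≤ enLam R h (‖f‖ • ⟨1, R.one_mem⟩ - f) := by
      apply enLam_pos R hh
      intro x
      have := le_abs_self ((f : C(X, ℝ)) x)
      have := hn x
      simp only [Submodule.coe_sub, Submodule.coe_smul, ContinuousMap.sub_apply,
        ContinuousMap.smul_apply, ContinuousMap.one_apply, smul_eq_mul, mul_one]
      linarith
    rw [map_add, map_smul, enLam_one, smul_eq_mul] at h1
    rw [map_sub, map_smul, enLam_one, smul_eq_mul] at h2
    rw [Real.norm_eq_abs, abs_le]
    constructor <;> nlinarith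
  let L₀ : R.dom →L[ℝ] ℝ := (enLam R h).mkContinuous (2 * R.E h h) hb
  obtain ⟨L, hL, -⟩ := exists_extension_norm_eq R.dom L₀
  have hL' : ∀ f : R.dom, L f = enLam R h f := fun f => hL f
  have hpos : ∀ f : C(X, ℝ), 0 ≤ f → 0 ≤ L f := by
    intro f hf
    have key : ∀ ε > 0, -(ε * (2 * R.E h h + ‖L‖)) ≤ L f := by
      intro ε hε
      obtain ⟨f', hf', hd⟩ := Metric.dense_iff.1 R.dense f ε hε
      rw [Metric.mem_ball, dist_eq_norm] at hf'
      have hx : ∀ x, |f' x - f x| ≤ ε := fun x => by
        have := (f' - f).norm_coe_le_norm x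
        rw [ContinuousMap.sub_apply, Real.norm_eq_abs] at this
        linarith
      have h1 : 0 ≤ enLam R h (ε • ⟨1, R.one_mem⟩ + ⟨f', hd⟩) := by
        apply enLam_pos R hh
        intro x
        have h2 := (abs_le.1 (hx x)).1
        have h3 : 0 ≤ f x := hf x
        simp only [Submodule.coe_add, Submodule.coe_smul, ContinuousMap.add_apply,
          ContinuousMap.smul_apply, ContinuousMap.one_apply, smul_eq_mul, mul_one]
        linarith
      rw [map_add, map_smul, enLam_one, smul_eq_mul, ← hL' ⟨f', hd⟩] at h1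
      have h2 : L f = L f' - L (f' - f) := by rw [map_sub]; ring
      have h3 : |L (f' - f)| ≤ ‖L‖ * ε := by
        rw [← Real.norm_eq_abs]
        exact (L.le_opNorm _).trans (mul_le_mul_of_nonneg_left hf'.le (norm_nonneg _))
      have h4 := (abs_le.1 h3).2
      simp only at h1
      rw [h2]
      linarith
    by_contra hneg
    push Not at hneg
    have hC : 0 < 2 * R.E h h + ‖L‖ + 1 := by
      have := R.nonneg h
      have := norm_nonneg L
      linarith
    have := key ((-(L f) / 2) / (2 * R.E h h + ‖L‖ + 1)) (by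
      apply div_pos _ hC
      linarith)
    have h3 : (-(L f) / 2) / (2 * R.E h h + ‖L‖ + 1) * (2 * R.E h h + ‖L‖) ≤ -(L f) / 2 := by
      rw [div_mul_eq_mul_div, div_le_iff₀ hC]
      nlinarith
    linarith
  -- the measure
  let Λ₀ : CompactlySupportedContinuousMap X ℝ →ₗ[ℝ] ℝ :=
    { toFun := fun f => L f.toContinuousMap
      map_add' := fun f g => by
        have : (f + g).toContinuousMap = f.toContinuousMap + g.toContinuousMap := rfl
        rw [this, map_add]
      map_smul' := fun c f => by
        have : (c • f).toContinuousMap = c • f.toContinuousMap := rfl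
        rw [this, map_smul, RingHom.id_apply] }
  let Λ : CompactlySupportedContinuousMap X ℝ →ₚ[ℝ] ℝ :=
    PositiveLinearMap.mk₀ Λ₀ (fun f hf => hpos f.toContinuousMap hf)
  refine ⟨RealRMK.rieszMeasure Λ, ?_, ?_⟩
  · infer_instance
  · intro f hf
    let f' : CompactlySupportedContinuousMap X ℝ := ⟨f, HasCompactSupport.of_compactSpace f⟩
    have h1 := RealRMK.integral_rieszMeasure Λ f'
    have h2 : Λ f' = L f := rfl
    rw [h2, hL' ⟨f, hf⟩, enLam_apply] at h1
    exact h1

end RForm

end CarpetLib
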