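import Pool.Agent.Lib.MP_f3090c_an.R.TraceForm

/-! A16b: positivity of the functional f -> 2 E(fh,h) - E(h^2,f). -/

open Set Filter Topology

namespace CarpetLib

variable {X : Type*} [MetricSpace X] [CompactSpace X]

namespace RForm
variable (R : RForm X)

/-- the extension operators attached to an increasing dense sequence of finite sets converge -/
private theorem carre_conv (d : ℕ → X) (hd : DenseRange d) (H : ℕ → C(X, ℝ) →ₗ[ℝ] C(X, ℝ))
    (hH : ∀ n, ∀ f ∈ R.dom, H n f ∈ R.dom ∧ (∀ k ≤ n, H n f (d k) = f (d k)) ∧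
      ∀ g ∈ R.dom, (∀ k ≤ n, g (d k) = 0) → R.E (H n f) g = 0)
    {a : C(X, ℝ)} (ha : a ∈ R.dom) :
    Tendsto (fun n => R.E (a - H n a) (a - H n a)) atTop (𝓝 0) := by
  have h0 : ∀ n m, n ≤ m → R.E (H n a) (H m a - H n a) = 0 := by
    intro n m hnm
    refine (hH n a ha).2.2 _ (R.dom.sub_mem (hH m a ha).1 (hH n a ha).1) ?_
    intro k hk
    rw [ContinuousMap.sub_apply, (hH m a ha).2.1 k (hk.trans hnm), (hH n a ha).2.1 k hk, sub_self]
  have h1 : ∀ n, R.E (H n a) (a - H n a) = 0 := by
    intro n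
    refine (hH n a ha).2.2 _ (R.dom.sub_mem ha (hH n a ha).1) ?_
    intro k hk
    rw [ContinuousMap.sub_apply, (hH n a ha).2.1 k hk, sub_self]
  have e0 : ∀ n m, n ≤ m → R.E (H m a - H n a) (H m a - H n a) =
      R.E (H m a) (H m a) - R.E (H n a) (H n a) := by
    intro n m hnm
    have h := h0 n m hnm
    simp only [map_sub, LinearMap.sub_apply] at h ⊢
    rw [R.symm (H m a) (H n a)]
    linarith
  have e1 : ∀ n, R.E (H n a) (H n a) ≤ R.E a a := by
    intro n
    have h := h1 n
    have h2 := R.nonneg (a - H n a)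
    simp only [map_sub, LinearMap.sub_apply] at h h2
    rw [R.symm a (H n a)] at h2
    linarith
  have hmono : Monotone fun n => R.E (H n a) (H n a) := by
    intro n m hnm
    have h := e0 n m hnm
    have h2 := R.nonneg (H m a - H n a)
    simp only
    linarith
  have hbdd : BddAbove (range fun n => R.E (H n a) (H n a)) := ⟨R.E a a, by
    rintro _ ⟨n, rfl⟩
    exact e1 n⟩
  have hconv := tendsto_atTop_ciSup hmono hbdd
  have hcau := hconv.cauchySeq
  obtain ⟨F, hF, hFt⟩ := R.complete (fun n => H n a) (fun n => (hH n a ha).1) (by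
    intro ε hε
    obtain ⟨N, hN⟩ := Metric.cauchySeq_iff.1 hcau ε hε
    refine ⟨N, ?_⟩
    intro m hm n hn
    rcases le_total n m with h | h
    · rw [e0 n m h]
      have := hN m hm n hn
      rw [Real.dist_eq] at this
      exact (le_abs_self _).trans_lt this
    · have h3 : R.E (H m a - H n a) (H m a - H n a) = R.E (H n a - H m a) (H n a - H m a) := by
        simp only [map_sub, LinearMap.sub_apply]
        ring
      rw [h3, e0 m n h]
      have := hN n hn m hm
      rw [Real.dist_eq] at this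
      exact (le_abs_self _).trans_lt this)
  obtain ⟨C, hC, hb⟩ := R.bound
  have hg : ∀ k, (a - F) (d k) = (a - F) (d 0) := by
    intro k
    have hlim : Tendsto (fun n => C * R.E (H n a - F) (H n a - F)) atTop (𝓝 (C * 0)) :=
      hFt.const_mul C
    have hle : ∀ᶠ n in atTop, ((a - F) (d k) - (a - F) (d 0)) ^ 2 ≤
        C * R.E (H n a - F) (H n a - F) := by
      filter_upwards [eventually_ge_atTop k] with n hn
      have h := hb (H n a - F) (R.dom.sub_mem (hH n a ha).1 hF) (d k) (d 0)
      rw [ContinuousMap.sub_apply, ContinuousMap.sub_apply, (hH n a ha).2.1 k hn,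
        (hH n a ha).2.1 0 (Nat.zero_le n)] at h
      rwa [ContinuousMap.sub_apply, ContinuousMap.sub_apply]
    have h := ge_of_tendsto hlim hle
    rw [mul_zero] at h
    have h2 := pow_eq_zero_iff (two_ne_zero) |>.1 (le_antisymm h (sq_nonneg _))
    linarith
  have hc : a - F = ContinuousMap.const X ((a - F) (d 0)) := by
    have h := hd.equalizer (a - F).continuous
      (ContinuousMap.const X ((a - F) (d 0))).continuous (by
        funext k
        exact hg k)
    exact DFunLike.coe_injective h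
  have hz : ∀ g, R.E (a - F) g = 0 := by
    intro g
    rw [hc, R.E_const_left]
  have he : ∀ n, R.E (a - H n a) (a - H n a) = R.E (H n a - F) (H n a - F) := by
    intro n
    have h3 := hz (a - H n a)
    have h4 := hz (H n a - F)
    simp only [map_sub, LinearMap.sub_apply] at h3 h4 ⊢
    rw [R.symm (H n a) a, R.symm F a, R.symm F (H n a)] at *
    linarith
  simpa only [he] using hFt

theorem carre_nonneg {f h : C(X, ℝ)} (hf : f ∈ R.dom) (hh : h ∈ R.dom) (hf0 : ∀ x, 0 ≤ f x) :
    0 ≤ 2 * R.E (h * f) h - R.E (h * h) f := by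
  rcases isEmpty_or_nonempty X with hX | hX
  · have h0 : ∀ g : C(X, ℝ), g = 0 := fun g => by
      ext x
      exact (hX.false x).elim
    rw [h0 (h * f), h0 (h * h)]
    simp
  let d : ℕ → X := TopologicalSpace.denseSeq X
  have hd : DenseRange d := TopologicalSpace.denseRange_denseSeq X
  classical
  let V : ℕ → Finset X := fun n => (Finset.range (n + 1)).image d
  have hV : ∀ n, (V n).Nonempty := fun n => ⟨d 0, Finset.mem_image.2 ⟨0, by simp, rfl⟩⟩
  choose H c hc hH hE using fun n => R.trace_form (V n) (hV n)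
  have hH' : ∀ n, ∀ f ∈ R.dom, H n f ∈ R.dom ∧ (∀ k ≤ n, H n f (d k) = f (d k)) ∧
      ∀ g ∈ R.dom, (∀ k ≤ n, g (d k) = 0) → R.E (H n f) g = 0 := by
    intro n g hg
    obtain ⟨h1, h2, h3⟩ := hH n g hg
    refine ⟨h1, ?_, ?_⟩
    · intro k hk
      exact h2 _ (Finset.mem_image.2 ⟨k, Finset.mem_range.2 (Nat.lt_succ_of_le hk), rfl⟩)
    · intro u hu hu0
      refine h3 u hu ?_
      intro p hp
      obtain ⟨k, hk, rfl⟩ := Finset.mem_image.1 hp
      exact hu0 k (Nat.le_of_lt_succ (Finset.mem_range.1 hk))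
  have key : ∀ a ∈ R.dom, ∀ b ∈ R.dom,
      Tendsto (fun n => R.E (H n a) (H n b)) atTop (𝓝 (R.E a b)) := by
    intro a ha b hb
    have h1 := R.carre_conv d hd H hH' ha
    have h2 : ∀ n, R.E a b - R.E (H n a) (H n b) = R.E (a - H n a) b := by
      intro n
      have h3 : R.E (H n a) (b - H n b) = 0 := by
        refine (hH' n a ha).2.2 _ (R.dom.sub_mem hb (hH' n b hb).1) ?_
        intro k hk
        rw [ContinuousMap.sub_apply, (hH' n b hb).2.1 k hk, sub_self]
      simp only [map_sub, LinearMap.sub_apply] at h3 ⊢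
      linarith
    have h4 : Tendsto (fun n => (R.E a b - R.E (H n a) (H n b)) ^ 2) atTop (𝓝 0) := by
      have h5 : Tendsto (fun n => R.E (a - H n a) (a - H n a) * R.E b b) atTop
          (𝓝 (0 * R.E b b)) := h1.mul_const _
      rw [zero_mul] at h5
      refine squeeze_zero (fun n => sq_nonneg _) (fun n => ?_) h5
      rw [h2 n]
      exact R.cs _ _
    have h6 : Tendsto (fun n => R.E a b - R.E (H n a) (H n b)) atTop (𝓝 0) := by
      have h7 := (Real.continuous_sqrt.tendsto 0).comp h4
      rw [Real.sqrt_zero] at h7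
      refine squeeze_zero_norm (fun n => ?_) h7
      simp only [Function.comp_apply]
      rw [Real.sqrt_sq_eq_abs, Real.norm_eq_abs]
    have h8 : Tendsto (fun n => R.E a b - (R.E a b - R.E (H n a) (H n b))) atTop
        (𝓝 (R.E a b - 0)) := h6.const_sub _
    rw [sub_zero] at h8
    refine h8.congr (fun n => ?_)
    ring
  have hhf : h * f ∈ R.dom := R.mul_mem hh hf
  have hhh : h * h ∈ R.dom := R.mul_mem hh hh
  have hlim : Tendsto (fun n => 2 * R.E (H n (h * f)) (H n h) - R.E (H n (h * h)) (H n f)) atTop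
      (𝓝 (2 * R.E (h * f) h - R.E (h * h) f)) :=
    ((key _ hhf _ hh).const_mul 2).sub (key _ hhh _ hf)
  refine ge_of_tendsto' hlim (fun n => ?_)
  rw [hE n _ hhf _ hh, hE n _ hhh _ hf, Finset.mul_sum, ← Finset.sum_sub_distrib]
  refine Finset.sum_nonneg (fun p _ => ?_)
  rw [Finset.mul_sum, ← Finset.sum_sub_distrib]
  refine Finset.sum_nonneg (fun q _ => ?_)
  have e : 2 * (c n p q * ((h * f) p - (h * f) q) * (h p - h q)) -
      c n p q * ((h * h) p - (h * h) q) * (f p - f q) =
      c n p q * (f p + f q) * (h p - h q) ^ 2 := by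
    simp only [ContinuousMap.mul_apply]
    ring
  rw [e]
  exact mul_nonneg (mul_nonneg (hc n p q) (add_nonneg (hf0 p) (hf0 q))) (sq_nonneg _)

end RForm

end CarpetLib
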