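import Pool.Agent.Lib.MP_f3090c_an.R.Riesz

/-! A14b. -/

open Set Filter Topology

namespace CarpetLib

variable {X : Type*} [MetricSpace X] [CompactSpace X]

namespace RForm
variable (R : RForm X)

/-- A14b: harmonic measure bound. `γ` is the Dirichlet Green function with pole `y`. -/
theorem harmonic_measure_le {m : Set X} (hm : IsClosed m) (hne : m.Nonempty) {y : X}
    {γ : C(X, ℝ)} (hγ : γ ∈ R.domZ m) (hγ' : ∀ f ∈ R.domZ m, R.E γ f = f y)
    {f : C(X, ℝ)} (hf : f ∈ R.dom) {c : ℝ} (hc : ∀ z ∈ m, f z ≤ c) :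
    f y - R.E γ f ≤ c := by
  have hgood : Good (0 : C(X, ℝ) →ₗ[ℝ] ℝ) m := ⟨fun _ _ => by simp, hm, Or.inr hne⟩
  have hQ : ∀ a b : C(X, ℝ), R.Q 0 a b = R.E a b := fun a b => by simp [Q]
  obtain ⟨v, hv, hv'⟩ := R.riesz hgood (R.E f) ⟨R.E f f, fun g _ => by
    rw [hQ]
    exact R.cs f g⟩
  have hv2 : ∀ g ∈ R.domZ m, R.E v g = R.E f g := fun g hg => by
    rw [← hQ]
    exact hv' g hg
  -- the harmonic part
  have hH : f - v ∈ R.dom := R.dom.sub_mem hf hv.1
  have hH0 : ∀ g ∈ R.domZ m, R.E (f - v) g = 0 := fun g hg => by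
    rw [map_sub, LinearMap.sub_apply, hv2 g hg, sub_self]
  have h1 : f y - R.E γ f = (f - v) y := by
    have h2 : R.E γ f = R.E γ v + R.E γ (f - v) := by
      rw [← map_add, add_sub_cancel]
    rw [h2, hγ' v hv, R.symm γ (f - v), hH0 γ hγ, add_zero, ContinuousMap.sub_apply]
  rw [h1]
  -- the positive part of `H - c`
  have hHc : (f - v) - ContinuousMap.const X c ∈ R.dom := R.dom.sub_mem hH (R.const_mem c)
  set k : C(X, ℝ) := ((f - v) - ContinuousMap.const X c) ⊔ 0 with hk
  set k' : C(X, ℝ) := (-((f - v) - ContinuousMap.const X c)) ⊔ 0 with hk'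
  have hkd : k ∈ R.dom := R.sup_mem hHc R.dom.zero_mem
  have hkd' : k' ∈ R.dom := R.sup_mem (R.dom.neg_mem hHc) R.dom.zero_mem
  have hkv : ∀ x, k x = max ((f - v) x - c) 0 := fun x => by
    simp [hk]
  have hkv' : ∀ x, k' x = max (-((f - v) x - c)) 0 := fun x => by
    simp [hk']
  have hkm : k ∈ R.domZ m := by
    refine ⟨hkd, fun z hz => ?_⟩
    rw [hkv, max_eq_right]
    have h3 := hc z hz
    have h4 := hv.2 z hz
    rw [ContinuousMap.sub_apply, h4]
    linarith
  have hdec : (f - v) - ContinuousMap.const X c = k - k' := by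
    ext x
    rw [ContinuousMap.sub_apply (f := k), hkv, hkv', ContinuousMap.sub_apply,
      ContinuousMap.const_apply]
    rcases le_total ((f - v) x - c) 0 with h | h
    · rw [max_eq_right h, max_eq_left (by linarith)]
      ring
    · rw [max_eq_left h, max_eq_right (by linarith)]
      ring
  have hE1 : R.E k' k ≤ 0 := by
    apply R.E_disj_nonpos hkd' hkd
    · intro x
      show (0 : C(X, ℝ)) x ≤ k' x
      rw [hkv']
      exact le_max_right _ _
    · intro x
      show (0 : C(X, ℝ)) x ≤ k x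
      rw [hkv]
      exact le_max_right _ _
    · intro x
      rcases le_total ((f - v) x - c) 0 with h | h
      · right
        rw [hkv, max_eq_right h]
      · left
        rw [hkv', max_eq_right (by linarith)]
  have hE2 : R.E ((f - v) - ContinuousMap.const X c) k = 0 := by
    rw [map_sub, LinearMap.sub_apply, hH0 k hkm, R.E_const_left, sub_zero]
  have hE3 : R.E k k = 0 := by
    apply le_antisymm _ (R.nonneg k)
    rw [hdec, map_sub, LinearMap.sub_apply] at hE2
    linarith
  obtain ⟨z, hz⟩ := hne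
  have h5 : k y = k z := R.const_of_zero k hkd hE3 y z
  rw [hkm.2 z hz, hkv] at h5
  have h6 : (f - v) y - c ≤ 0 := by
    rw [← h5]
    exact le_max_left _ _
  linarith

end RForm

end CarpetLib
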