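import Mathlib

/-!
# Abstract strongly local regular resistance forms on a compact space

`RForm X` : a symmetric bilinear form `E` on `C(X, ℝ)` (only its values on the domain `dom` matter)
which is, on `dom`, a closed, irreducible, regular, strongly local Dirichlet form with
bounded effective resistance.
-/

open Set Filter Topology

namespace CarpetLib

/-- Abstract strongly local regular resistance form on a compact space `X`. -/
structure RForm (X : Type*) [TopologicalSpace X] [CompactSpace X] where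
  /-- the domain -/
  dom : Submodule ℝ C(X, ℝ)
  /-- the form, extended (arbitrarily) to a bilinear form on all of `C(X, ℝ)` -/
  E : C(X, ℝ) →ₗ[ℝ] C(X, ℝ) →ₗ[ℝ] ℝ
  symm : ∀ f g, E f g = E g f
  nonneg : ∀ f, 0 ≤ E f f
  one_mem : (1 : C(X, ℝ)) ∈ dom
  E_one : E 1 1 = 0
  const_of_zero : ∀ f ∈ dom, E f f = 0 → ∀ x y, f x = f y
  bound : ∃ R : ℝ, 0 < R ∧ ∀ f ∈ dom, ∀ x y, (f x - f y) ^ 2 ≤ R * E f f
  complete : ∀ u : ℕ → C(X, ℝ), (∀ n, u n ∈ dom) →
    (∀ ε > 0, ∃ N, ∀ m ≥ N, ∀ n ≥ N, E (u m - u n) (u m - u n) < ε) →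
    ∃ f ∈ dom, Tendsto (fun n => E (u n - f) (u n - f)) atTop (𝓝 0)
  /-- every normal contraction operates -/
  markov : ∀ f ∈ dom, ∀ φ : C(ℝ, ℝ), LipschitzWith 1 φ →
    φ.comp f ∈ dom ∧ E (φ.comp f) (φ.comp f) ≤ E f f
  dense : Dense (dom : Set C(X, ℝ))
  /-- strong locality -/
  loc : ∀ f g : C(X, ℝ), f + g ∈ dom → Disjoint (tsupport f) (tsupport g) →
    f ∈ dom ∧ g ∈ dom ∧ E f g = 0

section
variable {X : Type*} [TopologicalSpace X] [CompactSpace X]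

/-- evaluation at a point as a linear functional -/
def ev (z : X) : C(X, ℝ) →ₗ[ℝ] ℝ where
  toFun f := f z
  map_add' _ _ := rfl
  map_smul' _ _ := rfl

@[simp] theorem ev_apply (z : X) (f : C(X, ℝ)) : ev z f = f z := rfl

/-- a positive linear functional (killing measure) -/
def Pos (κ : C(X, ℝ) →ₗ[ℝ] ℝ) : Prop := ∀ f : C(X, ℝ), 0 ≤ f → 0 ≤ κ f

/-- admissible pairs (killing functional, Dirichlet set) -/
def Good (κ : C(X, ℝ) →ₗ[ℝ] ℝ) (Z : Set X) : Prop :=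
  Pos κ ∧ IsClosed Z ∧ (0 < κ 1 ∨ Z.Nonempty)

namespace RForm
variable (R : RForm X)

/-- the form with killing `κ` -/
def Q (κ : C(X, ℝ) →ₗ[ℝ] ℝ) (f g : C(X, ℝ)) : ℝ := R.E f g + κ (f * g)

/-- functions of the domain vanishing on `Z` -/
def domZ (Z : Set X) : Submodule ℝ C(X, ℝ) where
  carrier := {f | f ∈ R.dom ∧ ∀ z ∈ Z, f z = 0}
  add_mem' := by
    rintro f g ⟨hf, hf0⟩ ⟨hg, hg0⟩
    exact ⟨R.dom.add_mem hf hg, fun z hz => by simp [hf0 z hz, hg0 z hz]⟩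
  zero_mem' := ⟨R.dom.zero_mem, fun _ _ => rfl⟩
  smul_mem' := by
    rintro c f ⟨hf, hf0⟩
    exact ⟨R.dom.smul_mem c hf, fun z hz => by simp [hf0 z hz]⟩

theorem mem_domZ {Z : Set X} {f : C(X, ℝ)} : f ∈ R.domZ Z ↔ f ∈ R.dom ∧ ∀ z ∈ Z, f z = 0 :=
  Iff.rfl

/-- `g` is the family of Green functions of the form with killing `κ` and Dirichlet
condition on `Z`. -/
def IsGreen (κ : C(X, ℝ) →ₗ[ℝ] ℝ) (Z : Set X) (g : X → C(X, ℝ)) : Prop :=
  ∀ y, g y ∈ R.domZ Z ∧ ∀ f ∈ R.domZ Z, R.Q κ (g y) f = f y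

end RForm

/-- two points are joined inside `S` by a compact connected set -/
def Joined' (S : Set X) (x y : X) : Prop :=
  ∃ C : Set X, IsCompact C ∧ IsPreconnected C ∧ C ⊆ S ∧ x ∈ C ∧ y ∈ C

end

end CarpetLib
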