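import Pool.Agent.Lib.MP_f3090c_an.R.Defs

/-! abstract reflections. -/

open Set Filter Topology

namespace CarpetLib

/-- A reflection `σ` of `X` with open side `O` and quotient map `π : X → Y`, section `ι`. -/
structure Mir (X Y : Type*) [TopologicalSpace X] [TopologicalSpace Y] where
  σ : C(X, X)
  O : Set X
  π : C(X, Y)
  ι : C(Y, X)
  inv : ∀ x, σ (σ x) = x
  openO : IsOpen O
  disj : ∀ x ∈ O, σ x ∉ O
  cover : ∀ x, x ∈ O ∨ σ x ∈ O ∨ σ x = x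
  fr : ∀ x ∈ frontier O, σ x = x
  πι : ∀ y, π (ι y) = y
  ιπO : ∀ x ∈ O, ι (π x) = x
  ιπfix : ∀ x, σ x = x → ι (π x) = x
  πσ : ∀ x, π (σ x) = π x

/-- invariance of a form under a map -/
def RForm.Inv {X : Type*} [TopologicalSpace X] [CompactSpace X] (R : RForm X) (σ : C(X, X)) : Prop :=
  (∀ f ∈ R.dom, f.comp σ ∈ R.dom) ∧ ∀ f ∈ R.dom, ∀ g ∈ R.dom, R.E (f.comp σ) (g.comp σ) = R.E f g

end CarpetLib
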