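import Pool.Agent.Lib.MP_f3090c_an.R.Basic

/-! bilinearity of Q. -/

open Set Filter Topology

namespace CarpetLib

variable {X : Type*} [TopologicalSpace X] [CompactSpace X]

namespace RForm
variable (R : RForm X)

theorem Q_add_left (κ : C(X, ℝ) →ₗ[ℝ] ℝ) (f g h : C(X, ℝ)) :
    R.Q κ (f + g) h = R.Q κ f h + R.Q κ g h := by
  simp only [Q, map_add, LinearMap.add_apply, add_mul]; ring

theorem Q_sub_left (κ : C(X, ℝ) →ₗ[ℝ] ℝ) (f g h : C(X, ℝ)) :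
    R.Q κ (f - g) h = R.Q κ f h - R.Q κ g h := by
  simp only [Q, map_sub, LinearMap.sub_apply, sub_mul]; ring

theorem Q_smul_left (κ : C(X, ℝ) →ₗ[ℝ] ℝ) (c : ℝ) (f h : C(X, ℝ)) :
    R.Q κ (c • f) h = c * R.Q κ f h := by
  simp only [Q, map_smul, LinearMap.smul_apply, smul_mul_assoc, smul_eq_mul]; ring

theorem Q_symm (κ : C(X, ℝ) →ₗ[ℝ] ℝ) (f g : C(X, ℝ)) : R.Q κ f g = R.Q κ g f := by
  simp only [Q, R.symm f g, mul_comm f g]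

theorem Q_add_right (κ : C(X, ℝ) →ₗ[ℝ] ℝ) (f g h : C(X, ℝ)) :
    R.Q κ f (g + h) = R.Q κ f g + R.Q κ f h := by
  rw [Q_symm, Q_add_left, Q_symm R κ g, Q_symm R κ h]

theorem Q_sub_right (κ : C(X, ℝ) →ₗ[ℝ] ℝ) (f g h : C(X, ℝ)) :
    R.Q κ f (g - h) = R.Q κ f g - R.Q κ f h := by
  rw [Q_symm, Q_sub_left, Q_symm R κ g, Q_symm R κ h]

theorem Q_smul_right (κ : C(X, ℝ) →ₗ[ℝ] ℝ) (c : ℝ) (f h : C(X, ℝ)) :
    R.Q κ f (c • h) = c * R.Q κ f h := by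
  rw [Q_symm, Q_smul_left, Q_symm R κ h]

theorem Q_nonneg {κ : C(X, ℝ) →ₗ[ℝ] ℝ} (hκ : Pos κ) (f : C(X, ℝ)) : 0 ≤ R.Q κ f f :=
  add_nonneg (R.nonneg f) (hκ _ (fun x => mul_self_nonneg (f x)))

end RForm

end CarpetLib
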