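import Pool.Agent.Lib.MP_f3090c_an.R.Green1
import Pool.Agent.Lib.MP_f3090c_an.R.Sep
import Pool.Agent.Lib.MP_f3090c_an.R.QBasic

/-! A06: Green functions, positivity and rank one update. -/

open Set Filter Topology

namespace CarpetLib

variable {X : Type*} [TopologicalSpace X] [CompactSpace X]

namespace RForm
variable (R : RForm X) {κ : C(X, ℝ) →ₗ[ℝ] ℝ} {Z : Set X} {g : X → C(X, ℝ)}

theorem green_diag_pos [T2Space X] (h : Good κ Z) (hg : R.IsGreen κ Z g) {y : X}
    (hy : y ∉ Z) : 0 < g y y := by
  obtain ⟨f, hf, _, hfy⟩ := R.exists_bump h.2.1 hy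
  rcases (R.green_nonneg h hg y y).lt_or_eq with h0 | h0
  · exact h0
  · exfalso
    have h1 : R.Q κ (g y) (g y) = 0 := by rw [(hg y).2 (g y) (hg y).1, ← h0]
    have h2 : R.Q κ (g y) f = f y := (hg y).2 f hf
    have h3 : ∀ t : ℝ, 0 ≤ R.Q κ f f + 2 * t * f y := by
      intro t
      have := R.Q_nonneg h.1 (f + t • g y)
      rw [R.Q_add_left, R.Q_add_right, R.Q_add_right, R.Q_smul_right, R.Q_smul_left,
        R.Q_smul_left, R.Q_smul_right, h1, h2, R.Q_symm κ f (g y), h2] at this
      linarith
    have h4 := h3 (-(R.Q κ f f + 1) / (2 * f y))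
    have h5 : 2 * (-(R.Q κ f f + 1) / (2 * f y)) * f y = -(R.Q κ f f + 1) := by
      field_simp
    rw [h5] at h4
    linarith

/-- strict positivity along connected sets avoiding `Z` -/
theorem green_pos [T2Space X] (h : Good κ Z) (hg : R.IsGreen κ Z g) {C : Set X}
    (hC : IsPreconnected C) (hCZ : Disjoint C Z) {x y : X} (hx : x ∈ C) (hy : y ∈ C) :
    0 < g y x := by
  rcases (R.green_nonneg h hg x y).lt_or_eq with h0 | h0
  · exact h0
  · exfalso
    have hnot : ∀ z ∈ C, z ∉ Z := fun z hz hz' => (Set.disjoint_left.1 hCZ) hz hz'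
    have hloc : ∀ z ∈ C, g y z = 0 → z ∈ interior {w | g y w = 0} := by
      intro z hz hz0
      rw [mem_interior]
      refine ⟨{w | 0 < g z w}, ?_, isOpen_lt continuous_const (g z).continuous,
        R.green_diag_pos h hg (hnot z hz)⟩
      intro w hw
      have hw' : 0 < g w z := by
        rw [R.green_symm hg w z]
        exact hw
      have h1 := R.green_trans h hg z w y
      rw [hz0, zero_mul] at h1
      have h2 := R.green_nonneg h hg w y
      have h3 : g y w ≤ 0 := by
        by_contra hc
        push Not at hc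
        have := mul_pos hw' hc
        linarith
      exact le_antisymm h3 h2
    obtain ⟨w, _, hw1, hw2⟩ := hC {w | 0 < g y w} (interior {w | g y w = 0})
      (isOpen_lt continuous_const (g y).continuous) isOpen_interior
      (by
        intro z hz
        rcases (R.green_nonneg h hg z y).lt_or_eq with h1 | h1
        · exact Or.inl h1
        · exact Or.inr (hloc z hz h1.symm))
      ⟨y, hy, R.green_diag_pos h hg (hnot y hy)⟩ ⟨x, hx, hloc x hx h0.symm⟩
    have h1 : g y w = 0 := by
      have h3 : w ∈ {w | g y w = 0} := interior_subset hw2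
      exact h3
    have h2 : 0 < g y w := hw1
    linarith

theorem green_pos' [T2Space X] (hκ : Pos κ) (h1 : 0 < κ 1) (hg : R.IsGreen κ ∅ g) (x y : X) :
    0 < g y x :=
  R.green_pos ⟨hκ, isClosed_empty, Or.inl h1⟩ hg R.preconnected (Set.disjoint_empty _)
    (Set.mem_univ x) (Set.mem_univ y)

/-- adding a point mass to the killing functional -/
theorem green_rank_one (h : Good κ Z) (hg : R.IsGreen κ Z g) {t : ℝ} (ht : 0 ≤ t) (z : X) :
    R.IsGreen (κ + t • ev z) Z (fun y => g y - ((t / (1 + t * g z z)) * g y z) • g z) := by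
  intro y
  refine ⟨(R.domZ Z).sub_mem (hg y).1 ((R.domZ Z).smul_mem _ (hg z).1), fun f hf => ?_⟩
  have hpos : 0 < 1 + t * g z z := by
    have := mul_nonneg ht (R.green_nonneg h hg z z)
    linarith
  have h1 : ∀ u : C(X, ℝ), R.Q (κ + t • ev z) u f = R.Q κ u f + t * (u z * f z) := by
    intro u
    simp only [Q, LinearMap.add_apply, LinearMap.smul_apply, ev_apply,
      ContinuousMap.mul_apply, smul_eq_mul]
    ring
  rw [h1, R.Q_sub_left, R.Q_smul_left, (hg y).2 f hf, (hg z).2 f hf]
  simp only [ContinuousMap.sub_apply, ContinuousMap.smul_apply, smul_eq_mul]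
  field_simp
  ring

theorem green_unique (h : Good κ Z) {g' : X → C(X, ℝ)} (hg : R.IsGreen κ Z g)
    (hg' : R.IsGreen κ Z g') : g = g' := by
  funext y
  exact R.riesz_unique h (hg y).1 (hg' y).1 fun f hf => by
    rw [(hg y).2 f hf, (hg' y).2 f hf]

end RForm

end CarpetLib
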