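import Pool.Agent.Lib.MP_f3090c_an.R.Coer

/-! A04c: Baire. -/

open Set Filter Topology

namespace CarpetLib

/-- abstract form: in a Hilbert space countably many nonzero bounded functionals are
simultaneously nonzero at some vector -/
private theorem baire_abstract {F : Type*} [AddCommGroup F] [Module ℝ F] (B : F → F → ℝ)
    (hsymm : ∀ f g, B f g = B g f) (hnn : ∀ f, 0 ≤ B f f)
    (hadd : ∀ f g h, B (f + g) h = B f h + B g h)
    (hsmul : ∀ (c : ℝ) (f g : F), B (c • f) g = c * B f g)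
    (hdef : ∀ f, B f f = 0 → f = 0)
    (hcomp : ∀ u : ℕ → F,
      (∀ ε > 0, ∃ N, ∀ m ≥ N, ∀ n ≥ N, B (u m - u n) (u m - u n) < ε) →
      ∃ f, Tendsto (fun n => B (u n - f) (u n - f)) atTop (𝓝 0))
    {ι : Type*} [Countable ι] (L : ι → F →ₗ[ℝ] ℝ) (C : ℝ)
    (hL : ∀ i f, (L i f) ^ 2 ≤ C * B f f) (hne : ∀ i, ∃ f, L i f ≠ 0) :
    ∃ f, ∀ i, L i f ≠ 0 := by
  let core : InnerProductSpace.Core ℝ F :=
    { inner := B
      conj_inner_symm := fun x y => by
        simp only [conj_trivial]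
        exact hsymm y x
      re_inner_nonneg := fun x => hnn x
      add_left := fun x y z => hadd x y z
      smul_left := fun x y r => by
        simp only [conj_trivial]
        exact hsmul r x y
      definite := fun x hx => hdef x hx }
  let _ : NormedAddCommGroup F := core.toNormedAddCommGroup
  let _ : InnerProductSpace ℝ F := InnerProductSpace.ofCore core.toCore
  have hnorm : ∀ f : F, ‖f‖ ^ 2 = B f f := fun f => (real_inner_self_eq_norm_sq f).symm
  have hcs : CompleteSpace F := by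
    refine Metric.complete_of_cauchySeq_tendsto fun u hu => ?_
    obtain ⟨f, hf⟩ := hcomp u (fun ε hε => by
      obtain ⟨N, hN⟩ := Metric.cauchySeq_iff.1 hu (Real.sqrt ε) (Real.sqrt_pos.2 hε)
      refine ⟨N, fun m hm n hn => ?_⟩
      have h1 := hN m hm n hn
      rw [dist_eq_norm] at h1
      rw [← hnorm]
      have h2 := pow_lt_pow_left₀ h1 (norm_nonneg _) two_ne_zero
      rwa [Real.sq_sqrt hε.le] at h2)
    refine ⟨f, ?_⟩
    rw [tendsto_iff_norm_sub_tendsto_zero]
    have h3 : Tendsto (fun n => Real.sqrt (B (u n - f) (u n - f))) atTop (𝓝 (Real.sqrt 0)) :=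
      (Real.continuous_sqrt.tendsto 0).comp hf
    rw [Real.sqrt_zero] at h3
    refine h3.congr fun n => ?_
    rw [← hnorm, Real.sqrt_sq (norm_nonneg _)]
  have hcont : ∀ i, Continuous (L i) := by
    intro i
    refine AddMonoidHomClass.continuous_of_bound (L i) (Real.sqrt |C|) fun f => ?_
    have h1 : (L i f) ^ 2 ≤ |C| * ‖f‖ ^ 2 := by
      rw [hnorm]
      exact (hL i f).trans (mul_le_mul_of_nonneg_right (le_abs_self C) (hnn f))
    have h2 := Real.abs_le_sqrt h1
    rw [Real.sqrt_mul (abs_nonneg C), Real.sqrt_sq (norm_nonneg _)] at h2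
    rwa [Real.norm_eq_abs]
  by_contra hcon
  push Not at hcon
  have hU : ⋃ i, ((LinearMap.ker (L i) : Submodule ℝ F) : Set F) = univ := by
    refine eq_univ_of_forall fun f => ?_
    obtain ⟨i, hi⟩ := hcon f
    exact mem_iUnion.2 ⟨i, LinearMap.mem_ker.2 hi⟩
  obtain ⟨i, hi⟩ := nonempty_interior_of_iUnion_of_closed
    (fun i => isClosed_singleton.preimage (hcont i)) hU
  have htop := (LinearMap.ker (L i)).eq_top_of_nonempty_interior' hi
  obtain ⟨f, hf⟩ := hne i
  apply hf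
  have : f ∈ LinearMap.ker (L i) := by rw [htop]; exact Submodule.mem_top
  exact LinearMap.mem_ker.1 this

variable {X : Type*} [TopologicalSpace X] [CompactSpace X]

namespace RForm
variable (R : RForm X) {κ : C(X, ℝ) →ₗ[ℝ] ℝ} {Z : Set X}

/-- countably many proper closed conditions can be avoided simultaneously (Baire) inside a
subspace of the domain which is closed for the energy -/
theorem baire (h : Good κ Z) (V : Submodule ℝ C(X, ℝ)) (hV : V ≤ R.domZ Z)
    (hVc : ∀ u : ℕ → C(X, ℝ), (∀ n, u n ∈ V) → ∀ f ∈ R.domZ Z,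
      Tendsto (fun n => R.Q κ (u n - f) (u n - f)) atTop (𝓝 0) → f ∈ V)
    {ι : Type*} [Countable ι] (p q : ι → X) (hpq : ∀ i, ∃ f ∈ V, f (p i) ≠ f (q i)) :
    ∃ f ∈ V, ∀ i, f (p i) ≠ f (q i) := by
  obtain ⟨C, hC, hco⟩ := R.coercive h
  obtain ⟨f, hf⟩ := baire_abstract (F := V) (fun f g => R.Q κ (f : C(X, ℝ)) (g : C(X, ℝ)))
    (fun f g => R.Q_symm κ f g) (fun f => R.Q_nonneg h.1 _)
    (fun f g k => R.Q_add_left κ _ _ _) (fun c f g => R.Q_smul_left κ c _ _)
    (fun f hf => Subtype.ext (R.eq_zero_of_Q h (hV f.2) hf.le))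
    (fun u hu => by
      obtain ⟨f, hf, hlim⟩ := R.Q_complete h (fun n => (u n : C(X, ℝ)))
        (fun n => hV (u n).2) hu
      exact ⟨⟨f, hVc _ (fun n => (u n).2) f hf hlim⟩, hlim⟩)
    (fun i => ((ev (p i) - ev (q i)).comp V.subtype : V →ₗ[ℝ] ℝ)) (4 * C)
    (fun i f => by
      have h1 := hco f (hV f.2) (p i)
      have h2 := hco f (hV f.2) (q i)
      change ((f : C(X, ℝ)) (p i) - (f : C(X, ℝ)) (q i)) ^ 2 ≤ _
      nlinarith [sq_nonneg ((f : C(X, ℝ)) (p i) + (f : C(X, ℝ)) (q i))])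
    (fun i => by
      obtain ⟨f, hf, hne⟩ := hpq i
      exact ⟨⟨f, hf⟩, sub_ne_zero.2 hne⟩)
  exact ⟨f, f.2, fun i => sub_ne_zero.1 (hf i)⟩

end RForm

end CarpetLib
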