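import Pool.Agent.Lib.MP_f3090c_an.R.HarmDefs
import Pool.Agent.Lib.MP_f3090c_an.R.Riesz
import Pool.Agent.Lib.MP_f3090c_an.R.Baire

/-! A18: harmonic functions off a closed set `V` and (in)separation of points. -/

open Set Filter Topology

namespace CarpetLib

variable {X : Type*} [TopologicalSpace X] [CompactSpace X]

namespace RForm
variable (R : RForm X)

private theorem harm_good0 {V : Set X} (hV : IsClosed V) (hne : V.Nonempty) :
    Good (0 : C(X, ℝ) →ₗ[ℝ] ℝ) V :=
  ⟨fun _ _ => le_refl _, hV, Or.inr hne⟩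

private theorem harm_Q0 (f g : C(X, ℝ)) : R.Q (0 : C(X, ℝ) →ₗ[ℝ] ℝ) f g = R.E f g := by
  simp [Q]

theorem insep_iff {V : Set X} (hV : IsClosed V) (hne : V.Nonempty) (x x' : X) :
    R.Insep V x x' ↔ ∀ h ∈ R.harm V, h x = h x' := by
  have hG := harm_good0 hV hne
  constructor
  · rintro ⟨u, hu, hu2⟩ h ⟨hh, hh2⟩
    have h1 := hu2 h hh
    have h2 := hh2 u hu
    rw [R.symm] at h2
    rw [h2] at h1
    linarith
  · intro H
    obtain ⟨C, hC, hCo⟩ := R.coercive hG
    obtain ⟨u, hu, hu2⟩ := R.riesz hG (ev x - ev x') ⟨4 * C, fun f hf => by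
      have h1 := hCo f hf x
      have h2 := hCo f hf x'
      simp only [LinearMap.sub_apply, ev_apply]
      nlinarith [sq_nonneg (f x + f x')]⟩
    refine ⟨u, hu, fun f hf => ?_⟩
    obtain ⟨P, hP, hP2⟩ := R.riesz hG (R.E f) ⟨R.E f f, fun g _ => by
      rw [harm_Q0]
      exact R.cs f g⟩
    have hh : f - P ∈ R.harm V := by
      refine ⟨R.dom.sub_mem hf hP.1, fun g hg => ?_⟩
      have h1 := hP2 g hg
      rw [harm_Q0] at h1
      rw [map_sub, LinearMap.sub_apply, h1, sub_self]
    have h1 := H _ hh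
    have h2 := hh.2 u hu
    rw [R.symm, map_sub] at h2
    have h3 := hu2 P hP
    rw [harm_Q0] at h3
    simp only [LinearMap.sub_apply, ev_apply] at h3
    simp only [ContinuousMap.sub_apply] at h1
    linarith

/-- Baire: countably many pairs that can be separated one by one by harmonic functions can be
separated simultaneously. -/
theorem harm_baire {V : Set X} (hV : IsClosed V) (hne : V.Nonempty) {ι : Type*} [Countable ι]
    (p q : ι → X) (hpq : ∀ i, ¬ R.Insep V (p i) (q i)) :
    ∃ h ∈ R.harm V, ∀ i, h (p i) ≠ h (q i) := by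
  obtain ⟨x₀, hx₀⟩ := hne
  have hG : Good (ev x₀) (∅ : Set X) := by
    refine ⟨fun f hf => hf x₀, isClosed_empty, Or.inl ?_⟩
    simp
  refine R.baire hG (R.harm V) ?_ ?_ p q ?_
  · intro f hf
    exact ⟨hf.1, fun z hz => absurd hz (Set.notMem_empty z)⟩
  · intro u hu f hf hlim
    refine ⟨hf.1, fun g hg => ?_⟩
    have h1 : ∀ n, (R.E f g) ^ 2 ≤ R.Q (ev x₀) (u n - f) (u n - f) * R.E g g := by
      intro n
      have h2 := R.cs (u n - f) g
      have h5 : R.E (u n - f) g = - R.E f g := by
        rw [map_sub, LinearMap.sub_apply, (hu n).2 g hg, zero_sub]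
      rw [h5, neg_sq] at h2
      refine h2.trans (mul_le_mul_of_nonneg_right ?_ (R.nonneg g))
      unfold Q
      have : 0 ≤ ev x₀ ((u n - f) * (u n - f)) := by
        simp only [ev_apply, ContinuousMap.mul_apply]
        exact mul_self_nonneg _
      linarith
    have h3 : Tendsto (fun n => R.Q (ev x₀) (u n - f) (u n - f) * R.E g g) atTop (𝓝 0) := by
      have := hlim.mul_const (R.E g g)
      rwa [zero_mul] at this
    have h4 : (R.E f g) ^ 2 ≤ 0 := ge_of_tendsto' h3 h1
    exact pow_eq_zero_iff (two_ne_zero) |>.1 (le_antisymm h4 (sq_nonneg _))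
  · intro i
    have h1 := hpq i
    rw [R.insep_iff hV ⟨x₀, hx₀⟩] at h1
    push Not at h1
    exact h1

end RForm

end CarpetLib
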