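import Pool.Agent.Lib.MP_f3090c_an.R.MirDefs
import Pool.Agent.Lib.MP_f3090c_an.R.Harm
import Pool.Agent.Lib.MP_f3090c_an.R.Green
import Pool.Agent.Lib.MP_f3090c_an.R.Glue

/-! A19e: a point is separated from its mirror image. -/

open Set Filter Topology

namespace CarpetLib

variable {X : Type*} [MetricSpace X] [CompactSpace X]

namespace RForm
variable (R : RForm X)

private theorem AliveR_Q_zero (f g : C(X, ℝ)) : R.Q 0 f g = R.E f g := by
  simp only [Q, LinearMap.zero_apply, add_zero]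

/-- A19e: a point is separated from its mirror image -/
theorem alive {σ : C(X, X)} (hσ : ∀ x, σ (σ x) = x) (hI : R.Inv σ) {O : Set X} (hO : IsOpen O)
    (hd : ∀ x ∈ O, σ x ∉ O) (hfr : ∀ x ∈ frontier O, σ x = x) {V : Set X}
    (hV : ∃ z ∈ V, σ z ∈ V) {C : Set X} (hC : IsPreconnected C) (hCO : C ⊆ O) {p e : X}
    (hp : p ∈ C) (he : e ∈ C) (heV : e ∈ V) : ¬ R.Insep V p (σ p) := by
  rintro ⟨u, ⟨hud, huV⟩, hu⟩
  -- step 1
  have hanti : ∀ x, u x + u (σ x) = 0 := by
    obtain ⟨z, hzV, hσz⟩ := hV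
    have hwd : u + u.comp σ ∈ R.dom := R.dom.add_mem hud (hI.1 u hud)
    have h1 : ∀ f ∈ R.dom, R.E (u.comp σ) f = f (σ p) - f p := by
      intro f hf
      have h2 := hI.2 u hud (f.comp σ) (hI.1 f hf)
      have h3 : (f.comp σ).comp σ = f := by
        ext x
        simp only [ContinuousMap.comp_apply, hσ]
      rw [h3, hu _ (hI.1 f hf)] at h2
      rw [h2]
      simp only [ContinuousMap.comp_apply, hσ]
    have h4 : R.E (u + u.comp σ) (u + u.comp σ) = 0 := by
      have h6 : ∀ w, w ∈ R.dom → R.E (u + u.comp σ) w = 0 := by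
        intro w hw
        rw [map_add, LinearMap.add_apply, hu w hw, h1 w hw]
        ring
      exact h6 _ hwd
    intro x
    have h5 := R.const_of_zero _ hwd h4 x z
    simp only [ContinuousMap.add_apply, ContinuousMap.comp_apply] at h5
    rw [h5, huV z hzV, huV _ hσz, add_zero]
  -- step 2
  set Z : Set X := {x | σ x = x} with hZdef
  have hZcl : IsClosed Z := isClosed_eq σ.continuous continuous_id
  have hpO : p ∈ O := hCO hp
  have hZne : Z.Nonempty := by
    have hpre := R.preconnected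
    by_contra hne
    have hfe : frontier O = ∅ := by
      rw [Set.eq_empty_iff_forall_notMem]
      intro x hx
      exact hne ⟨x, hfr x hx⟩
    have hclop : IsClopen O := isClopen_iff_frontier_eq_empty.2 hfe
    have hps : PreconnectedSpace X := preconnectedSpace_iff_univ.2 hpre
    rcases (preconnectedSpace_iff_clopen.1 hps) O hclop with h | h
    · rw [h] at hpO; exact hpO
    · exact hd p hpO (h ▸ Set.mem_univ _)
  have hOZ : ∀ x ∈ O, x ∉ Z := by
    intro x hx hxZ
    have h1 : σ x = x := hxZ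
    exact hd x hx (h1.symm ▸ hx)
  have hgood : Good (0 : C(X, ℝ) →ₗ[ℝ] ℝ) Z :=
    ⟨fun f _ => le_refl _, hZcl, Or.inr hZne⟩
  obtain ⟨g, hg⟩ := R.exists_green hgood
  have huZ : u ∈ R.domZ Z := by
    refine ⟨hud, fun z hz => ?_⟩
    have h1 := hanti z
    have h2 : σ z = z := hz
    rw [h2] at h1
    linarith
  have hueq : u = g p - g (σ p) := by
    refine R.riesz_unique hgood huZ ((R.domZ Z).sub_mem (hg p).1 (hg (σ p)).1) ?_
    intro f hf
    have h1 := (hg p).2 f hf
    have h2 := (hg (σ p)).2 f hf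
    rw [AliveR_Q_zero] at h1 h2 ⊢
    rw [AliveR_Q_zero, hu f hf.1, map_sub, LinearMap.sub_apply, h1, h2]
  -- step 4
  obtain ⟨F, hF1, hF0⟩ := exists_cut hO (g (σ p)) (fun x hx => (hg (σ p)).1.2 x (hfr x hx))
  obtain ⟨hFd, hFE⟩ := R.glue hO (hg (σ p)).1.1 (fun x hx => (hg (σ p)).1.2 x (hfr x hx)) hF1 hF0
  have hFZ : F ∈ R.domZ Z := ⟨hFd, fun z hz => hF0 z (fun hzO => hOZ z hzO hz)⟩
  have h6 : R.E F F = 0 := by
    have h7 := (hg (σ p)).2 F hFZ
    rw [AliveR_Q_zero, hF0 _ (hd p hpO), R.symm] at h7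
    rw [map_sub, h7] at hFE
    linarith
  obtain ⟨z0, hz0⟩ := hZne
  have heO : e ∈ O := hCO he
  have h8 : g (σ p) e = 0 := by
    rw [← hF1 e heO, R.const_of_zero F hFd h6 e z0, hFZ.2 z0 hz0]
  have h9 : 0 < g p e := R.green_pos hgood hg hC
    (Set.disjoint_left.2 fun x hx hxZ => hOZ x (hCO hx) hxZ) he hp
  have h10 := huV e heV
  rw [hueq, ContinuousMap.sub_apply, h8, sub_zero] at h10
  linarith

end RForm

end CarpetLib
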