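import Pool.Agent.Lib.MP_f3090c_an.R.DetDefs

/-! planar data for the mirror lemma. -/

open Set Filter Topology

namespace CarpetLib

/-- Planar data for the mirror lemma: a closed set `m` linearly ordered by `θ`, and three points
`e1, e2, b4` with the crossing properties `P1, P2` and the connectors `P3`. -/
structure MirrorData (X : Type*) [TopologicalSpace X] where
  m : Set X
  closed : IsClosed m
  nonempty : m.Nonempty
  θ : X → ℝ
  inj : InjOn θ m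
  e1 : X
  e2 : X
  b4 : X
  P1 : ∀ b1 ∈ m, ∀ b2 ∈ m, ∀ b3 ∈ m, θ b1 < θ b2 → θ b2 < θ b3 →
    ∀ C C' : Set X, IsCompact C → IsPreconnected C → IsCompact C' → IsPreconnected C' →
      b1 ∈ C → b3 ∈ C → b2 ∈ C' → b4 ∈ C' → (C ∩ C').Nonempty
  P2 : ∀ a ∈ m, ∀ b ∈ m, θ a < θ b → NoCross a b e1 e2
  P3 : ∀ a ∈ m, ∀ b ∈ m, θ a < θ b → ∃ C1 C2 : Set X, IsCompact C1 ∧ IsPreconnected C1 ∧
    IsCompact C2 ∧ IsPreconnected C2 ∧ Disjoint C1 C2 ∧ a ∈ C1 ∧ e1 ∈ C1 ∧ b ∈ C2 ∧ e2 ∈ C2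

end CarpetLib
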