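import Pool.Agent.Lib.MP_f3090c_an.R.Defs

/-! harmonic functions, inseparable pairs. -/

open Set Filter Topology

namespace CarpetLib

variable {X : Type*} [TopologicalSpace X] [CompactSpace X]

namespace RForm
variable (R : RForm X)

/-- functions harmonic off `V` -/
def harm (V : Set X) : Submodule ℝ C(X, ℝ) where
  carrier := {h | h ∈ R.dom ∧ ∀ f ∈ R.domZ V, R.E h f = 0}
  add_mem' := by
    rintro f g ⟨hf, hf0⟩ ⟨hg, hg0⟩
    exact ⟨R.dom.add_mem hf hg, fun z hz => by simp [hf0 z hz, hg0 z hz]⟩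
  zero_mem' := ⟨R.dom.zero_mem, fun _ _ => by simp⟩
  smul_mem' := by
    rintro c f ⟨hf, hf0⟩
    exact ⟨R.dom.smul_mem c hf, fun z hz => by simp [hf0 z hz]⟩

/-- `x` and `x'` are not separated by functions harmonic off `V`: the Dirichlet potential of
`δ_x - δ_x'` has no flux through `V`. -/
def Insep (V : Set X) (x x' : X) : Prop :=
  ∃ u ∈ R.domZ V, ∀ f ∈ R.dom, R.E u f = f x - f x'

end RForm

end CarpetLib
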