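import Pool.Agent.Lib.MP_f3090c_an.R.Kap
import Pool.Agent.Lib.MP_f3090c_an.R.Riesz

/-! A08: Dirichlet conditions as limits of point killing. -/

open Set Filter Topology

namespace CarpetLib

variable {X : Type*} [TopologicalSpace X] [CompactSpace X]

private theorem kap_apply (κ : C(X, ℝ) →ₗ[ℝ] ℝ) (z : ℕ → X) (N : ℕ) (f : C(X, ℝ)) :
    kap κ z N f = κ f + (N : ℝ) * ∑ i ∈ Finset.range N, f (z i) := by
  simp only [kap, LinearMap.add_apply, LinearMap.smul_apply, smul_eq_mul,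
    LinearMap.sum_apply, ev_apply]

private theorem kap_mono (κ : C(X, ℝ) →ₗ[ℝ] ℝ) (z : ℕ → X) {N M : ℕ} (h : N ≤ M)
    {f : C(X, ℝ)} (hf : ∀ x, 0 ≤ f x) : kap κ z N f ≤ kap κ z M f := by
  rw [kap_apply, kap_apply]
  have h1 : ∑ i ∈ Finset.range N, f (z i) ≤ ∑ i ∈ Finset.range M, f (z i) :=
    Finset.sum_le_sum_of_subset_of_nonneg (Finset.range_mono h) fun i _ _ => hf _
  have h2 : (N : ℝ) ≤ M := by exact_mod_cast h
  have h3 : 0 ≤ ∑ i ∈ Finset.range N, f (z i) := Finset.sum_nonneg fun i _ => hf _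
  have h4 : (0 : ℝ) ≤ N := Nat.cast_nonneg _
  have := mul_le_mul h2 h1 h3 (h4.trans h2)
  linarith

namespace RForm
variable (R : RForm X) {κ : C(X, ℝ) →ₗ[ℝ] ℝ}

private theorem Q_cs (hκ : Pos κ) (f g : C(X, ℝ)) :
    (R.Q κ f g) ^ 2 ≤ R.Q κ f f * R.Q κ g g := by
  have h : ∀ t : ℝ, 0 ≤ R.Q κ g g * (t * t) + 2 * R.Q κ f g * t + R.Q κ f f := by
    intro t
    have := R.Q_nonneg hκ (f + t • g)
    rw [Q_add_left, Q_add_right, Q_add_right, Q_smul_left, Q_smul_left, Q_smul_right,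
      Q_smul_right, R.Q_symm κ g f] at this
    linarith
  have := discrim_le_zero h
  unfold discrim at this
  nlinarith

private theorem Q_kap_mono (z : ℕ → X) {N M : ℕ} (h : N ≤ M) (f : C(X, ℝ)) :
    R.Q (kap κ z N) f f ≤ R.Q (kap κ z M) f f := by
  unfold Q
  have := kap_mono κ z h (f := f * f) (fun x => mul_self_nonneg (f x))
  linarith

private theorem Q_kap_zero (z : ℕ → X) (f g : C(X, ℝ)) :
    R.Q (kap κ z 0) f g = R.Q κ f g := by
  unfold Q
  rw [kap_apply]
  simp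

/-- Solutions `v N` of the problems with killing `kap κ z N` converge to the solution `w` with
Dirichlet condition on `Z = closure (range z)`. -/
theorem approx (hκ : Pos κ) (z : ℕ → X) {Z : Set X} (hZ : Z = closure (range z))
    (ℓ : C(X, ℝ) →ₗ[ℝ] ℝ) (hℓ : ∃ C : ℝ, ∀ f, |ℓ f| ≤ C * ‖f‖) (v : ℕ → C(X, ℝ))
    (hv : ∀ N, 1 ≤ N → v N ∈ R.dom ∧ ∀ f ∈ R.dom, R.Q (kap κ z N) (v N) f = ℓ f)
    {w : C(X, ℝ)} (hw : w ∈ R.domZ Z) (hw' : ∀ f ∈ R.domZ Z, R.Q κ w f = ℓ f) :
    Tendsto (fun N => R.E (v N - w) (v N - w)) atTop (𝓝 0) ∧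
      ∀ x, Tendsto (fun N => v N x) atTop (𝓝 (w x)) := by
  -- the values `ℓ (v N)`
  have ha : ∀ N, 1 ≤ N → ℓ (v N) = R.Q (kap κ z N) (v N) (v N) := fun N hN =>
    ((hv N hN).2 _ (hv N hN).1).symm
  have ha0 : ∀ N, 1 ≤ N → 0 ≤ ℓ (v N) := fun N hN => by
    rw [ha N hN]
    exact R.Q_nonneg (kap_pos hκ z N) _
  have hdiff : ∀ N M, 1 ≤ N → N ≤ M →
      R.Q (kap κ z N) (v N - v M) (v N - v M) ≤ ℓ (v N) - ℓ (v M) := by
    intro N M hN hNM
    have hM := hN.trans hNM
    have e : R.Q (kap κ z N) (v N - v M) (v N - v M) =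
        ℓ (v N) - 2 * ℓ (v M) + R.Q (kap κ z N) (v M) (v M) := by
      rw [Q_sub_left, Q_sub_right, Q_sub_right, R.Q_symm (kap κ z N) (v M) (v N),
        (hv N hN).2 _ (hv N hN).1, (hv N hN).2 _ (hv M hM).1]
      ring
    have h1 := R.Q_kap_mono (κ := κ) z hNM (v M)
    rw [← ha M hM] at h1
    rw [e]
    linarith
  set u : ℕ → C(X, ℝ) := fun n => v (n + 1) with hu
  set b : ℕ → ℝ := fun n => ℓ (u n) with hb
  have hQ1 : ∀ n m, n ≤ m → R.Q (kap κ z 1) (u n - u m) (u n - u m) ≤ b n - b m := by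
    intro n m hnm
    refine (R.Q_kap_mono (κ := κ) z (Nat.le_add_left 1 n) _).trans ?_
    exact hdiff (n + 1) (m + 1) (by omega) (by omega)
  have hbanti : Antitone b := by
    intro n m hnm
    have h1 := hQ1 n m hnm
    have h2 := R.Q_nonneg (kap_pos hκ z 1) (u n - u m)
    linarith
  have hbconv : ∃ L, Tendsto b atTop (𝓝 L) := by
    refine ⟨_, tendsto_atTop_ciInf hbanti ⟨0, ?_⟩⟩
    rintro _ ⟨n, rfl⟩
    exact ha0 (n + 1) (by omega)
  obtain ⟨L, hL⟩ := hbconv
  have hsym : ∀ f g : C(X, ℝ), R.Q (kap κ z 1) (f - g) (f - g) =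
      R.Q (kap κ z 1) (g - f) (g - f) := by
    intro f g
    simp only [Q_sub_left, Q_sub_right]
    ring
  have hcau : ∀ ε > 0, ∃ N, ∀ m ≥ N, ∀ n ≥ N,
      R.Q (kap κ z 1) (u m - u n) (u m - u n) < ε := by
    intro ε hε
    obtain ⟨N, hN⟩ := Metric.cauchySeq_iff.1 hL.cauchySeq ε hε
    refine ⟨N, fun m hm n hn => ?_⟩
    have h1 := hN m hm n hn
    rw [Real.dist_eq] at h1
    rcases le_total m n with h | h
    · exact (hQ1 m n h).trans_lt ((le_abs_self _).trans_lt h1)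
    · rw [hsym]
      refine (hQ1 n m h).trans_lt ((le_abs_self _).trans_lt ?_)
      rwa [abs_sub_comm]
  have hgood1 : Good (kap κ z 1) (∅ : Set X) :=
    ⟨kap_pos hκ z 1, isClosed_empty, Or.inl (kap_one_pos hκ z le_rfl)⟩
  have hudom : ∀ n, u n ∈ R.domZ (∅ : Set X) := fun n =>
    ⟨(hv (n + 1) (by omega)).1, fun z hz => absurd hz (Set.notMem_empty z)⟩
  obtain ⟨v', hv'd, hv'⟩ := R.Q_complete hgood1 u hudom hcau
  obtain ⟨C, hC0, hC⟩ := R.coercive hgood1
  -- pointwise convergence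
  have hpt : ∀ x, Tendsto (fun n => u n x) atTop (𝓝 (v' x)) := by
    intro x
    have h1 : ∀ n, (u n x - v' x) ^ 2 ≤ C * R.Q (kap κ z 1) (u n - v') (u n - v') := by
      intro n
      exact hC _ ((R.domZ ∅).sub_mem (hudom n) hv'd) x
    have h2 : Tendsto (fun n => (u n x - v' x) ^ 2) atTop (𝓝 0) := by
      refine squeeze_zero (fun n => sq_nonneg _) h1 ?_
      simpa using hv'.const_mul C
    have h3 : Tendsto (fun n => |u n x - v' x|) atTop (𝓝 0) := by
      have h4 := (Real.continuous_sqrt.tendsto 0).comp h2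
      simp only [Real.sqrt_zero] at h4
      refine h4.congr fun n => ?_
      simp only [Function.comp_apply]
      exact Real.sqrt_sq_eq_abs _
    rw [tendsto_iff_norm_sub_tendsto_zero]
    exact h3
  -- `v'` vanishes on `Z`
  have hz0 : ∀ i, v' (z i) = 0 := by
    intro i
    have h1 : ∀ n, i ≤ n → (u n (z i)) ^ 2 ≤ b 0 / ((n : ℝ) + 1) := by
      intro n hn
      have h2 : b n ≤ b 0 := hbanti (Nat.zero_le n)
      have h3 : b n = R.Q (kap κ z (n + 1)) (u n) (u n) := ha (n + 1) (by omega)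
      have h4 : ((n : ℝ) + 1) * (u n (z i)) ^ 2 ≤ R.Q (kap κ z (n + 1)) (u n) (u n) := by
        unfold Q
        rw [kap_apply]
        have h5 := R.nonneg (u n)
        have h6 := hκ (u n * u n) (fun x => mul_self_nonneg (u n x))
        have h7 : (u n (z i)) ^ 2 ≤ ∑ j ∈ Finset.range (n + 1), (u n * u n) (z j) := by
          have := Finset.single_le_sum (f := fun j => (u n * u n) (z j))
            (s := Finset.range (n + 1)) (fun j _ => mul_self_nonneg (u n (z j)))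
            (Finset.mem_range.2 (Nat.lt_succ_of_le hn))
          refine le_trans (le_of_eq ?_) this
          simp only [ContinuousMap.mul_apply]
          ring
        have h8 : (0 : ℝ) ≤ (n : ℝ) + 1 := by positivity
        have h9 := mul_le_mul_of_nonneg_left h7 h8
        rw [Nat.cast_add_one]
        linarith
      rw [le_div_iff₀ (by positivity)]
      rw [← h3] at h4
      nlinarith
    have h10 : Tendsto (fun n : ℕ => b 0 / ((n : ℝ) + 1)) atTop (𝓝 0) := by
      have := (tendsto_const_div_atTop_nhds_zero_nat (b 0)).comp (tendsto_add_atTop_nat 1)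
      refine this.congr fun n => ?_
      simp only [Function.comp_apply, Nat.cast_add_one]
    have h11 : Tendsto (fun n => (u n (z i)) ^ 2) atTop (𝓝 0) := by
      refine squeeze_zero' (Eventually.of_forall fun n => sq_nonneg _) ?_ h10
      filter_upwards [eventually_ge_atTop i] with n hn
      exact h1 n hn
    have h12 : Tendsto (fun n => (u n (z i)) ^ 2) atTop (𝓝 ((v' (z i)) ^ 2)) :=
      (hpt (z i)).pow 2
    have := tendsto_nhds_unique h12 h11
    exact pow_eq_zero_iff (two_ne_zero) |>.1 this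
  have hvZ : ∀ x ∈ Z, v' x = 0 := by
    intro x hx
    rw [hZ] at hx
    have hcl : IsClosed {x | v' x = 0} := isClosed_eq v'.continuous continuous_const
    exact closure_minimal (by rintro _ ⟨i, rfl⟩; exact hz0 i) hcl hx
  have hv'Z : v' ∈ R.domZ Z := ⟨hv'd.1, hvZ⟩
  -- the equation for `v'`
  have hQκ : ∀ f, R.Q κ f f ≤ R.Q (kap κ z 1) f f := by
    intro f
    rw [← R.Q_kap_zero z f f]
    exact R.Q_kap_mono z (Nat.zero_le 1) f
  have hQ0 : Tendsto (fun n => R.Q κ (u n - v') (u n - v')) atTop (𝓝 0) :=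
    squeeze_zero (fun n => R.Q_nonneg hκ _) (fun n => hQκ _) hv'
  have heq : ∀ f ∈ R.domZ Z, R.Q κ v' f = ℓ f := by
    intro f hf
    have h1 : ∀ n, R.Q κ (u n) f = ℓ f := by
      intro n
      have h2 := (hv (n + 1) (by omega)).2 f hf.1
      rw [← h2]
      unfold Q
      rw [kap_apply]
      have h3 : ∑ i ∈ Finset.range (n + 1), (v (n + 1) * f) (z i) = 0 := by
        refine Finset.sum_eq_zero fun i _ => ?_
        rw [ContinuousMap.mul_apply, hf.2 (z i) (hZ ▸ subset_closure ⟨i, rfl⟩), mul_zero]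
      rw [h3, mul_zero, add_zero]
    have h2 : ∀ n, (R.Q κ v' f - ℓ f) ^ 2 ≤
        R.Q κ (u n - v') (u n - v') * R.Q κ f f := by
      intro n
      have h3 := R.Q_cs hκ (u n - v') f
      rw [Q_sub_left, h1 n] at h3
      linarith [sq_nonneg (R.Q κ v' f - ℓ f),
        (by ring : (R.Q κ v' f - ℓ f) ^ 2 = (ℓ f - R.Q κ v' f) ^ 2)]
    have h3 : Tendsto (fun n => R.Q κ (u n - v') (u n - v') * R.Q κ f f) atTop (𝓝 0) := by
      simpa using hQ0.mul_const (R.Q κ f f)
    have h4 : (R.Q κ v' f - ℓ f) ^ 2 ≤ 0 := ge_of_tendsto' h3 h2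
    have h5 : R.Q κ v' f - ℓ f = 0 :=
      pow_eq_zero_iff (two_ne_zero) |>.1 (le_antisymm h4 (sq_nonneg _))
    linarith
  have hgood : Good κ Z := ⟨hκ, hZ ▸ isClosed_closure, Or.inr (by
    rw [hZ]
    exact ⟨z 0, subset_closure ⟨0, rfl⟩⟩)⟩
  have hvw : v' = w := R.riesz_unique hgood hv'Z hw fun f hf => by
    rw [heq f hf, hw' f hf]
  subst hvw
  refine ⟨?_, fun x => ?_⟩
  · rw [← tendsto_add_atTop_iff_nat 1]
    refine squeeze_zero (fun n => R.nonneg _) (fun n => ?_) hQ0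
    show R.E (u n - v') (u n - v') ≤ R.Q κ (u n - v') (u n - v')
    unfold Q
    have := hκ ((u n - v') * (u n - v')) (fun x => mul_self_nonneg ((u n - v') x))
    linarith
  · rw [← tendsto_add_atTop_iff_nat 1]
    exact hpt x

/-- consequently mutual energies converge -/
theorem tendsto_E {v : ℕ → C(X, ℝ)} {w : C(X, ℝ)}
    (h : Tendsto (fun N => R.E (v N - w) (v N - w)) atTop (𝓝 0)) (f : C(X, ℝ)) :
    Tendsto (fun N => R.E (v N) f) atTop (𝓝 (R.E w f)) := by
  rw [tendsto_iff_norm_sub_tendsto_zero]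
  have h1 : Tendsto (fun N => Real.sqrt (R.E (v N - w) (v N - w) * R.E f f)) atTop (𝓝 0) := by
    have h2 : Tendsto (fun N => R.E (v N - w) (v N - w) * R.E f f) atTop (𝓝 0) := by
      simpa using h.mul_const (R.E f f)
    have h3 := (Real.continuous_sqrt.tendsto 0).comp h2
    rw [Real.sqrt_zero] at h3
    exact h3
  refine squeeze_zero (fun N => norm_nonneg _) (fun N => ?_) h1
  have h4 : R.E (v N) f - R.E w f = R.E (v N - w) f := by
    rw [map_sub, LinearMap.sub_apply]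
  rw [h4, Real.norm_eq_abs]
  exact Real.abs_le_sqrt (R.cs _ _)

end RForm

end CarpetLib
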