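import Mathlib

/-! A13: finite sequences with a (+,-,+) sign pattern against powers. -/

namespace CarpetLib

private theorem convexSeq_aux (x y : ℝ) (hx0 : 0 ≤ x) (hx1 : x ≤ 1) (hy0 : 0 ≤ y) (hy1 : y ≤ 1)
    (n : ℕ) : ∃ a b : ℝ, 0 ≤ a ∧ a ≤ n + 1 ∧ 0 ≤ b ∧ b ≤ n + 1 ∧ a = x ^ n + y * b ∧
      a = y ^ n + x * b ∧ ∀ t : ℝ, 0 ≤ t → ∃ h : ℝ, 0 ≤ h ∧
        t ^ (n + 1) - a * t + x * y * b = (t - x) * (t - y) * h := by
  induction n with
  | zero =>
    refine ⟨1, 0, by norm_num, by norm_num, by norm_num, by norm_num, by norm_num, by norm_num,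
      fun t _ => ⟨0, le_refl _, by ring⟩⟩
  | succ n ih =>
    obtain ⟨a, b, ha0, ha1, hb0, hb1, h1, h2, h3⟩ := ih
    have hyn : y ^ (n + 1) ≤ 1 := pow_le_one₀ hy0 hy1
    have hyn0 : 0 ≤ y ^ (n + 1) := pow_nonneg hy0 _
    have hxa : x * a ≤ 1 * a := mul_le_mul_of_nonneg_right hx1 ha0
    refine ⟨y ^ (n + 1) + x * a, a, by positivity, ?_, ha0, ?_, ?_, rfl, fun t ht => ?_⟩
    · push_cast
      linarith
    · push_cast
      linarith
    · have e1 : y ^ (n + 1) = y * (a - x * b) := by rw [h2]; ring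
      have e2 : x ^ (n + 1) = x * (a - y * b) := by rw [h1]; ring
      rw [e1, e2]
      ring
    · obtain ⟨h, hh, hE⟩ := h3 t ht
      refine ⟨t * h + a, by positivity, ?_⟩
      have e1 : y ^ (n + 1) = y * (a - x * b) := by rw [h2]; ring
      have e3 : t ^ (n + 1 + 1) = t * (a * t - x * y * b + (t - x) * (t - y) * h) := by
        rw [← hE]; ring
      rw [e1, e3]
      ring

theorem convex_seq (k : ℕ) (hk : 1 ≤ k) {ι : Type*} (s : Finset ι) (t τ : ι → ℝ)
    (ht : ∀ i ∈ s, 0 ≤ t i ∧ t i ≤ 1)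
    (hpat : ∀ i ∈ s, ∀ j ∈ s, ∀ l ∈ s, t j < t i → t l < t j → τ i < 0 → τ l < 0 → τ j ≤ 0) :
    ∃ α β : ℝ, |α| ≤ k ∧ |β| ≤ k ∧ 0 ≤ ∑ i ∈ s, τ i * ((t i) ^ k - α * t i - β) := by
  classical
  obtain ⟨n, rfl⟩ : ∃ n, k = n + 1 := ⟨k - 1, by omega⟩
  rcases (s.filter fun i => τ i < 0).eq_empty_or_nonempty with hN | hN
  · refine ⟨0, 0, by simp; positivity, by simp; positivity, Finset.sum_nonneg fun i hi => ?_⟩
    have h1 : 0 ≤ τ i := by
      by_contra h
      have : i ∈ s.filter fun i => τ i < 0 := Finset.mem_filter.2 ⟨hi, not_le.1 h⟩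
      rw [hN] at this
      simp at this
    have h2 : 0 ≤ (t i) ^ (n + 1) := pow_nonneg (ht i hi).1 _
    simpa using mul_nonneg h1 h2
  · obtain ⟨i1, hi1, hmax⟩ := Finset.exists_max_image _ t hN
    obtain ⟨i2, hi2, hmin⟩ := Finset.exists_min_image _ t hN
    rw [Finset.mem_filter] at hi1 hi2
    obtain ⟨a, b, ha0, ha1, hb0, hb1, -, -, h3⟩ := convexSeq_aux (t i1) (t i2) (ht _ hi1.1).1
      (ht _ hi1.1).2 (ht _ hi2.1).1 (ht _ hi2.1).2 n
    have h12 : t i2 ≤ t i1 := hmin i1 (Finset.mem_filter.2 hi1)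
    have hxy0 : 0 ≤ t i1 * t i2 := mul_nonneg (ht _ hi1.1).1 (ht _ hi2.1).1
    have hxy1 : t i1 * t i2 ≤ 1 := mul_le_one₀ (ht _ hi1.1).2 (ht _ hi2.1).1 (ht _ hi2.1).2
    refine ⟨a, -(t i1 * t i2 * b), ?_, ?_, Finset.sum_nonneg fun i hi => ?_⟩
    · rw [abs_of_nonneg ha0]
      push_cast
      linarith
    · rw [abs_neg, abs_of_nonneg (mul_nonneg hxy0 hb0)]
      push_cast
      nlinarith
    · obtain ⟨h, hh, hE⟩ := h3 (t i) (ht i hi).1
      have hE' : (t i) ^ (n + 1) - a * t i - -(t i1 * t i2 * b) =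
          (t i - t i1) * (t i - t i2) * h := by rw [← hE]; ring
      rw [hE']
      rcases lt_trichotomy (τ i) 0 with hneg | hz | hpos
      · have hm : i ∈ s.filter fun i => τ i < 0 := Finset.mem_filter.2 ⟨hi, hneg⟩
        have h4 := hmax i hm
        have h5 := hmin i hm
        have h6 : (t i - t i1) * (t i - t i2) ≤ 0 :=
          mul_nonpos_of_nonpos_of_nonneg (by linarith) (by linarith)
        exact mul_nonneg_of_nonpos_of_nonpos hneg.le (mul_nonpos_of_nonpos_of_nonneg h6 hh)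
      · rw [hz, zero_mul]
      · have h6 : 0 ≤ (t i - t i1) * (t i - t i2) := by
          by_cases hA : t i1 ≤ t i
          · exact mul_nonneg (by linarith) (by linarith)
          · by_cases hB : t i ≤ t i2
            · exact mul_nonneg_of_nonpos_of_nonpos (by linarith) (by linarith)
            · have := hpat i1 hi1.1 i hi i2 hi2.1 (not_le.1 hA) (not_le.1 hB) hi1.2 hi2.2
              linarith
        exact mul_nonneg hpos.le (mul_nonneg h6 hh)

end CarpetLib
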