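import Pool.Agent.Lib.MP_f3090c_an.R.MirrorDefs
import Pool.Agent.Lib.MP_f3090c_an.R.HarmMeas
import Pool.Agent.Lib.MP_f3090c_an.R.ConvexSeq
import Pool.Agent.Lib.MP_f3090c_an.R.Approx
import Pool.Agent.Lib.MP_f3090c_an.R.Nodal
import Pool.Agent.Lib.MP_f3090c_an.R.Green

/-! A14c. -/

open Set Filter Topology

namespace CarpetLib

variable {X : Type*} [MetricSpace X] [CompactSpace X]

namespace RForm
variable (R : RForm X) (M : MirrorData X)

private theorem fluxPow_zeroQ (f g : C(X, ℝ)) : R.Q 0 f g = R.E f g := by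
  simp [Q]

omit [CompactSpace X] in
private theorem fluxPow_posZero : Pos (0 : C(X, ℝ) →ₗ[ℝ] ℝ) := fun f _ => by simp

/-- the crossing contradiction -/
private theorem fluxPow_cross {κ : C(X, ℝ) →ₗ[ℝ] ℝ} (hκ : Pos κ) (h1 : 0 < κ 1) {v : C(X, ℝ)}
    (hv : v ∈ R.dom) {a b : ℝ} (ha : 0 < a) (hb : 0 < b) {p p' : X}
    (hs : ∀ f ∈ R.dom, R.Q κ v f = a * f p - b * f p') (hb4 : 0 < v M.b4) {z1 z2 z3 : X}
    (hz1 : z1 ∈ M.m) (hz2 : z2 ∈ M.m) (hz3 : z3 ∈ M.m) (h12 : M.θ z1 < M.θ z2)
    (h23 : M.θ z2 < M.θ z3) (hv1 : v z1 < 0) (hv2 : 0 < v z2) (hv3 : v z3 < 0) : False := by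
  have e1 : ∀ f ∈ R.dom, R.Q κ v f =
      ∑ i : Bool, (bif i then a else -b) * f (bif i then p else p') := by
    intro f hf
    rw [hs f hf]
    simp only [Fintype.sum_bool, cond_true, cond_false]
    ring
  have e2 : ∀ f ∈ R.dom, R.Q κ (-v) f =
      ∑ i : Bool, (bif i then b else -a) * f (bif i then p' else p) := by
    intro f hf
    have h3 : R.Q κ (-v) f = - R.Q κ v f := by
      have := R.Q_smul_left κ (-1) v f
      simpa using this
    rw [h3, hs f hf]
    simp only [Fintype.sum_bool, cond_true, cond_false]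
    ring
  have pos : ∀ y, 0 < v y → Joined' {x | 0 < v x} y p := by
    intro y hy
    obtain ⟨i, hi, hJ⟩ := R.nodal hκ h1 hv _ _ e1 hy
    cases i
    · simp only [cond_false] at hi
      linarith
    · simpa only [cond_true] using hJ
  have neg : ∀ y, v y < 0 → Joined' {x | 0 < (-v) x} y p' := by
    intro y hy
    obtain ⟨i, hi, hJ⟩ := R.nodal hκ h1 (R.dom.neg_mem hv) _ _ e2 (y := y) (by
      rw [ContinuousMap.neg_apply]; linarith)
    cases i
    · simp only [cond_false] at hi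
      linarith
    · simpa only [cond_true] using hJ
  obtain ⟨C1, c1, p1, s1, a1, b1⟩ := neg z1 hv1
  obtain ⟨C3, c3, p3, s3, a3, b3⟩ := neg z3 hv3
  obtain ⟨C2, c2, p2, s2, a2, b2⟩ := pos z2 hv2
  obtain ⟨C4, c4, p4, s4, a4, b4⟩ := pos M.b4 hb4
  obtain ⟨y, hy1, hy2⟩ := M.P1 z1 hz1 z2 hz2 z3 hz3 h12 h23 (C1 ∪ C3) (C2 ∪ C4)
    (c1.union c3) (IsPreconnected.union p' b1 b3 p1 p3)
    (c2.union c4) (IsPreconnected.union p b2 b4 p2 p4)
    (Or.inl a1) (Or.inr a3) (Or.inl a2) (Or.inr a4)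
  have k1 : v y < 0 := by
    have : 0 < (-v) y := hy1.elim (fun h => s1 h) (fun h => s3 h)
    rw [ContinuousMap.neg_apply] at this
    linarith
  have k2 : 0 < v y := hy2.elim (fun h => s2 h) (fun h => s4 h)
  linarith

omit [CompactSpace X] in
private theorem fluxPow_order {h : C(X, ℝ)}
    (hmono : ∀ a ∈ M.m, ∀ b ∈ M.m, M.θ a < M.θ b → h b < h a) {a b : X} (ha : a ∈ M.m)
    (hb : b ∈ M.m) (hab : h b < h a) : M.θ a < M.θ b := by
  rcases lt_trichotomy (M.θ a) (M.θ b) with h1 | h1 | h1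
  · exact h1
  · have := M.inj ha hb h1
    rw [this] at hab
    exact absurd hab (lt_irrefl _)
  · have := hmono b hb a ha h1
    linarith

/-- a sequence with closure `m` -/
private theorem fluxPow_seq {m : Set X} (hm : IsClosed m) (hne : m.Nonempty) :
    ∃ z : ℕ → X, (∀ n, z n ∈ m) ∧ m = closure (range z) := by
  have : Nonempty m := hne.to_subtype
  have : CompactSpace m := isCompact_iff_compactSpace.1 hm.isCompact
  refine ⟨fun n => (TopologicalSpace.denseSeq m n : X), fun n => (TopologicalSpace.denseSeq m n).2,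
    ?_⟩
  have h1 : range (fun n => (TopologicalSpace.denseSeq m n : X)) =
      ((↑) : m → X) '' range (TopologicalSpace.denseSeq m) := by
    rw [← range_comp]; rfl
  rw [h1, (hm.isClosedEmbedding_subtypeVal).closure_image_eq,
    (TopologicalSpace.denseRange_denseSeq m).closure_range, image_univ, Subtype.range_coe]

private theorem fluxPow_solve {κ : C(X, ℝ) →ₗ[ℝ] ℝ} (hκ : Pos κ) (h1 : 0 < κ 1) (a b : ℝ)
    (p p' : X) : ∃ v ∈ R.dom, ∀ f ∈ R.dom, R.Q κ v f = a * f p - b * f p' := by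
  have hG : Good κ (∅ : Set X) := ⟨hκ, isClosed_empty, Or.inl h1⟩
  obtain ⟨C, hC, hcoer⟩ := R.coercive hG
  obtain ⟨v, hv, hv'⟩ := R.riesz hG (a • ev p - b • ev p') ⟨(2 * a ^ 2 + 2 * b ^ 2) * C, by
    intro f hf
    have e1 := hcoer f hf p
    have e2 := hcoer f hf p'
    simp only [LinearMap.sub_apply, LinearMap.smul_apply, ev_apply, smul_eq_mul]
    have e3 : (a * f p - b * f p') ^ 2 ≤ 2 * a ^ 2 * (f p) ^ 2 + 2 * b ^ 2 * (f p') ^ 2 := by
      nlinarith [sq_nonneg (a * f p + b * f p')]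
    have e4 : 2 * a ^ 2 * (f p) ^ 2 ≤ 2 * a ^ 2 * (C * R.Q κ f f) :=
      mul_le_mul_of_nonneg_left e1 (by positivity)
    have e5 : 2 * b ^ 2 * (f p') ^ 2 ≤ 2 * b ^ 2 * (C * R.Q κ f f) :=
      mul_le_mul_of_nonneg_left e2 (by positivity)
    nlinarith⟩
  refine ⟨v, hv.1, fun f hf => ?_⟩
  have := hv' f ⟨hf, fun z hz => absurd hz (notMem_empty z)⟩
  rw [this]
  simp

private theorem fluxPow_core {p p' : X} {a b : ℝ} (ha : 0 < a) (hb : 0 < b) {w : C(X, ℝ)}
    (hw : w ∈ R.domZ M.m) (hw' : ∀ f ∈ R.domZ M.m, R.E w f = a * f p - b * f p')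
    (hwb : 0 < w M.b4) {h : C(X, ℝ)} (hh : h ∈ R.dom) (h01 : ∀ x, 0 ≤ h x ∧ h x ≤ 1)
    (hmono : ∀ a ∈ M.m, ∀ b ∈ M.m, M.θ a < M.θ b → h b < h a) (k : ℕ) (hk : 1 ≤ k) :
    -(k * |a * h p - b * h p' - R.E w h|) - k * |a - b| ≤
      a * (h ^ k) p - b * (h ^ k) p' - R.E w (h ^ k) := by
  obtain ⟨z, hz, hzc⟩ := fluxPow_seq M.closed M.nonempty
  have hex : ∀ N : ℕ, ∃ v : C(X, ℝ), 1 ≤ N → v ∈ R.dom ∧
      ∀ f ∈ R.dom, R.Q (kap 0 z N) v f = (a • ev p - b • ev p') f := by
    intro N
    by_cases hN : 1 ≤ N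
    · obtain ⟨v, hv, hv'⟩ := R.fluxPow_solve (kap_pos fluxPow_posZero z N)
        (kap_one_pos fluxPow_posZero z hN) a b p p'
      refine ⟨v, fun _ => ⟨hv, fun f hf => ?_⟩⟩
      rw [hv' f hf]
      simp
    · exact ⟨0, fun h => absurd h hN⟩
  choose v hv using hex
  obtain ⟨hE, hpt⟩ := R.approx fluxPow_posZero z hzc (a • ev p - b • ev p') ⟨|a| + |b|, by
    intro f
    simp only [LinearMap.sub_apply, LinearMap.smul_apply, ev_apply, smul_eq_mul]
    have e1 := f.norm_coe_le_norm p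
    have e2 := f.norm_coe_le_norm p'
    rw [Real.norm_eq_abs] at e1 e2
    calc |a * f p - b * f p'| ≤ |a * f p| + |b * f p'| := abs_sub _ _
      _ = |a| * |f p| + |b| * |f p'| := by rw [abs_mul, abs_mul]
      _ ≤ |a| * ‖f‖ + |b| * ‖f‖ := by gcongr
      _ = (|a| + |b|) * ‖f‖ := by ring⟩ v hv hw (by
    intro f hf
    rw [fluxPow_zeroQ, hw' f hf]
    simp)
  -- the sums
  set S : ℕ → C(X, ℝ) → ℝ := fun N f => ∑ i ∈ Finset.range N, (N * v N (z i)) * f (z i) with hS
  have hSeq : ∀ N, 1 ≤ N → ∀ f ∈ R.dom, S N f = a * f p - b * f p' - R.E (v N) f := by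
    intro N hN f hf
    have e1 := (hv N hN).2 f hf
    simp only [Q, kap, LinearMap.smul_apply, smul_eq_mul,
      LinearMap.sum_apply, ev_apply, LinearMap.sub_apply,
      ContinuousMap.mul_apply, zero_add] at e1
    have e2 : S N f = (N : ℝ) * ∑ i ∈ Finset.range N, v N (z i) * f (z i) := by
      simp only [hS]
      rw [Finset.mul_sum]
      apply Finset.sum_congr rfl
      intro i _
      ring
    rw [e2]
    linarith
  have hSlim : ∀ f ∈ R.dom, Tendsto (fun N => S N f) atTop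
      (𝓝 (a * f p - b * f p' - R.E w f)) := by
    intro f hf
    have e1 : Tendsto (fun N => a * f p - b * f p' - R.E (v N) f) atTop
        (𝓝 (a * f p - b * f p' - R.E w f)) :=
      tendsto_const_nhds.sub (R.tendsto_E hE f)
    refine e1.congr' ?_
    filter_upwards [eventually_ge_atTop 1] with N hN
    exact (hSeq N hN f hf).symm
  have hpow : h ^ k ∈ R.dom := by
    clear hk
    induction k with
    | zero => rw [pow_zero]; exact R.one_mem
    | succ n ih => rw [pow_succ]; exact R.mul_mem ih hh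
  have hone : a * (1 : C(X, ℝ)) p - b * (1 : C(X, ℝ)) p' - R.E w 1 = a - b := by
    rw [R.E_one_right]
    simp
  -- positivity at `b4` for large `N`
  have hev : ∀ᶠ N in atTop, 0 < v N M.b4 := (hpt M.b4).eventually_const_lt hwb
  have hineq : ∀ᶠ N in atTop,
      -(k * |S N h|) - k * |S N 1| ≤ S N (h ^ k) := by
    filter_upwards [hev, eventually_ge_atTop 1] with N hN hN1
    have hNpos : (0 : ℝ) < N := by exact_mod_cast hN1
    obtain ⟨α, β, hα, hβ, hsum⟩ := convex_seq k hk (Finset.range N) (fun i => h (z i))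
      (fun i => (N : ℝ) * v N (z i)) (fun i _ => h01 (z i)) (by
        intro i _ j _ l _ hji hlj hτi hτl
        by_contra hcon
        push Not at hcon
        have g1 : v N (z i) < 0 := by
          by_contra hh1
          push Not at hh1
          have := mul_nonneg hNpos.le hh1
          linarith
        have g2 : v N (z l) < 0 := by
          by_contra hh1
          push Not at hh1
          have := mul_nonneg hNpos.le hh1
          linarith
        have g3 : 0 < v N (z j) := by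
          by_contra hh1
          push Not at hh1
          have := mul_nonpos_of_nonneg_of_nonpos hNpos.le hh1
          linarith
        refine R.fluxPow_cross M (kap_pos fluxPow_posZero z N) (kap_one_pos fluxPow_posZero z hN1)
          (hv N hN1).1 ha hb (p := p) (p' := p') ?_ hN (hz i) (hz j) (hz l)
          (fluxPow_order M hmono (hz i) (hz j) hji) (fluxPow_order M hmono (hz j) (hz l) hlj)
          g1 g3 g2
        intro f hf
        rw [(hv N hN1).2 f hf]
        simp)
    have e1 : ∑ i ∈ Finset.range N, (fun i => (N : ℝ) * v N (z i)) i *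
        ((fun i => h (z i)) i ^ k - α * (fun i => h (z i)) i - β) =
        S N (h ^ k) - α * S N h - β * S N 1 := by
      simp only [hS, ContinuousMap.pow_apply, ContinuousMap.one_apply]
      rw [Finset.mul_sum, Finset.mul_sum, ← Finset.sum_sub_distrib, ← Finset.sum_sub_distrib]
      apply Finset.sum_congr rfl
      intro i _
      ring
    rw [e1] at hsum
    have e2 : -(α * S N h) ≤ k * |S N h| := by
      calc -(α * S N h) ≤ |α * S N h| := neg_le_abs _
        _ = |α| * |S N h| := abs_mul _ _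
        _ ≤ k * |S N h| := by gcongr
    have e2' : -(k * |S N h|) ≤ α * S N h := by linarith
    have e3 : -(β * S N 1) ≤ k * |S N 1| := by
      calc -(β * S N 1) ≤ |β * S N 1| := neg_le_abs _
        _ = |β| * |S N 1| := abs_mul _ _
        _ ≤ k * |S N 1| := by gcongr
    linarith
  have hl1 := hSlim _ hpow
  have hl2 : Tendsto (fun N => -(k * |S N h|) - k * |S N 1|) atTop
      (𝓝 (-(k * |a * h p - b * h p' - R.E w h|) - k * |a - b|)) := by
    have e1 := hSlim h hh
    have e2 := hSlim 1 R.one_mem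
    rw [hone] at e2
    exact ((e1.abs.const_mul (k : ℝ)).neg).sub (e2.abs.const_mul (k : ℝ))
  exact le_of_tendsto_of_tendsto hl2 hl1 hineq

/-- A14c: the flux functional of the Dirichlet potential `u` annihilates the powers of `h`. -/
theorem flux_pow {x x' : X} (hP4 : ∃ C : Set X, IsPreconnected C ∧ Disjoint C M.m ∧ x' ∈ C ∧
    M.b4 ∈ C) {u : C(X, ℝ)} (hu : u ∈ R.domZ M.m) (hub : u M.b4 = 0)
    (hu' : ∀ f ∈ R.domZ M.m, R.E u f = f x - f x')
    {h : C(X, ℝ)} (hh : h ∈ R.dom) (h01 : ∀ x, 0 ≤ h x ∧ h x ≤ 1)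
    (hmono : ∀ a ∈ M.m, ∀ b ∈ M.m, M.θ a < M.θ b → h b < h a)
    (hμh : h x - h x' - R.E u h = 0) (k : ℕ) :
    (h ^ k) x - (h ^ k) x' - R.E u (h ^ k) = 0 := by
  rcases Nat.eq_zero_or_pos k with hk0 | hk
  · subst hk0
    rw [pow_zero, R.E_one_right]
    simp
  have hG : Good (0 : C(X, ℝ) →ₗ[ℝ] ℝ) M.m := ⟨fluxPow_posZero, M.closed, Or.inr M.nonempty⟩
  obtain ⟨g, hg⟩ := R.exists_green hG
  obtain ⟨C, hC, hCm, hxC, hbC⟩ := hP4
  have hγb : 0 < g x' M.b4 := R.green_pos hG hg hC hCm hbC hxC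
  have hγ : g x' ∈ R.domZ M.m := (hg x').1
  have hγ' : ∀ f ∈ R.domZ M.m, R.E (g x') f = f x' := by
    intro f hf
    have := (hg x').2 f hf
    rwa [fluxPow_zeroQ] at this
  have hpow : ∀ k : ℕ, h ^ k ∈ R.dom := by
    intro k
    induction k with
    | zero => rw [pow_zero]; exact R.one_mem
    | succ n ih => rw [pow_succ]; exact R.mul_mem ih hh
  -- bounds for `ω`
  have hω : ∀ f ∈ R.dom, (∀ y, 0 ≤ f y ∧ f y ≤ 1) → 0 ≤ f x' - R.E (g x') f ∧
      f x' - R.E (g x') f ≤ 1 := by
    intro f hf hf01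
    refine ⟨?_, R.harmonic_measure_le M.closed M.nonempty hγ hγ' hf (fun z _ => (hf01 z).2)⟩
    have := R.harmonic_measure_le M.closed M.nonempty hγ hγ' (R.dom.neg_mem hf) (c := 0)
      (fun z _ => by rw [ContinuousMap.neg_apply]; linarith [(hf01 z).1])
    rw [ContinuousMap.neg_apply, map_neg] at this
    linarith
  have hω1 := hω h hh h01
  have hωk := hω (h ^ k) (hpow k) (fun y => by
    rw [ContinuousMap.pow_apply]
    exact ⟨pow_nonneg (h01 y).1 k, pow_le_one₀ (h01 y).1 (h01 y).2⟩)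
  have hkR : (0 : ℝ) ≤ k := Nat.cast_nonneg k
  -- lower bound
  have hlow : ∀ c : ℝ, 0 < c → c < 1 →
      -((2 * k + 1) * (1 - c)) ≤ (h ^ k) x - (h ^ k) x' - R.E u (h ^ k) := by
    intro c hc0 hc1
    have hw : u + (1 - c) • g x' ∈ R.domZ M.m :=
      (R.domZ M.m).add_mem hu ((R.domZ M.m).smul_mem _ hγ)
    have e1 := R.fluxPow_core M (p := x) (p' := x') (a := 1) (b := c) one_pos hc0 hw (by
      intro f hf
      rw [map_add, map_smul, LinearMap.add_apply, LinearMap.smul_apply, hu' f hf, hγ' f hf,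
        smul_eq_mul]
      ring) (by
      rw [ContinuousMap.add_apply, ContinuousMap.smul_apply, hub, smul_eq_mul, zero_add]
      exact mul_pos (by linarith) hγb) hh h01 hmono k hk
    rw [map_add, map_smul, LinearMap.add_apply, LinearMap.smul_apply, LinearMap.add_apply,
      LinearMap.smul_apply, smul_eq_mul, smul_eq_mul] at e1
    have e2 : |1 * h x - c * h x' - (R.E u h + (1 - c) * R.E (g x') h)| ≤ 1 - c := by
      rw [show 1 * h x - c * h x' - (R.E u h + (1 - c) * R.E (g x') h) =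
        (h x - h x' - R.E u h) + (1 - c) * (h x' - R.E (g x') h) by ring, hμh, zero_add,
        abs_of_nonneg (mul_nonneg (by linarith) hω1.1)]
      nlinarith [hω1.2]
    have e3 : |1 - c| = 1 - c := abs_of_pos (by linarith)
    rw [e3] at e1
    have e4 : (k : ℝ) * |1 * h x - c * h x' - (R.E u h + (1 - c) * R.E (g x') h)| ≤
        k * (1 - c) := mul_le_mul_of_nonneg_left e2 hkR
    have e5 : (1 - c) * ((h ^ k) x' - R.E (g x') (h ^ k)) ≤ 1 - c := by
      nlinarith [hωk.2]
    nlinarith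
  have hupp : ∀ c : ℝ, 1 < c →
      (h ^ k) x - (h ^ k) x' - R.E u (h ^ k) ≤ (2 * k + 1) * (c - 1) := by
    intro c hc1
    have hw : -(u + (1 - c) • g x') ∈ R.domZ M.m :=
      (R.domZ M.m).neg_mem ((R.domZ M.m).add_mem hu ((R.domZ M.m).smul_mem _ hγ))
    have e1 := R.fluxPow_core M (p := x') (p' := x) (a := c) (b := 1) (by linarith) one_pos hw (by
      intro f hf
      rw [map_neg, map_add, map_smul, LinearMap.neg_apply, LinearMap.add_apply,
        LinearMap.smul_apply, hu' f hf, hγ' f hf, smul_eq_mul]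
      ring) (by
      rw [ContinuousMap.neg_apply, ContinuousMap.add_apply, ContinuousMap.smul_apply, hub,
        smul_eq_mul, zero_add]
      nlinarith) hh h01 hmono k hk
    rw [map_neg, map_add, map_smul, LinearMap.neg_apply, LinearMap.add_apply,
      LinearMap.smul_apply, LinearMap.neg_apply, LinearMap.add_apply,
      LinearMap.smul_apply, smul_eq_mul, smul_eq_mul] at e1
    have e2 : |c * h x' - 1 * h x - -(R.E u h + (1 - c) * R.E (g x') h)| ≤ c - 1 := by
      rw [show c * h x' - 1 * h x - -(R.E u h + (1 - c) * R.E (g x') h) =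
        -(h x - h x' - R.E u h) + (c - 1) * (h x' - R.E (g x') h) by ring, hμh, neg_zero, zero_add,
        abs_of_nonneg (mul_nonneg (by linarith) hω1.1)]
      nlinarith [hω1.2]
    have e3 : |c - 1| = c - 1 := abs_of_pos (by linarith)
    rw [e3] at e1
    have e4 : (k : ℝ) * |c * h x' - 1 * h x - -(R.E u h + (1 - c) * R.E (g x') h)| ≤
        k * (c - 1) := mul_le_mul_of_nonneg_left e2 hkR
    have e5 : (c - 1) * ((h ^ k) x' - R.E (g x') (h ^ k)) ≤ c - 1 := by
      nlinarith [hωk.2]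
    nlinarith
  apply le_antisymm
  · by_contra hcon
    push Not at hcon
    set μ := (h ^ k) x - (h ^ k) x' - R.E u (h ^ k)
    have hd : (0 : ℝ) < 2 * k + 1 := by positivity
    have := hupp (1 + μ / (2 * (2 * k + 1))) (by
      have : 0 < μ / (2 * (2 * k + 1)) := by positivity
      linarith)
    have e : (2 * (k : ℝ) + 1) * (1 + μ / (2 * (2 * k + 1)) - 1) = μ / 2 := by
      field_simp
      ring
    rw [e] at this
    linarith
  · by_contra hcon
    push Not at hcon
    set μ := (h ^ k) x - (h ^ k) x' - R.E u (h ^ k)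
    have hd : (0 : ℝ) < 2 * k + 1 := by positivity
    set δ := min (1 / 2) (-μ / (2 * (2 * k + 1))) with hδ
    have hδ0 : 0 < δ := lt_min (by norm_num) (div_pos (by linarith) (by positivity))
    have hδ1 : δ ≤ 1 / 2 := min_le_left _ _
    have hδ2 : δ ≤ -μ / (2 * (2 * k + 1)) := min_le_right _ _
    have := hlow (1 - δ) (by linarith) (by linarith)
    have e : (2 * (k : ℝ) + 1) * (1 - (1 - δ)) ≤ -μ / 2 := by
      calc (2 * (k : ℝ) + 1) * (1 - (1 - δ)) = (2 * k + 1) * δ := by ring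
        _ ≤ (2 * k + 1) * (-μ / (2 * (2 * k + 1))) := by gcongr
        _ = -μ / 2 := by field_simp
    linarith

end RForm

end CarpetLib
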