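import Pool.Agent.Lib.MP_f3090c_an.R.StrictMono
import Pool.Agent.Lib.MP_f3090c_an.R.FluxPow

/-! A14d: the mirror reduction lemma. -/

open Set Filter Topology

namespace CarpetLib

variable {X : Type*} [MetricSpace X] [CompactSpace X]

namespace RForm
variable (R : RForm X) (M : MirrorData X)

/-- Dirichlet Green function with pole `y`. -/
private theorem mirror_green (y : X) :
    ∃ γ ∈ R.domZ M.m, ∀ f ∈ R.domZ M.m, R.E γ f = f y := by
  have hgood : Good (0 : C(X, ℝ) →ₗ[ℝ] ℝ) M.m :=
    ⟨fun f _ => by simp, M.closed, Or.inr M.nonempty⟩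
  obtain ⟨C, -, hC⟩ := R.coercive hgood
  obtain ⟨v, hv, hv'⟩ := R.riesz hgood (ev y) ⟨C, fun f hf => hC f hf y⟩
  refine ⟨v, hv, fun f hf => ?_⟩
  have := hv' f hf
  simpa [Q] using this

/-- The harmonic measure bound for the absolute value. -/
private theorem mirror_abs {y : X} {γ : C(X, ℝ)} (hγ : γ ∈ R.domZ M.m)
    (hγ' : ∀ f ∈ R.domZ M.m, R.E γ f = f y) {f : C(X, ℝ)} (hf : f ∈ R.dom) {c : ℝ}
    (hc : ∀ z ∈ M.m, |f z| ≤ c) : |f y - R.E γ f| ≤ c := by
  have h1 := R.harmonic_measure_le M.closed M.nonempty hγ hγ' hf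
    (fun z hz => (abs_le.1 (hc z hz)).2)
  have h2 := R.harmonic_measure_le M.closed M.nonempty hγ hγ' (f := -f) (R.dom.neg_mem hf)
    (c := c) (fun z hz => by
      have := (abs_le.1 (hc z hz)).1
      simp only [ContinuousMap.neg_apply]
      linarith)
  simp only [ContinuousMap.neg_apply, map_neg] at h2
  rw [abs_le]
  constructor <;> linarith

/-- A14d: the mirror reduction lemma. -/
theorem mirror {x x' : X} (hP4 : ∃ C : Set X, IsPreconnected C ∧ Disjoint C M.m ∧ x' ∈ C ∧
    M.b4 ∈ C) {u u2 : C(X, ℝ)} (hu : u ∈ R.domZ M.m) (hu1 : u M.e1 = 0) (hue2 : u M.e2 = 0)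
    (hub : u M.b4 = 0) (hu' : ∀ f ∈ R.domZ M.m, R.E u f = f x - f x')
    (hu2 : u2 ∈ R.dom) (hu21 : u2 M.e1 = 0) (hu22 : u2 M.e2 = 0)
    (hu2' : ∀ f ∈ R.dom, R.E u2 f = f x - f x') : u = u2 := by
  obtain ⟨h, hh, h01, hmono, hE⟩ := R.exists_strictMono M
  have hEu : R.E u h = 0 := by rw [R.symm]; exact hE u hu.1 hu1 hue2
  have hEu2 : R.E u2 h = 0 := by rw [R.symm]; exact hE u2 hu2 hu21 hu22
  have hxx : h x - h x' = 0 := by rw [← hu2' h hh, hEu2]
  have hpow : ∀ k : ℕ, (h ^ k) x - (h ^ k) x' - R.E u (h ^ k) = 0 := fun k =>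
    R.flux_pow M hP4 hu hub hu' hh h01 hmono (by rw [hxx, hEu, sub_zero]) k
  have hpowmem : ∀ k : ℕ, h ^ k ∈ R.dom := by
    intro k
    induction k with
    | zero => rw [pow_zero]; exact R.one_mem
    | succ k ih => rw [pow_succ]; exact R.mul_mem ih hh
  -- the Green functions
  obtain ⟨γ, hγ, hγ'⟩ := mirror_green R M x
  obtain ⟨γ', hγ1, hγ1'⟩ := mirror_green R M x'
  have hgood : Good (0 : C(X, ℝ) →ₗ[ℝ] ℝ) M.m :=
    ⟨fun f _ => by simp, M.closed, Or.inr M.nonempty⟩
  have huγ : u = γ - γ' := by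
    apply R.riesz_unique hgood hu ((R.domZ M.m).sub_mem hγ hγ1)
    intro f hf
    simp only [Q, LinearMap.zero_apply, add_zero, map_sub, LinearMap.sub_apply]
    rw [hu' f hf, hγ' f hf, hγ1' f hf]
  -- the bound for the flux functional
  have hbound : ∀ f ∈ R.dom, ∀ c : ℝ, (∀ z ∈ M.m, |f z| ≤ c) →
      |f x - f x' - R.E u f| ≤ 2 * c := by
    intro f hf c hc
    have h1 := mirror_abs R M hγ hγ' hf hc
    have h2 := mirror_abs R M hγ1 hγ1' hf hc
    have : f x - f x' - R.E u f = (f x - R.E γ f) - (f x' - R.E γ' f) := by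
      rw [huγ]; simp only [map_sub, LinearMap.sub_apply]; ring
    rw [this]
    calc _ ≤ |f x - R.E γ f| + |f x' - R.E γ' f| := abs_sub _ _
      _ ≤ 2 * c := by linarith
  -- polynomials in `h`
  have hpoly : ∀ p : Polynomial ℝ, Polynomial.aeval h p ∈ R.dom ∧
      (Polynomial.aeval h p) x - (Polynomial.aeval h p) x' -
        R.E u (Polynomial.aeval h p) = 0 := by
    intro p
    induction p using Polynomial.induction_on' with
    | add p q hp hq =>
      refine ⟨?_, ?_⟩
      · rw [map_add]; exact R.dom.add_mem hp.1 hq.1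
      · rw [map_add, map_add]
        simp only [ContinuousMap.add_apply]
        linarith [hp.2, hq.2]
    | monomial n a =>
      have hm : Polynomial.aeval h (Polynomial.monomial n a) = a • h ^ n := by
        rw [Polynomial.aeval_monomial, Algebra.smul_def]
      rw [hm]
      refine ⟨R.dom.smul_mem _ (hpowmem n), ?_⟩
      rw [map_smul]
      simp only [ContinuousMap.smul_apply, smul_eq_mul]
      have := hpow n
      linear_combination a * this
  -- the flux functional vanishes
  have hflux : ∀ f ∈ R.dom, f x - f x' - R.E u f = 0 := by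
    intro f hf
    by_contra hne
    have hpos : 0 < |f x - f x' - R.E u f| := abs_pos.2 hne
    set ε := |f x - f x' - R.E u f| / 4 with hε
    have hε0 : 0 < ε := by positivity
    haveI : CompactSpace M.m := isCompact_iff_compactSpace.1 M.closed.isCompact
    let hm : C(M.m, ℝ) := h.restrict M.m
    have hsep : (Algebra.adjoin ℝ {hm}).SeparatesPoints := by
      intro y y' hyy
      refine ⟨hm, ⟨hm, Algebra.subset_adjoin rfl, rfl⟩, ?_⟩
      have hθ : M.θ y ≠ M.θ y' := fun he => hyy (Subtype.ext (M.inj y.2 y'.2 he))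
      rcases lt_or_gt_of_ne hθ with hlt | hlt
      · exact (hmono y y.2 y' y'.2 hlt).ne'
      · exact (hmono y' y'.2 y y.2 hlt).ne
    obtain ⟨⟨g, hg⟩, hgf⟩ :=
      ContinuousMap.exists_mem_subalgebra_near_continuousMap_of_separatesPoints
        (Algebra.adjoin ℝ {hm}) hsep (f.restrict M.m) ε hε0
    rw [Algebra.adjoin_singleton_eq_range_aeval] at hg
    obtain ⟨p, hp⟩ := hg
    obtain ⟨hpm, hp0⟩ := hpoly p
    have hres : ∀ z : M.m, (Polynomial.aeval h p) (z : X) = g z := by
      intro z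
      have h1 : (Polynomial.aeval h p) (z : X) = p.eval (h z) := by
        have := Polynomial.aeval_algHom_apply (ContinuousMap.evalAlgHom ℝ ℝ (z : X)) h p
        rw [Polynomial.coe_aeval_eq_eval] at this
        exact this.symm
      have h2 : g z = p.eval (hm z) := by
        have hp' : Polynomial.aeval hm p = g := hp
        have := Polynomial.aeval_algHom_apply (ContinuousMap.evalAlgHom ℝ ℝ z) hm p
        rw [Polynomial.coe_aeval_eq_eval, hp'] at this
        exact this.symm
      rw [h1, h2]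
      rfl
    have hb := hbound (f - Polynomial.aeval h p) (R.dom.sub_mem hf hpm) ε (by
      intro z hz
      have h1 := (g - f.restrict M.m).norm_coe_le_norm ⟨z, hz⟩
      have h2 : (g - f.restrict M.m) ⟨z, hz⟩ = g ⟨z, hz⟩ - f z := rfl
      rw [h2, Real.norm_eq_abs, ← hres ⟨z, hz⟩] at h1
      rw [ContinuousMap.sub_apply, abs_sub_comm]
      exact h1.trans hgf.le)
    have he : (f - Polynomial.aeval h p) x - (f - Polynomial.aeval h p) x' -
        R.E u (f - Polynomial.aeval h p) = f x - f x' - R.E u f := by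
      rw [map_sub]
      simp only [ContinuousMap.sub_apply]
      linarith [hp0]
    rw [he] at hb
    linarith
  -- conclusion
  have hd : u - u2 ∈ R.dom := R.dom.sub_mem hu.1 hu2
  have h0 : R.E (u - u2) (u - u2) = 0 := by
    have h1 := hflux _ hd
    have h2 := hu2' _ hd
    rw [map_sub R.E, LinearMap.sub_apply]
    linarith
  have hc := R.const_of_zero _ hd h0
  ext y
  have := hc y M.e1
  simp only [ContinuousMap.sub_apply, hu1, hu21, sub_zero] at this
  linarith

end RForm

end CarpetLib
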