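import Pool.Agent.Lib.MP_f3090c_an.R.Halve
import Pool.Agent.Lib.MP_f3090c_an.R.Mirror

/-! A19d: the mirror step. -/

open Set Filter Topology

namespace CarpetLib

variable {X Y : Type*} [MetricSpace X] [CompactSpace X] [MetricSpace Y] [CompactSpace Y]

namespace RForm
variable (R : RForm X) (T : Mir X Y)

section aux
variable {X Y : Type*} [TopologicalSpace X] [TopologicalSpace Y] (T : Mir X Y)

private theorem mirrorStep_fix_notMem {x : X} (h : T.σ x = x) : x ∉ T.O := by
  intro hx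
  exact T.disj x hx (h.symm ▸ hx)

private theorem mirrorStep_ιπσ {x : X} (h : T.σ x ∈ T.O) : T.ι (T.π x) = T.σ x := by
  rw [← T.πσ x]
  exact T.ιπO _ h

private theorem mirrorStep_ιπ (x : X) : T.ι (T.π x) = x ∨ T.ι (T.π x) = T.σ x := by
  rcases T.cover x with h | h | h
  · exact Or.inl (T.ιπO x h)
  · exact Or.inr (mirrorStep_ιπσ T h)
  · exact Or.inl (T.ιπfix x h)

private theorem mirrorStep_ι (y : Y) : T.ι y ∈ T.O ∨ T.σ (T.ι y) = T.ι y := by
  rcases T.cover (T.ι y) with h | h | h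
  · exact Or.inl h
  · right
    have h1 := mirrorStep_ιπσ T h
    rw [T.πι] at h1
    exact h1.symm
  · exact Or.inr h

end aux

open Classical in
/-- A19d: the mirror step -/
theorem mirror_step (hI : R.Inv T.σ) (M : MirrorData Y) (hm : M.m = {y | T.σ (T.ι y) = T.ι y})
    {x x' : Y} (hP4 : ∃ C : Set Y, IsPreconnected C ∧ Disjoint C M.m ∧ x' ∈ C ∧ M.b4 ∈ C)
    {u : C(X, ℝ)} (hu : u ∈ R.dom)
    (hux : ∀ f ∈ R.dom, R.E u f = f (T.ι x) - f (T.ι x'))
    (h1 : u (T.ι M.e1) = 0) (h1' : u (T.σ (T.ι M.e1)) = 0)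
    (h2 : u (T.ι M.e2) = 0) (h2' : u (T.σ (T.ι M.e2)) = 0)
    (h4 : u (T.ι M.b4) = u (T.σ (T.ι M.b4))) :
    ∀ z, z ∉ T.O → u z = 0 := by
  obtain ⟨S, hS, hSE⟩ := R.exists_half T hI
  have hσ : u.comp T.σ ∈ R.dom := hI.1 u hu
  have hσσ : ∀ w : C(X, ℝ), (w.comp T.σ).comp T.σ = w := by
    intro w
    ext z
    simp [T.inv]
  have hπσ : ∀ w : C(Y, ℝ), (w.comp T.π).comp T.σ = w.comp T.π := by
    intro w
    ext z
    simp [T.πσ]
  have hmem : ∀ y, y ∈ M.m ↔ T.σ (T.ι y) = T.ι y := by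
    intro y
    rw [hm]
    rfl
  -- the symmetric part
  have hA : (u + u.comp T.σ) ∈ R.dom := R.dom.add_mem hu hσ
  have hD : (u - u.comp T.σ) ∈ R.dom := R.dom.sub_mem hu hσ
  set u2 : C(Y, ℝ) := (u + u.comp T.σ).comp T.ι with hu2def
  set u1 : C(Y, ℝ) := (u - u.comp T.σ).comp T.ι with hu1def
  have hu2π : u2.comp T.π = u + u.comp T.σ := by
    ext z
    change u (T.ι (T.π z)) + u (T.σ (T.ι (T.π z))) = u z + u (T.σ z)
    rcases mirrorStep_ιπ T z with h | h
    · rw [h]
    · rw [h, T.inv, add_comm]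
  have hu2mem : u2 ∈ S.dom := by
    rw [hS, hu2π]
    exact hA
  have hu2E : ∀ f ∈ S.dom, S.E u2 f = f x - f x' := by
    intro f hf
    have hfπ : f.comp T.π ∈ R.dom := (hS f).1 hf
    have e1 : R.E (u.comp T.σ) (f.comp T.π) = R.E u (f.comp T.π) := by
      have := hI.2 u hu (f.comp T.π) hfπ
      rw [hπσ] at this
      exact this
    rw [hSE, hu2π, map_add, LinearMap.add_apply, e1, hux _ hfπ]
    change 1 / 2 * (f (T.π (T.ι x)) - f (T.π (T.ι x')) +
      (f (T.π (T.ι x)) - f (T.π (T.ι x')))) = f x - f x'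
    rw [T.πι, T.πι]
    ring
  -- the antisymmetric part
  have hu1mem : u1 ∈ S.dom := by
    rw [hS]
    exact R.half_fold T hI hD
  have hu1m : ∀ y ∈ M.m, u1 y = 0 := by
    intro y hy
    have hy' := (hmem y).1 hy
    change u (T.ι y) - u (T.σ (T.ι y)) = 0
    rw [hy', sub_self]
  have hu1E : ∀ f ∈ S.domZ M.m, S.E u1 f = f x - f x' := by
    intro f hf
    obtain ⟨hfS, hf0⟩ := hf
    have hfπ : f.comp T.π ∈ R.dom := (hS f).1 hfS
    have hfix : ∀ z, T.σ z = z → f (T.π z) = 0 := by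
      intro z hz
      apply hf0
      rw [hmem, T.ιπfix z hz]
      exact hz
    let F : C(X, ℝ) := ⟨T.O.piecewise (f.comp T.π) (fun _ => 0), by
      apply Continuous.piecewise
      · intro z hz
        exact hfix z (T.fr z hz)
      · exact (f.comp T.π).continuous
      · exact continuous_const⟩
    have hFO : ∀ z ∈ T.O, F z = f (T.π z) := by
      intro z hz
      change T.O.piecewise (f.comp T.π) (fun _ => 0) z = _
      rw [Set.piecewise_eq_of_mem _ _ _ hz]
      rfl
    have hFn : ∀ z, z ∉ T.O → F z = 0 := by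
      intro z hz
      change T.O.piecewise (f.comp T.π) (fun _ => 0) z = _
      rw [Set.piecewise_eq_of_notMem _ _ _ hz]
    have hFmem : F ∈ R.dom := (R.glue T.openO hfπ (fun z hz => hfix z (T.fr z hz)) hFO hFn).1
    have hFσ : F.comp T.σ ∈ R.dom := hI.1 F hFmem
    have hsum : f.comp T.π = F + F.comp T.σ := by
      ext z
      change f (T.π z) = F z + F (T.σ z)
      rcases T.cover z with h | h | h
      · rw [hFO z h, hFn _ (T.disj z h), add_zero]
      · have hz : z ∉ T.O := by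
          have := T.disj _ h
          rwa [T.inv] at this
        rw [hFn z hz, hFO _ h, T.πσ, zero_add]
      · have hz := mirrorStep_fix_notMem T h
        rw [h, hFn z hz, hfix z h, add_zero]
    have hu1π : u1.comp T.π ∈ R.dom := (hS u1).1 hu1mem
    have e1 : R.E (u1.comp T.π) (F.comp T.σ) = R.E (u1.comp T.π) F := by
      have := hI.2 (u1.comp T.π) hu1π F hFmem
      rw [hπσ] at this
      exact this
    have e2 : R.E (u1.comp T.π) F = R.E (u - u.comp T.σ) F := by
      have h := R.loc_zero T.openO hFmem (R.dom.sub_mem hu1π hD) hFn (by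
        intro z hz
        change (u (T.ι (T.π z)) - u (T.σ (T.ι (T.π z)))) - (u z - u (T.σ z)) = 0
        rw [T.ιπO z hz, sub_self])
      rw [map_sub, sub_eq_zero] at h
      rw [R.symm, h, R.symm]
    have e3 : R.E (u.comp T.σ) F = R.E u (F.comp T.σ) := by
      have := hI.2 (u.comp T.σ) hσ F hFmem
      rw [hσσ] at this
      exact this.symm
    have hFι : ∀ y, F (T.ι y) = f y := by
      intro y
      rcases mirrorStep_ι T y with h | h
      · rw [hFO _ h, T.πι]
      · rw [hFn _ (mirrorStep_fix_notMem T h), hf0 y ((hmem y).2 h)]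
    have hFσι : ∀ y, F (T.σ (T.ι y)) = 0 := by
      intro y
      apply hFn
      rcases mirrorStep_ι T y with h | h
      · exact T.disj _ h
      · rw [h]
        exact mirrorStep_fix_notMem T h
    rw [hSE, hsum, map_add, e1, e2, map_sub, LinearMap.sub_apply, e3, hux F hFmem, hux _ hFσ]
    change 1 / 2 * ((F (T.ι x) - F (T.ι x') - (F (T.σ (T.ι x)) - F (T.σ (T.ι x')))) +
      (F (T.ι x) - F (T.ι x') - (F (T.σ (T.ι x)) - F (T.σ (T.ι x'))))) = f x - f x'
    rw [hFι, hFι, hFσι, hFσι]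
    ring
  have hval1 : ∀ y, u1 y = u (T.ι y) - u (T.σ (T.ι y)) := fun y => rfl
  have hval2 : ∀ y, u2 y = u (T.ι y) + u (T.σ (T.ι y)) := fun y => rfl
  have heq : u1 = u2 := by
    refine S.mirror M hP4 ⟨hu1mem, hu1m⟩ ?_ ?_ ?_ hu1E hu2mem ?_ ?_ hu2E
    · rw [hval1, h1, h1', sub_zero]
    · rw [hval1, h2, h2', sub_zero]
    · rw [hval1, h4, sub_self]
    · rw [hval2, h1, h1', add_zero]
    · rw [hval2, h2, h2', add_zero]
  have hzero : ∀ y, u (T.σ (T.ι y)) = 0 := by
    intro y
    have h := hval1 y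
    rw [heq, hval2 y] at h
    linarith
  intro z hz
  rcases T.cover z with h | h | h
  · exact absurd h hz
  · have := hzero (T.π z)
    rw [mirrorStep_ιπσ T h, T.inv] at this
    exact this
  · have := hzero (T.π z)
    rw [T.ιπfix z h, h] at this
    exact this

end RForm

end CarpetLib
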