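import Pool.Agent.Lib.MP_f3090c_an.R.QBasic

/-! A04a: coercivity of the killed forms, completeness. -/

open Set Filter Topology

namespace CarpetLib

variable {X : Type*} [TopologicalSpace X] [CompactSpace X]

namespace RForm
variable (R : RForm X) {κ : C(X, ℝ) →ₗ[ℝ] ℝ} {Z : Set X}

omit [CompactSpace X] in
/-- monotonicity of a positive functional -/
private theorem coer_mono (hκ : Pos κ) {f g : C(X, ℝ)} (h : ∀ x, f x ≤ g x) : κ f ≤ κ g := by
  have h1 : 0 ≤ κ (g - f) := hκ _ (fun x => by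
    have := h x
    simpa using this)
  rw [map_sub] at h1
  linarith

/-- coercivity -/
theorem coercive (h : Good κ Z) :
    ∃ C : ℝ, 0 < C ∧ ∀ f ∈ R.domZ Z, ∀ x, (f x) ^ 2 ≤ C * R.Q κ f f := by
  obtain ⟨hκ, -, h2⟩ := h
  obtain ⟨R0, hR0, hb⟩ := R.bound
  have hQ1 : ∀ f : C(X, ℝ), R.E f f ≤ R.Q κ f f := by
    intro f
    have : 0 ≤ κ (f * f) := hκ _ (fun x => mul_self_nonneg (f x))
    unfold Q
    linarith
  have hQ2 : ∀ f : C(X, ℝ), κ (f * f) ≤ R.Q κ f f := by
    intro f
    have := R.nonneg f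
    unfold Q
    linarith
  rcases h2 with h1 | ⟨z, hz⟩
  · refine ⟨(2 + 2 * R0 * κ 1) / κ 1, by positivity, ?_⟩
    intro f hf x
    have hfd : f ∈ R.dom := hf.1
    have key : κ (((f x) ^ 2) • (1 : C(X, ℝ))) ≤
        κ ((2 : ℝ) • (f * f) + (2 * R0 * R.E f f) • (1 : C(X, ℝ))) := by
      refine coer_mono hκ ?_
      intro y
      have hxy := hb f hfd x y
      simp only [ContinuousMap.smul_apply, ContinuousMap.one_apply, ContinuousMap.add_apply,
        ContinuousMap.mul_apply, smul_eq_mul, mul_one]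
      nlinarith [sq_nonneg (f x - 2 * f y), hxy]
    rw [map_add, map_smul, map_smul, map_smul, smul_eq_mul, smul_eq_mul, smul_eq_mul] at key
    rw [div_mul_eq_mul_div, le_div_iff₀ h1]
    have e1 := hQ1 f
    have e2 := hQ2 f
    have e3 : 2 * R0 * R.E f f * κ 1 ≤ 2 * R0 * R.Q κ f f * κ 1 := by gcongr
    nlinarith
  · refine ⟨R0, hR0, ?_⟩
    intro f hf x
    have h3 := hb f hf.1 x z
    rw [hf.2 z hz, sub_zero] at h3
    exact h3.trans (mul_le_mul_of_nonneg_left (hQ1 f) hR0.le)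

theorem eq_zero_of_Q (h : Good κ Z) {f : C(X, ℝ)} (hf : f ∈ R.domZ Z)
    (h0 : R.Q κ f f ≤ 0) : f = 0 := by
  obtain ⟨C, hC, hc⟩ := R.coercive h
  ext x
  have h1 := hc f hf x
  have h2 : (f x) ^ 2 ≤ 0 := h1.trans (mul_nonpos_of_nonneg_of_nonpos hC.le h0)
  have h3 : (f x) ^ 2 = 0 := le_antisymm h2 (sq_nonneg _)
  simpa using h3

/-- completeness of `domZ Z` with respect to `Q κ` -/
theorem Q_complete (h : Good κ Z) (u : ℕ → C(X, ℝ)) (hu : ∀ n, u n ∈ R.domZ Z)
    (hc : ∀ ε > 0, ∃ N, ∀ m ≥ N, ∀ n ≥ N, R.Q κ (u m - u n) (u m - u n) < ε) :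
    ∃ f ∈ R.domZ Z, Tendsto (fun n => R.Q κ (u n - f) (u n - f)) atTop (𝓝 0) := by
  obtain ⟨C, hC, hco⟩ := R.coercive h
  obtain ⟨hκ, hZ, h2⟩ := h
  obtain ⟨R0, hR0, hb⟩ := R.bound
  -- uniform Cauchy
  have hcau : CauchySeq u := by
    rw [Metric.cauchySeq_iff]
    intro ε hε
    obtain ⟨N, hN⟩ := hc ((ε / 2) ^ 2 / C) (by positivity)
    refine ⟨N, fun m hm n hn => ?_⟩
    rw [dist_eq_norm]
    refine lt_of_le_of_lt ?_ (half_lt_self hε)
    rw [ContinuousMap.norm_le _ (by positivity)]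
    intro x
    have h3 := hco (u m - u n) ((R.domZ Z).sub_mem (hu m) (hu n)) x
    have h4 := hN m hm n hn
    have h5 : ((u m - u n) x) ^ 2 ≤ (ε / 2) ^ 2 := by
      refine h3.trans ?_
      have : C * R.Q κ (u m - u n) (u m - u n) ≤ C * ((ε / 2) ^ 2 / C) :=
        mul_le_mul_of_nonneg_left h4.le hC.le
      rwa [mul_div_cancel₀ _ hC.ne'] at this
    rw [Real.norm_eq_abs]
    exact abs_le_of_sq_le_sq h5 (by positivity)
  obtain ⟨f, hf⟩ := cauchySeq_tendsto_of_complete hcau
  have hpt : ∀ x, Tendsto (fun n => u n x) atTop (𝓝 (f x)) := by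
    intro x
    have hcx : Continuous (fun g : C(X, ℝ) => g x) := by fun_prop
    exact (hcx.tendsto f).comp hf
  -- the energy limit
  obtain ⟨F, hF, hFt⟩ := R.complete u (fun n => (hu n).1) (by
    intro ε hε
    obtain ⟨N, hN⟩ := hc ε hε
    refine ⟨N, fun m hm n hn => lt_of_le_of_lt ?_ (hN m hm n hn)⟩
    have : 0 ≤ κ ((u m - u n) * (u m - u n)) := hκ _ (fun x => mul_self_nonneg _)
    unfold Q
    linarith)
  have hconst : ∀ x y, (f - F) x = (f - F) y := by
    intro x y
    have l1 : Tendsto (fun n => ((u n - F) x - (u n - F) y) ^ 2) atTop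
        (𝓝 (((f - F) x - (f - F) y) ^ 2)) := by
      have hx : Tendsto (fun n => (u n - F) x) atTop (𝓝 ((f - F) x)) := by
        simpa using (hpt x).sub_const (F x)
      have hy : Tendsto (fun n => (u n - F) y) atTop (𝓝 ((f - F) y)) := by
        simpa using (hpt y).sub_const (F y)
      exact (hx.sub hy).pow 2
    have l2 : Tendsto (fun n => R0 * R.E (u n - F) (u n - F)) atTop (𝓝 0) := by
      simpa using hFt.const_mul R0
    have l3 := le_of_tendsto_of_tendsto' l1 l2
      (fun n => hb (u n - F) (R.dom.sub_mem (hu n).1 hF) x y)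
    have l4 : ((f - F) x - (f - F) y) ^ 2 = 0 := le_antisymm l3 (sq_nonneg _)
    have l5 := pow_eq_zero_iff (two_ne_zero) |>.1 l4
    linarith
  have hfc : ∃ c : ℝ, f = F + ContinuousMap.const X c := by
    rcases isEmpty_or_nonempty X with hX | ⟨⟨x0⟩⟩
    · exact ⟨0, by ext x; exact (hX.false x).elim⟩
    · refine ⟨(f - F) x0, ?_⟩
      ext x
      have := hconst x x0
      simp only [ContinuousMap.sub_apply, ContinuousMap.add_apply,
        ContinuousMap.const_apply] at this ⊢
      linarith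
  obtain ⟨c, hcf⟩ := hfc
  have hfd : f ∈ R.dom := by
    rw [hcf]
    exact R.dom.add_mem hF (R.const_mem c)
  have hE : ∀ n, R.E (u n - f) (u n - f) = R.E (u n - F) (u n - F) := by
    intro n
    have e1 : u n - f = (u n - F) - ContinuousMap.const X c := by
      rw [hcf]
      abel
    rw [e1]
    simp only [map_sub, LinearMap.sub_apply, R.E_const_left, R.E_const_right]
    simp
  refine ⟨f, ⟨hfd, ?_⟩, ?_⟩
  · intro z hz
    have l1 : Tendsto (fun n => u n z) atTop (𝓝 0) := by
      have : (fun n => u n z) = fun _ => (0 : ℝ) := funext fun n => (hu n).2 z hz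
      rw [this]
      exact tendsto_const_nhds
    exact tendsto_nhds_unique (hpt z) l1
  · have l1 : Tendsto (fun n => R.E (u n - f) (u n - f)) atTop (𝓝 0) := by
      simp_rw [hE]
      exact hFt
    have l2 : Tendsto (fun n => κ ((u n - f) * (u n - f))) atTop (𝓝 0) := by
      have l3 : Tendsto (fun n => ‖u n - f‖ ^ 2 * κ 1) atTop (𝓝 0) := by
        have l4 : Tendsto (fun n => ‖u n - f‖) atTop (𝓝 0) := by
          rw [tendsto_iff_norm_sub_tendsto_zero] at hf
          exact hf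
        simpa using (l4.pow 2).mul_const (κ 1)
      refine squeeze_zero (fun n => hκ _ (fun x => mul_self_nonneg _)) (fun n => ?_) l3
      have l5 : κ ((u n - f) * (u n - f)) ≤ κ ((‖u n - f‖ ^ 2) • (1 : C(X, ℝ))) := by
        refine coer_mono hκ ?_
        intro x
        simp only [ContinuousMap.mul_apply, ContinuousMap.smul_apply, ContinuousMap.one_apply,
          smul_eq_mul, mul_one]
        have l6 := (u n - f).norm_coe_le_norm x
        rw [Real.norm_eq_abs] at l6
        rw [← sq, ← sq_abs]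
        exact pow_le_pow_left₀ (abs_nonneg _) l6 2
      rwa [map_smul, smul_eq_mul] at l5
    simpa [Q] using l1.add l2

end RForm

end CarpetLib
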