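import Pool.Agent.Lib.MP_f3090c_an.R.DetDefs
import Pool.Agent.Lib.MP_f3090c_an.R.Green
import Pool.Agent.Lib.MP_f3090c_an.R.Nodal
import Pool.Agent.Lib.MP_f3090c_an.R.QBasic

/-! A10. -/

open Set Filter Topology

namespace CarpetLib

variable {X : Type*} [TopologicalSpace X] [CompactSpace X] [T2Space X]

namespace RForm
variable (R : RForm X) {κ : C(X, ℝ) →ₗ[ℝ] ℝ} {g g' : X → C(X, ℝ)} {a b e1 e2 : X}

private theorem detJ_exists_pos {C : Set X} (hC : IsCompact C) (w : C(X, ℝ))
    (h : ∀ x ∈ C, 0 < w x) : ∃ δ > 0, ∀ x ∈ C, δ ≤ w x := by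
  rcases C.eq_empty_or_nonempty with rfl | hne
  · exact ⟨1, one_pos, fun x hx => absurd hx (notMem_empty x)⟩
  · obtain ⟨x0, hx0, hmin⟩ := hC.exists_isMinOn hne w.continuous.continuousOn
    exact ⟨w x0, h x0 hx0, fun x hx => hmin hx⟩

/-- A10 -/
theorem J_nonneg (hκ : Pos κ) (h1 : 0 < κ 1) (hg : R.IsGreen κ ∅ g)
    (hx : NoCross a b e1 e2) (z : X) :
    0 ≤ g z b * (g e2 z * g e1 a - g e1 z * g e2 a)
      - g z a * (g e2 z * g e1 b - g e1 z * g e2 b) := by
  by_contra hcon
  have hgood : Good κ ∅ := ⟨hκ, isClosed_empty, Or.inl h1⟩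
  have hpos : ∀ x y, 0 < g y x := R.green_pos' hκ h1 hg
  have hdom : ∀ y, g y ∈ R.dom := fun y => (hg y).1.1
  have hQ : ∀ y, ∀ f ∈ R.dom, R.Q κ (g y) f = f y := fun y f hf =>
    (hg y).2 f ⟨hf, fun z hz => absurd hz (notMem_empty z)⟩
  set w : C(X, ℝ) := (g e2 z) • g e1 - (g e1 z) • g e2 with hw
  have hwa : ∀ x, w x = g e2 z * g e1 x - g e1 z * g e2 x := fun x => rfl
  have hwz : w z = 0 := by rw [hwa]; ring
  have hwd : w ∈ R.dom := R.dom.sub_mem (R.dom.smul_mem _ (hdom _)) (R.dom.smul_mem _ (hdom _))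
  have hwQ : ∀ f ∈ R.dom, R.Q κ w f = g e2 z * f e1 - g e1 z * f e2 := by
    intro f hf
    rw [hw, Q_sub_left, Q_smul_left, Q_smul_left, hQ _ f hf, hQ _ f hf]
  have hlt : g z b * w a < g z a * w b := by
    rw [hwa, hwa]; push Not at hcon; linarith
  have hza := hpos a z
  have hzb := hpos b z
  -- choose `s ≠ 0`
  obtain ⟨s, hs0, hsa, hsb⟩ : ∃ s : ℝ, s ≠ 0 ∧ w a < s * g z a ∧ s * g z b < w b := by
    have hq : w a / g z a < w b / g z b := by
      rw [div_lt_div_iff₀ hza hzb]; linarith
    obtain ⟨s1, h11, h12⟩ := exists_between hq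
    obtain ⟨s2, h21, h22⟩ := exists_between h12
    have key : ∀ s, w a / g z a < s → s < w b / g z b → w a < s * g z a ∧ s * g z b < w b :=
      fun s k1 k2 => ⟨(div_lt_iff₀ hza).1 k1, (lt_div_iff₀ hzb).1 k2⟩
    by_cases h0 : s1 = 0
    · refine ⟨s2, ?_, key s2 (h11.trans h21) h22⟩
      rw [h0] at h21; exact ne_of_gt h21
    · exact ⟨s1, h0, key s1 h11 h12⟩
  set v : C(X, ℝ) := w - s • g z with hv
  have hvx : ∀ x, v x = w x - s * g z x := fun x => rfl
  have hvd : v ∈ R.dom := R.dom.sub_mem hwd (R.dom.smul_mem _ (hdom _))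
  have hvQ : ∀ f ∈ R.dom, R.Q κ v f = g e2 z * f e1 - g e1 z * f e2 - s * f z := by
    intro f hf
    rw [hv, Q_sub_left, Q_smul_left, hQ _ f hf, hwQ f hf]
  have hva : v a < 0 := by rw [hvx]; linarith
  have hvb : 0 < v b := by rw [hvx]; linarith
  have hnegQ : ∀ (u f : C(X, ℝ)), R.Q κ (-u) f = - R.Q κ u f := by
    intro u f
    have : -u = (-1 : ℝ) • u := by ext x; simp
    rw [this, Q_smul_left]; ring
  have p1 := hpos z e1
  have p2 := hpos z e2
  -- joinings from the nodal lemma
  have Jv := R.nodal hκ h1 hvd (ι := Fin 3) ![g e2 z, -g e1 z, -s] ![e1, e2, z]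
    (fun f hf => by rw [hvQ f hf]; simp [Fin.sum_univ_three]; ring) hvb
  have Jnv := R.nodal hκ h1 (v := -v) (R.dom.neg_mem hvd) (ι := Fin 3) ![-g e2 z, g e1 z, s]
    ![e1, e2, z]
    (fun f hf => by rw [hnegQ, hvQ f hf]; simp [Fin.sum_univ_three]; ring) (y := a)
    (by simpa using hva)
  rcases lt_or_gt_of_ne hs0 with hs | hs
  · -- `s < 0`
    obtain ⟨i, hi, C, hC1, hC2, hC3, haC, hC5⟩ := Jnv
    obtain ⟨j, hj, C', hC'1, hC'2, hC'3, hbC', hC'5⟩ := Jv
    have hi1 : i = 1 := by
      fin_cases i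
      · simp at hi; linarith
      · rfl
      · simp at hi; linarith
    subst hi1
    have he2C : e2 ∈ C := by simpa using hC5
    have hdisj : ∀ D : Set X, D ⊆ {x | 0 < v x} → ¬ (C ∩ D).Nonempty := by
      rintro D hD ⟨x, hxC, hxD⟩
      have h5 : 0 < (-v) x := hC3 hxC
      have h6 : 0 < v x := hD hxD
      simp at h5; linarith
    fin_cases j
    · have : e1 ∈ C' := by simpa using hC'5
      exact hdisj C' hC'3 (hx C C' hC1 hC2 hC'1 hC'2 haC he2C hbC' this)
    · simp at hj; linarith
    · have hzC' : z ∈ C' := by simpa using hC'5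
      obtain ⟨δ, hδ, hδw⟩ := detJ_exists_pos hC1 (-w) (by
        intro x hx'
        have h5 : 0 < (-v) x := hC3 hx'
        have h6 := hpos x z
        simp only [ContinuousMap.neg_apply] at h5 ⊢
        rw [hvx] at h5
        nlinarith)
      have hgaa := hpos a a
      set c := δ / (2 * g a a) with hc
      have hcpos : 0 < c := by positivity
      set q : C(X, ℝ) := w + c • g a with hq
      have hqC : ∀ x ∈ C, q x < 0 := by
        intro x hx'
        have h5 := hδw x hx'
        have h6 := R.green_le_diag hgood hg x a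
        have h7 : c * g a x ≤ δ / 2 := by
          calc c * g a x ≤ c * g a a := by gcongr
            _ = δ / 2 := by rw [hc]; field_simp
        simp only [ContinuousMap.neg_apply] at h5
        simp only [hq, ContinuousMap.add_apply, ContinuousMap.smul_apply, smul_eq_mul]
        linarith
      have hqz : 0 < q z := by
        simp only [hq, ContinuousMap.add_apply, ContinuousMap.smul_apply, smul_eq_mul, hwz,
          zero_add]
        exact mul_pos hcpos (hpos z a)
      obtain ⟨l, hl, C2, hD1, hD2, hD3, hzC2, hD5⟩ := R.nodal hκ h1 (v := q)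
        (R.dom.add_mem hwd (R.dom.smul_mem _ (hdom _))) (ι := Fin 3) ![g e2 z, -g e1 z, c]
        ![e1, e2, a] (fun f hf => by
          rw [hq, Q_add_left, Q_smul_left, hwQ f hf, hQ _ f hf]
          simp [Fin.sum_univ_three]; ring) hqz
      have hC2disj : ∀ x ∈ C, x ∉ C2 := fun x hxC hx2 => by
        have h5 : 0 < q x := hD3 hx2
        linarith [hqC x hxC]
      fin_cases l
      · have he1 : e1 ∈ C2 := by simpa using hD5
        obtain ⟨x, hxC, hx2⟩ := hx C (C' ∪ C2) hC1 hC2 (hC'1.union hD1)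
          (hC'2.union z hzC' hzC2 hD2) haC he2C (Or.inl hbC') (Or.inr he1)
        rcases hx2 with h | h
        · exact hdisj C' hC'3 ⟨x, hxC, h⟩
        · exact hC2disj x hxC h
      · simp at hl; linarith
      · have : a ∈ C2 := by simpa using hD5
        exact hC2disj a haC this
  · -- `s > 0`
    obtain ⟨i, hi, C', hC'1, hC'2, hC'3, hbC', hC'5⟩ := Jv
    obtain ⟨j, hj, C, hC1, hC2, hC3, haC, hC5⟩ := Jnv
    have hi1 : i = 0 := by
      fin_cases i
      · rfl
      · simp at hi; linarith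
      · simp at hi; linarith
    subst hi1
    have he1C' : e1 ∈ C' := by simpa using hC'5
    have hdisj : ∀ D : Set X, D ⊆ {x | 0 < (-v) x} → ¬ (D ∩ C').Nonempty := by
      rintro D hD ⟨x, hxD, hxC⟩
      have h5 : 0 < v x := hC'3 hxC
      have h6 : 0 < (-v) x := hD hxD
      simp at h6; linarith
    fin_cases j
    · simp at hj; linarith
    · have : e2 ∈ C := by simpa using hC5
      exact hdisj C hC3 (hx C C' hC1 hC2 hC'1 hC'2 haC this hbC' he1C')
    · have hzC : z ∈ C := by simpa using hC5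
      obtain ⟨δ, hδ, hδw⟩ := detJ_exists_pos hC'1 w (by
        intro x hx'
        have h5 : 0 < v x := hC'3 hx'
        have h6 := hpos x z
        rw [hvx] at h5
        nlinarith)
      have hgbb := hpos b b
      set c := δ / (2 * g b b) with hc
      have hcpos : 0 < c := by positivity
      set q : C(X, ℝ) := w - c • g b with hq
      have hqC : ∀ x ∈ C', 0 < q x := by
        intro x hx'
        have h5 := hδw x hx'
        have h6 := R.green_le_diag hgood hg x b
        have h7 : c * g b x ≤ δ / 2 := by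
          calc c * g b x ≤ c * g b b := by gcongr
            _ = δ / 2 := by rw [hc]; field_simp
        simp only [hq, ContinuousMap.sub_apply, ContinuousMap.smul_apply, smul_eq_mul]
        linarith
      have hqz : 0 < (-q) z := by
        simp only [hq, ContinuousMap.neg_apply, ContinuousMap.sub_apply,
          ContinuousMap.smul_apply, smul_eq_mul, hwz, zero_sub, neg_neg]
        exact mul_pos hcpos (hpos z b)
      obtain ⟨l, hl, C2, hD1, hD2, hD3, hzC2, hD5⟩ := R.nodal hκ h1 (v := -q)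
        (R.dom.neg_mem (R.dom.sub_mem hwd (R.dom.smul_mem _ (hdom _)))) (ι := Fin 3)
        ![-g e2 z, g e1 z, c] ![e1, e2, b] (fun f hf => by
          rw [hnegQ, hq, Q_sub_left, Q_smul_left, hwQ f hf, hQ _ f hf]
          simp [Fin.sum_univ_three]; ring) hqz
      have hC2disj : ∀ x ∈ C', x ∉ C2 := fun x hxC hx2 => by
        have h5 : 0 < (-q) x := hD3 hx2
        simp only [ContinuousMap.neg_apply] at h5
        linarith [hqC x hxC]
      fin_cases l
      · simp at hl; linarith
      · have he2 : e2 ∈ C2 := by simpa using hD5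
        obtain ⟨x, hx2, hxC⟩ := hx (C ∪ C2) C' (hC1.union hD1)
          (hC2.union z hzC hzC2 hD2) hC'1 hC'2 (Or.inl haC) (Or.inr he2) hbC' he1C'
        rcases hx2 with h | h
        · exact hdisj C hC3 ⟨x, h, hxC⟩
        · exact hC2disj x hxC h
      · have : b ∈ C2 := by simpa using hD5
        exact hC2disj b hbC' this

end RForm

end CarpetLib
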