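import Pool.Agent.Lib.MP_f3090c_an.R.Det1
import Pool.Agent.Lib.MP_f3090c_an.R.DetJ
import Pool.Agent.Lib.MP_f3090c_an.R.Approx

/-! A11. -/

open Set Filter Topology

namespace CarpetLib

variable {X : Type*} [TopologicalSpace X] [CompactSpace X] [T2Space X]

namespace RForm
variable (R : RForm X) {κ : C(X, ℝ) →ₗ[ℝ] ℝ} {g g' : X → C(X, ℝ)} {a b e1 e2 : X}

/-- A11: killing at a point decreases the determinant -/
theorem det_mono (hκ : Pos κ) (h1 : 0 < κ 1) (hg : R.IsGreen κ ∅ g)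
    (hx : NoCross a b e1 e2) {t : ℝ} (ht : 0 ≤ t) (z : X)
    (hg' : R.IsGreen (κ + t • ev z) ∅ g') : dd g' a b e1 e2 ≤ dd g a b e1 e2 := by
  have hgood : Good κ ∅ := ⟨hκ, isClosed_empty, Or.inl h1⟩
  have hpos' : Pos (κ + t • ev z) := by
    intro f hf
    have h2 := hκ f hf
    have h3 : 0 ≤ f z := hf z
    simp only [LinearMap.add_apply, LinearMap.smul_apply, smul_eq_mul, ev_apply]
    positivity
  have hgood' : Good (κ + t • ev z) ∅ := by
    refine ⟨hpos', isClosed_empty, Or.inl ?_⟩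
    simp only [LinearMap.add_apply, LinearMap.smul_apply, smul_eq_mul, ev_apply,
      ContinuousMap.one_apply, mul_one]
    linarith
  have hrk := R.green_rank_one hgood hg ht z
  have hEq := R.green_unique hgood' hg' hrk
  have hzz : 0 ≤ g z z := R.green_nonneg hgood hg z z
  have hθ : 0 ≤ t / (1 + t * g z z) := by positivity
  have hJ := R.J_nonneg hκ h1 hg hx z
  rw [hEq]
  set θ := t / (1 + t * g z z) with hθdef
  simp only [dd, ContinuousMap.sub_apply, ContinuousMap.smul_apply, smul_eq_mul]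
  have hJθ := mul_nonneg hθ hJ
  nlinarith [hJθ]

private theorem det_mono_kap_aux (hκ : Pos κ) (h1 : 0 < κ 1) (hg : R.IsGreen κ ∅ g)
    (hx : NoCross a b e1 e2) (z : ℕ → X) {t : ℝ} (ht : 0 ≤ t) (j : ℕ) :
    ∀ g' : X → C(X, ℝ), R.IsGreen (κ + t • ∑ i ∈ Finset.range j, ev (z i)) ∅ g' →
      dd g' a b e1 e2 ≤ dd g a b e1 e2 := by
  have hP : ∀ j : ℕ, Pos (κ + t • ∑ i ∈ Finset.range j, ev (z i)) := by
    intro j f hf
    simp only [LinearMap.add_apply, LinearMap.smul_apply, smul_eq_mul,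
      LinearMap.sum_apply, ev_apply]
    have h1 : 0 ≤ ∑ i ∈ Finset.range j, f (z i) := Finset.sum_nonneg fun i _ => hf (z i)
    have h2 := hκ f hf
    positivity
  have hO : ∀ j : ℕ, 0 < (κ + t • ∑ i ∈ Finset.range j, ev (z i)) 1 := by
    intro j
    simp only [LinearMap.add_apply, LinearMap.smul_apply, smul_eq_mul,
      LinearMap.sum_apply, ev_apply, ContinuousMap.one_apply]
    have h2 : (0:ℝ) ≤ ∑ i ∈ Finset.range j, (1:ℝ) := Finset.sum_nonneg fun i _ => zero_le_one
    have := mul_nonneg ht h2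
    linarith
  induction j with
  | zero =>
    intro g' hg'
    have hgood : Good κ ∅ := ⟨hκ, isClosed_empty, Or.inl h1⟩
    simp only [Finset.range_zero, Finset.sum_empty, smul_zero, add_zero] at hg'
    rw [R.green_unique hgood hg' hg]
  | succ j ih =>
    intro g' hg'
    have hgood : Good (κ + t • ∑ i ∈ Finset.range j, ev (z i)) ∅ :=
      ⟨hP j, isClosed_empty, Or.inl (hO j)⟩
    obtain ⟨g1, hg1⟩ := R.exists_green hgood
    refine le_trans (R.det_mono (hP j) (hO j) hg1 hx ht (z j) ?_) (ih g1 hg1)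
    have e : κ + t • ∑ i ∈ Finset.range j, ev (z i) + t • ev (z j)
        = κ + t • ∑ i ∈ Finset.range (j + 1), ev (z i) := by
      rw [Finset.sum_range_succ, smul_add, add_assoc]
    rw [e]
    exact hg'

theorem det_mono_kap (hκ : Pos κ) (h1 : 0 < κ 1) (hg : R.IsGreen κ ∅ g)
    (hx : NoCross a b e1 e2) (z : ℕ → X) (N : ℕ)
    (hg' : R.IsGreen (kap κ z N) ∅ g') : dd g' a b e1 e2 ≤ dd g a b e1 e2 :=
  R.det_mono_kap_aux hκ h1 hg hx z (Nat.cast_nonneg N) N g' hg'

end RForm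

end CarpetLib
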