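import Pool.Agent.Lib.MP_f3090c_an.R.DetDefs
import Pool.Agent.Lib.MP_f3090c_an.R.Green
import Pool.Agent.Lib.MP_f3090c_an.R.Nodal

/-! A09. -/

open Set Filter Topology

namespace CarpetLib

variable {X : Type*} [TopologicalSpace X] [CompactSpace X] [T2Space X]

namespace RForm
variable (R : RForm X) {κ : C(X, ℝ) →ₗ[ℝ] ℝ} {g g' : X → C(X, ℝ)} {a b e1 e2 : X}

/-- A09 -/
theorem det_nonneg (hκ : Pos κ) (h1 : 0 < κ 1) (hg : R.IsGreen κ ∅ g)
    (hx : NoCross a b e1 e2) : 0 ≤ dd g a b e1 e2 := by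
  by_contra hneg
  push Not at hneg
  have hneg' : g e1 a * g e2 b < g e2 a * g e1 b := by
    have := hneg
    unfold dd at this
    linarith
  have p2a : 0 < g e2 a := R.green_pos' hκ h1 hg a e2
  have p2b : 0 < g e2 b := R.green_pos' hκ h1 hg b e2
  have p1a : 0 < g e1 a := R.green_pos' hκ h1 hg a e1
  have hlt : g e1 a / g e2 a < g e1 b / g e2 b := by
    rw [div_lt_div_iff₀ p2a p2b]
    linarith
  obtain ⟨β, hβ1, hβ2⟩ := exists_between hlt
  have hβ : 0 < β := lt_trans (div_pos p1a p2a) hβ1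
  rw [div_lt_iff₀ p2a] at hβ1
  rw [lt_div_iff₀ p2b] at hβ2
  have hdom : ∀ y, g y ∈ R.dom := fun y => (R.mem_domZ.1 (hg y).1).1
  have hQ : ∀ y, ∀ f ∈ R.dom, R.Q κ (g y) f = f y := fun y f hf =>
    (hg y).2 f (R.mem_domZ.2 ⟨hf, fun z hz => absurd hz (Set.notMem_empty z)⟩)
  have hlin : ∀ (s t : ℝ) (f : C(X, ℝ)), f ∈ R.dom →
      R.Q κ (s • g e1 + t • g e2) f = s * f e1 + t * f e2 := by
    intro s t f hf
    have h1' := hQ e1 f hf
    have h2' := hQ e2 f hf
    unfold Q at h1' h2' ⊢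
    rw [map_add, map_smul, map_smul, add_mul, smul_mul_assoc, smul_mul_assoc, map_add, map_smul,
      map_smul]
    simp only [LinearMap.add_apply, LinearMap.smul_apply, smul_eq_mul]
    rw [← h1', ← h2']
    ring
  have hmem : ∀ (s t : ℝ), s • g e1 + t • g e2 ∈ R.dom := fun s t =>
    R.dom.add_mem (R.dom.smul_mem s (hdom e1)) (R.dom.smul_mem t (hdom e2))
  -- the positive part
  obtain ⟨i, hi, C', hC'c, hC'p, hC's, hbC', hsC'⟩ := R.nodal hκ h1 (hmem 1 (-β))
    ![(1 : ℝ), -β] ![e1, e2] (by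
      intro f hf
      rw [hlin 1 (-β) f hf]
      simp [Fin.sum_univ_two]) (y := b) (by
      show 0 < 1 * g e1 b + (-β) * g e2 b
      linarith)
  obtain ⟨j, hj, C, hCc, hCp, hCs, haC, hsC⟩ := R.nodal hκ h1 (hmem (-1) β)
    ![(-1 : ℝ), β] ![e1, e2] (by
      intro f hf
      rw [hlin (-1) β f hf]
      simp [Fin.sum_univ_two]) (y := a) (by
      show 0 < (-1) * g e1 a + β * g e2 a
      linarith)
  have hi0 : i = 0 := by
    fin_cases i
    · rfl
    · exfalso
      have : (0 : ℝ) < -β := hi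
      linarith
  have hj1 : j = 1 := by
    fin_cases j
    · exfalso
      have : (0 : ℝ) < -1 := hj
      linarith
    · rfl
  subst hi0 hj1
  obtain ⟨x, hxC, hxC'⟩ := hx C C' hCc hCp hC'c hC'p haC hsC hbC' hsC'
  have e1' : 0 < 1 * g e1 x + (-β) * g e2 x := hC's hxC'
  have e2' : 0 < (-1) * g e1 x + β * g e2 x := hCs hxC
  linarith

end RForm

end CarpetLib
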