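import Pool.Agent.Lib.MP_f3090c_an.R.Defs

/-! definitions for the 2×2 determinants. -/

open Set Filter Topology

namespace CarpetLib

variable {X : Type*} [TopologicalSpace X] [CompactSpace X] [T2Space X]

/-- crossing property: a continuum through `a, e2` meets every continuum through `b, e1` -/
def NoCross (a b e1 e2 : X) : Prop :=
  ∀ C C' : Set X, IsCompact C → IsPreconnected C → IsCompact C' → IsPreconnected C' →
    a ∈ C → e2 ∈ C → b ∈ C' → e1 ∈ C' → (C ∩ C').Nonempty

/-- `G(a,e1) G(b,e2) - G(a,e2) G(b,e1)` -/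
def dd (g : X → C(X, ℝ)) (a b e1 e2 : X) : ℝ := g e1 a * g e2 b - g e2 a * g e1 b

end CarpetLib
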