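import Pool.Agent.Lib.MP_f3090c_an.R.Det
import Pool.Agent.Lib.MP_f3090c_an.R.Glue

/-! A12: strict positivity of the determinant. -/

open Set Filter Topology

namespace CarpetLib

variable {X : Type*} [MetricSpace X] [CompactSpace X]

private theorem detPos_seq {Z : Set X} (hZ : IsClosed Z) (hne : Z.Nonempty) :
    ∃ z : ℕ → X, Z = closure (range z) := by
  have : Nonempty Z := hne.to_subtype
  obtain ⟨u, hu⟩ := TopologicalSpace.exists_dense_seq Z
  refine ⟨fun n => (u n : X), ?_⟩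
  have h1 : range (fun n => (u n : X)) = Subtype.val '' range u := by
    rw [← range_comp]; rfl
  rw [h1, hZ.isClosedEmbedding_subtypeVal.closure_image_eq, hu.closure_range, image_univ,
    Subtype.range_coe]

namespace RForm
variable (R : RForm X) {κ : C(X, ℝ) →ₗ[ℝ] ℝ} {g : X → C(X, ℝ)} {a b e1 e2 : X}

theorem det_pos (hκ : Pos κ) (h1 : 0 < κ 1) (hg : R.IsGreen κ ∅ g)
    (hx : NoCross a b e1 e2) {C1 C2 : Set X} (hc1 : IsCompact C1) (hp1 : IsPreconnected C1)
    (hc2 : IsCompact C2) (hp2 : IsPreconnected C2) (hd : Disjoint C1 C2)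
    (ha : a ∈ C1) (he1 : e1 ∈ C1) (hb : b ∈ C2) (he2 : e2 ∈ C2) :
    0 < dd g a b e1 e2 := by
  obtain ⟨N1, N2, hN1, hN2, hC1, hC2, hN⟩ := SeparatedNhds.of_isCompact_isCompact hc1 hc2 hd
  have hZc : IsClosed ((N1 ∪ N2)ᶜ) := (hN1.union hN2).isClosed_compl
  have hZne : ((N1 ∪ N2)ᶜ).Nonempty := by
    rw [Set.nonempty_iff_ne_empty]
    intro he
    have hu : N1 ∪ N2 = univ := Set.compl_empty_iff.1 he
    obtain ⟨x, _, hx1, hx2⟩ := R.preconnected N1 N2 hN1 hN2 (by rw [hu])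
      ⟨a, mem_univ a, hC1 ha⟩ ⟨b, mem_univ b, hC2 hb⟩
    exact (Set.disjoint_left.1 hN) hx1 hx2
  obtain ⟨z, hz⟩ := detPos_seq hZc hZne
  have hGN : ∀ N : ℕ, ∃ gN, R.IsGreen (kap κ z N) ∅ gN := by
    intro N
    refine R.exists_green ⟨kap_pos hκ z N, isClosed_empty, Or.inl ?_⟩
    rcases Nat.eq_zero_or_pos N with h | h
    · subst h
      simp only [kap, Nat.cast_zero, zero_smul, add_zero]
      exact h1
    · exact kap_one_pos hκ z h
  choose gN hgN using hGN
  have hGood : Good κ ((N1 ∪ N2)ᶜ) := ⟨hκ, hZc, Or.inl h1⟩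
  obtain ⟨G, hG⟩ := R.exists_green hGood
  have hlim : ∀ y x, Tendsto (fun N => gN N y x) atTop (𝓝 (G y x)) := by
    intro y x
    refine (R.approx hκ z hz (ev y) ⟨1, fun f => ?_⟩ (fun N => gN N y) (fun N _ => ?_)
      (hG y).1 (fun f hf => (hG y).2 f hf)).2 x
    · rw [ev_apply, one_mul]
      exact f.norm_coe_le_norm y
    · refine ⟨(hgN N y).1.1, fun f hf => ?_⟩
      exact (hgN N y).2 f ⟨hf, fun z hz => absurd hz (Set.notMem_empty z)⟩
  have hdd : Tendsto (fun N => dd (gN N) a b e1 e2) atTop (𝓝 (dd G a b e1 e2)) := by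
    unfold dd
    exact ((hlim e1 a).mul (hlim e2 b)).sub ((hlim e2 a).mul (hlim e1 b))
  have hle : dd G a b e1 e2 ≤ dd g a b e1 e2 :=
    le_of_tendsto' hdd (fun N => R.det_mono_kap hκ h1 hg hx z N (hgN N))
  have hfr : ∀ x ∈ frontier N1, x ∈ (N1 ∪ N2)ᶜ := by
    intro x hx
    rw [hN1.frontier_eq] at hx
    have h3 : Disjoint (closure N1) N2 := hN.closure_left hN2
    rintro (h | h)
    · exact hx.2 h
    · exact (Set.disjoint_left.1 h3) hx.1 h
  have hzero : G e2 a = 0 := by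
    obtain ⟨F, hF1, hF2⟩ := exists_cut hN1 (G e2) (fun x hx => (hG e2).1.2 x (hfr x hx))
    obtain ⟨hFd, hFE⟩ := R.glue hN1 (hG e2).1.1 (fun x hx => (hG e2).1.2 x (hfr x hx)) hF1 hF2
    have hFZ : F ∈ R.domZ ((N1 ∪ N2)ᶜ) :=
      ⟨hFd, fun x hx => hF2 x (fun h => hx (Or.inl h))⟩
    have h4 : R.Q κ (G e2) F = F e2 := (hG e2).2 F hFZ
    have h5 : F e2 = 0 := hF2 e2 (fun h => (Set.disjoint_left.1 hN) h (hC2 he2))
    have h6 : F * (G e2 - F) = 0 := by
      ext x
      simp only [ContinuousMap.mul_apply, ContinuousMap.sub_apply, ContinuousMap.zero_apply]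
      by_cases hx : x ∈ N1
      · rw [hF1 x hx]; ring
      · rw [hF2 x hx]; ring
    have h7 : R.Q κ F (G e2 - F) = 0 := by
      unfold Q
      rw [hFE, h6, map_zero, add_zero]
    have h8 : R.Q κ F F = 0 := by
      have e : R.Q κ (G e2) F = R.Q κ F F + R.Q κ F (G e2 - F) := by
        rw [R.Q_sub_right, R.Q_symm κ (G e2) F]; ring
      rw [h4, h5, h7] at e
      linarith
    have h9 : F = 0 := R.eq_zero_of_Q hGood hFZ h8.le
    rw [← hF1 a (hC1 ha), h9]
    rfl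
  have hp : 0 < G e1 a := R.green_pos hGood hG hp1 (by
    rw [Set.disjoint_left]
    intro x hx hx'
    exact hx' (Or.inl (hC1 hx))) ha he1
  have hq : 0 < G e2 b := R.green_pos hGood hG hp2 (by
    rw [Set.disjoint_left]
    intro x hx hx'
    exact hx' (Or.inr (hC2 hx))) hb he2
  have hfin : 0 < dd G a b e1 e2 := by
    unfold dd
    rw [hzero, zero_mul, sub_zero]
    exact mul_pos hp hq
  exact hfin.trans_le hle

end RForm

end CarpetLib
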