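import Pool.Agent.Lib.MP_f3090c_an.R.Riesz

/-! A05: Green functions, basic properties. -/

open Set Filter Topology

namespace CarpetLib

variable {X : Type*} [TopologicalSpace X] [CompactSpace X]

namespace RForm
variable (R : RForm X) {κ : C(X, ℝ) →ₗ[ℝ] ℝ} {Z : Set X} {g : X → C(X, ℝ)}

theorem exists_green (h : Good κ Z) : ∃ g, R.IsGreen κ Z g := by
  obtain ⟨C, _, hC⟩ := R.coercive (κ := κ) (Z := Z) h
  have hr : ∀ y : X, ∃ v ∈ R.domZ Z, ∀ f ∈ R.domZ Z, R.Q κ v f = ev y f :=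
    fun y => R.riesz h (ev y) ⟨C, fun f hf => hC f hf y⟩
  choose g hg using hr
  exact ⟨g, fun y => ⟨(hg y).1, fun f hf => (hg y).2 f hf⟩⟩

theorem green_symm (hg : R.IsGreen κ Z g) (x y : X) : g x y = g y x := by
  rw [← (hg y).2 (g x) (hg x).1, ← (hg x).2 (g y) (hg y).1, R.Q_symm]

private theorem green1_pos_mem {w : C(X, ℝ)} (hw : w ∈ R.domZ Z) : w ⊔ 0 ∈ R.domZ Z := by
  refine ⟨R.sup_mem hw.1 R.dom.zero_mem, fun z hz => ?_⟩
  rw [ContinuousMap.sup_apply, hw.2 z hz]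
  simp

private theorem green1_neg_mem {w : C(X, ℝ)} (hw : w ∈ R.domZ Z) : (-w) ⊔ 0 ∈ R.domZ Z :=
  R.green1_pos_mem ((R.domZ Z).neg_mem hw)

omit [CompactSpace X] in
private theorem green1_split (w : C(X, ℝ)) : w = w ⊔ 0 - (-w) ⊔ 0 := by
  ext x
  simp only [ContinuousMap.sub_apply, ContinuousMap.sup_apply, ContinuousMap.neg_apply,
    ContinuousMap.zero_apply]
  rcases le_total 0 (w x) with h | h
  · rw [sup_eq_left.2 h, sup_eq_right.2 (by linarith)]; ring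
  · rw [sup_eq_right.2 h, sup_eq_left.2 (by linarith)]; ring

omit [CompactSpace X] in
private theorem green1_disj (w : C(X, ℝ)) (x : X) : (w ⊔ 0) x = 0 ∨ ((-w) ⊔ 0) x = 0 := by
  simp only [ContinuousMap.sup_apply, ContinuousMap.neg_apply, ContinuousMap.zero_apply]
  rcases le_total 0 (w x) with h | h
  · right; exact sup_eq_right.2 (by linarith)
  · left; exact sup_eq_right.2 h

private theorem green1_nonneg (h : Good κ Z) {w : C(X, ℝ)} (hw : w ∈ R.domZ Z)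
    (h0 : 0 ≤ R.Q κ w ((-w) ⊔ 0)) (x : X) : 0 ≤ w x := by
  have hp := R.green1_pos_mem hw
  have hn := R.green1_neg_mem hw
  have e1 : R.Q κ w ((-w) ⊔ 0) =
      R.Q κ (w ⊔ 0) ((-w) ⊔ 0) - R.Q κ ((-w) ⊔ 0) ((-w) ⊔ 0) := by
    conv_lhs => rw [green1_split w]
    rw [R.Q_sub_left]
    have : -(w ⊔ 0 - (-w) ⊔ 0) = -w := by rw [← green1_split w]
    rw [this]
  have e2 : R.Q κ (w ⊔ 0) ((-w) ⊔ 0) ≤ 0 := by
    have hz : (w ⊔ 0) * ((-w) ⊔ 0) = 0 := by
      ext y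
      rw [ContinuousMap.mul_apply, ContinuousMap.zero_apply]
      exact mul_eq_zero.2 (green1_disj w y)
    rw [Q, hz, map_zero, add_zero]
    exact R.E_disj_nonpos hp.1 hn.1 le_sup_right le_sup_right (green1_disj w)
  have e3 : (-w) ⊔ 0 = 0 := R.eq_zero_of_Q h hn (by linarith)
  have e4 : ((-w) ⊔ 0 : C(X, ℝ)) x = 0 := by rw [e3]; rfl
  simp only [ContinuousMap.sup_apply, ContinuousMap.neg_apply, ContinuousMap.zero_apply] at e4
  have : -w x ≤ 0 := le_sup_left.trans e4.le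
  linarith

theorem green_nonneg (h : Good κ Z) (hg : R.IsGreen κ Z g) (x y : X) : 0 ≤ g y x := by
  refine R.green1_nonneg h (hg y).1 ?_ x
  rw [(hg y).2 _ (R.green1_neg_mem (hg y).1)]
  exact le_sup_right (a := (-(g y)) y) (b := (0 : ℝ))

theorem green_le_diag (h : Good κ Z) (hg : R.IsGreen κ Z g) (x y : X) : g y x ≤ g y y := by
  set c : ℝ := g y y with hc
  have hc0 : 0 ≤ c := R.green_nonneg h hg y y
  set u : C(X, ℝ) := g y - ContinuousMap.const X c with hu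
  have hud : u ∈ R.dom := R.dom.sub_mem (hg y).1.1 (R.const_mem c)
  have hpd : u ⊔ 0 ∈ R.dom := R.sup_mem hud R.dom.zero_mem
  have hnd : (-u) ⊔ 0 ∈ R.dom := R.sup_mem (R.dom.neg_mem hud) R.dom.zero_mem
  have hpZ : u ⊔ 0 ∈ R.domZ Z := by
    refine ⟨hpd, fun z hz => ?_⟩
    rw [ContinuousMap.sup_apply, hu, ContinuousMap.sub_apply, (hg y).1.2 z hz]
    simp only [ContinuousMap.const_apply, zero_sub, ContinuousMap.zero_apply]
    exact sup_eq_right.2 (by linarith)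
  have hy : (u ⊔ 0) y = 0 := by
    rw [ContinuousMap.sup_apply, hu, ContinuousMap.sub_apply]
    simp [hc]
  have h1 : R.Q κ (g y) (u ⊔ 0) = 0 := by rw [(hg y).2 _ hpZ, hy]
  have h2 : R.E (g y) (u ⊔ 0) = R.E u (u ⊔ 0) := by
    rw [hu, map_sub, LinearMap.sub_apply, R.E_const_left, sub_zero]
  have h3 : R.E u (u ⊔ 0) = R.E (u ⊔ 0) (u ⊔ 0) - R.E ((-u) ⊔ 0) (u ⊔ 0) := by
    rw [← LinearMap.sub_apply, ← map_sub, ← green1_split u]
  have h4 : R.E ((-u) ⊔ 0) (u ⊔ 0) ≤ 0 :=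
    R.E_disj_nonpos hnd hpd le_sup_right le_sup_right (fun x => (green1_disj u x).symm)
  have h5 : 0 ≤ κ (g y * (u ⊔ 0)) := by
    refine h.1 _ (fun z => ?_)
    exact mul_nonneg (R.green_nonneg h hg z y) (le_sup_right (a := u z) (b := (0 : ℝ)))
  have h6 : R.E (u ⊔ 0) (u ⊔ 0) = 0 := by
    refine le_antisymm ?_ (R.nonneg _)
    rw [Q, h2, h3] at h1
    linarith
  have h7 := R.const_of_zero _ hpd h6 x y
  rw [hy] at h7
  have h8 : u x ≤ 0 := (le_sup_left (a := u x) (b := (0 : ℝ))).trans h7.le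
  rw [hu, ContinuousMap.sub_apply, ContinuousMap.const_apply] at h8
  linarith

/-- `G(x,y) G(y,z) ≤ G(x,z) G(y,y)` -/
theorem green_trans (h : Good κ Z) (hg : R.IsGreen κ Z g) (x y z : X) :
    g y x * g z y ≤ g z x * g y y := by
  set w : C(X, ℝ) := (g y y) • g z - (g z y) • g y with hw
  have hwZ : w ∈ R.domZ Z :=
    (R.domZ Z).sub_mem ((R.domZ Z).smul_mem _ (hg z).1) ((R.domZ Z).smul_mem _ (hg y).1)
  have hwy : w y = 0 := by
    rw [hw, ContinuousMap.sub_apply, ContinuousMap.smul_apply, ContinuousMap.smul_apply,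
      smul_eq_mul, smul_eq_mul]
    ring
  have hn := R.green1_neg_mem hwZ
  have h1 : R.Q κ w ((-w) ⊔ 0) = g y y * ((-w) ⊔ 0) z - g z y * ((-w) ⊔ 0) y := by
    conv_lhs => rw [show w = (g y y) • g z - (g z y) • g y from hw]
    rw [R.Q_sub_left, R.Q_smul_left, R.Q_smul_left, ← hw, (hg z).2 _ hn, (hg y).2 _ hn]
  have h2 : ((-w) ⊔ 0) y = 0 := by
    rw [ContinuousMap.sup_apply, ContinuousMap.neg_apply, hwy]; simp
  have h3 : 0 ≤ R.Q κ w ((-w) ⊔ 0) := by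
    rw [h1, h2, mul_zero, sub_zero]
    exact mul_nonneg (R.green_nonneg h hg y y) (le_sup_right (a := (-w) z) (b := (0 : ℝ)))
  have h4 := R.green1_nonneg h hwZ h3 x
  rw [hw, ContinuousMap.sub_apply, ContinuousMap.smul_apply, ContinuousMap.smul_apply,
    smul_eq_mul, smul_eq_mul] at h4
  linarith

end RForm

end CarpetLib
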