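import Pool.Agent.Lib.MP_f3090c_an.R.Basic

/-! A15: quotient forms. -/

open Set Filter Topology

namespace CarpetLib

variable {X Y : Type*} [TopologicalSpace X] [CompactSpace X] [TopologicalSpace Y] [CompactSpace Y]

namespace RForm

/-- precomposition as a linear map -/
private def quotL (π : C(X, Y)) : C(Y, ℝ) →ₗ[ℝ] C(X, ℝ) where
  toFun f := f.comp π
  map_add' _ _ := rfl
  map_smul' _ _ := rfl

omit [CompactSpace X] [CompactSpace Y] in
private theorem quot_tsupport (π : C(X, Y)) (f : C(Y, ℝ)) :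
    tsupport (f.comp π) ⊆ π ⁻¹' tsupport f := by
  refine closure_minimal ?_ ((isClosed_tsupport f).preimage π.continuous)
  intro x hx
  exact subset_tsupport f hx

/-- If `ι : Y → X` is a section of `π : X → Y` and `f ↦ f ∘ ι ∘ π` preserves the domain, the form
descends to `Y`. -/
theorem exists_quot (R : RForm X) (π : C(X, Y)) (ι : C(Y, X)) (hπι : ∀ y, π (ι y) = y) {c : ℝ}
    (hc : 0 < c) (hfold : ∀ f ∈ R.dom, (f.comp ι).comp π ∈ R.dom) :
    ∃ S : RForm Y, (∀ f : C(Y, ℝ), f ∈ S.dom ↔ f.comp π ∈ R.dom) ∧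
      ∀ f g, S.E f g = c * R.E (f.comp π) (g.comp π) := by
  obtain ⟨R0, hR0, hb⟩ := R.bound
  refine ⟨{
    dom := R.dom.comap (quotL π)
    E := c • (R.E.compl₁₂ (quotL π) (quotL π))
    symm := ?_
    nonneg := ?_
    one_mem := ?_
    E_one := ?_
    const_of_zero := ?_
    bound := ?_
    complete := ?_
    markov := ?_
    dense := ?_
    loc := ?_ }, fun f => Iff.rfl, fun f g => rfl⟩
  · intro f g
    show c * R.E (quotL π f) (quotL π g) = c * R.E (quotL π g) (quotL π f)
    rw [R.symm]
  · intro f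
    exact mul_nonneg hc.le (R.nonneg _)
  · exact R.one_mem
  · show c * R.E 1 1 = 0
    rw [R.E_one, mul_zero]
  · intro f hf h0 x y
    have h1 : c * R.E (quotL π f) (quotL π f) = 0 := h0
    have h2 : R.E (quotL π f) (quotL π f) = 0 := (mul_eq_zero.mp h1).resolve_left hc.ne'
    have h3 := R.const_of_zero (quotL π f) hf h2 (ι x) (ι y)
    have h4 : f (π (ι x)) = f (π (ι y)) := h3
    rwa [hπι, hπι] at h4
  · refine ⟨R0 / c, by positivity, fun f hf x y => ?_⟩
    have h1 := hb (quotL π f) hf (ι x) (ι y)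
    have h2 : (f (π (ι x)) - f (π (ι y))) ^ 2 ≤ R0 * R.E (quotL π f) (quotL π f) := h1
    rw [hπι, hπι] at h2
    show (f x - f y) ^ 2 ≤ R0 / c * (c * R.E (quotL π f) (quotL π f))
    have h3 : R0 / c * (c * R.E (quotL π f) (quotL π f)) =
        R0 * R.E (quotL π f) (quotL π f) := by
      field_simp
    rw [h3]
    exact h2
  · intro u hu hC
    have hC' : ∀ ε > 0, ∃ N, ∀ m ≥ N, ∀ n ≥ N,
        R.E (quotL π (u m) - quotL π (u n)) (quotL π (u m) - quotL π (u n)) < ε := by
      intro ε hε
      obtain ⟨N, hN⟩ := hC (c * ε) (by positivity)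
      refine ⟨N, fun m hm n hn => ?_⟩
      have h1 : c * R.E (quotL π (u m - u n)) (quotL π (u m - u n)) < c * ε := hN m hm n hn
      rw [map_sub] at h1
      exact lt_of_mul_lt_mul_left h1 hc.le
    obtain ⟨F, hF, hT⟩ := R.complete (fun n => quotL π (u n)) hu hC'
    have hFpq : ∀ p q, π p = π q → F p = F q := by
      intro p q hpq
      have h1 : ∀ n, (F q - F p) ^ 2 ≤ R0 * R.E (quotL π (u n) - F) (quotL π (u n) - F) := by
        intro n
        have h2 := hb (quotL π (u n) - F) (R.dom.sub_mem (hu n) hF) p q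
        have h3 : (quotL π (u n) - F) p - (quotL π (u n) - F) q = F q - F p := by
          show (u n) (π p) - F p - ((u n) (π q) - F q) = F q - F p
          rw [hpq]
          ring
        rwa [h3] at h2
      have h4 : Tendsto (fun n => R0 * R.E (quotL π (u n) - F) (quotL π (u n) - F)) atTop
          (𝓝 (R0 * 0)) := hT.const_mul R0
      rw [mul_zero] at h4
      have h5 : (F q - F p) ^ 2 ≤ 0 := ge_of_tendsto' h4 h1
      have h6 : F q - F p = 0 := by
        have := le_antisymm h5 (sq_nonneg _)
        exact pow_eq_zero_iff (two_ne_zero) |>.1 this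
      linarith
    have hL : quotL π (F.comp ι) = F := by
      ext x
      show F (ι (π x)) = F x
      exact hFpq _ _ (hπι (π x))
    refine ⟨F.comp ι, ?_, ?_⟩
    · show quotL π (F.comp ι) ∈ R.dom
      rw [hL]
      exact hF
    · have h4 : Tendsto (fun n => c * R.E (quotL π (u n) - F) (quotL π (u n) - F)) atTop
          (𝓝 (c * 0)) := hT.const_mul c
      rw [mul_zero] at h4
      refine h4.congr fun n => ?_
      show _ = c * R.E (quotL π (u n - F.comp ι)) (quotL π (u n - F.comp ι))
      have h6 : quotL π (u n - F.comp ι) = quotL π (u n) - F := by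
        rw [map_sub, hL]
      rw [h6]
  · intro f hf φ hφ
    obtain ⟨h1, h2⟩ := R.markov (quotL π f) hf φ hφ
    exact ⟨h1, mul_le_mul_of_nonneg_left h2 hc.le⟩
  · have hcont : Continuous (fun g : C(X, ℝ) => g.comp ι) := ContinuousMap.continuous_precomp ι
    have hsurj : Function.Surjective (fun g : C(X, ℝ) => g.comp ι) := by
      intro φ
      refine ⟨φ.comp π, ?_⟩
      ext y
      show φ (π (ι y)) = φ y
      rw [hπι]
    have hd := hsurj.denseRange.dense_image hcont R.dense
    refine hd.mono ?_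
    rintro _ ⟨f, hf, rfl⟩
    exact hfold f hf
  · intro f g hfg hdis
    have h1 : quotL π f + quotL π g ∈ R.dom := by
      rw [← map_add]
      exact hfg
    have h2 : Disjoint (tsupport (quotL π f)) (tsupport (quotL π g)) :=
      (hdis.preimage π).mono (quot_tsupport π f) (quot_tsupport π g)
    obtain ⟨h3, h4, h5⟩ := R.loc (quotL π f) (quotL π g) h1 h2
    refine ⟨h3, h4, ?_⟩
    show c * R.E (quotL π f) (quotL π g) = 0
    rw [h5, mul_zero]

end RForm

end CarpetLib
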