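import Pool.Agent.Lib.MP_f3090c_an.R.MirDefs
import Pool.Agent.Lib.MP_f3090c_an.R.Quot
import Pool.Agent.Lib.MP_f3090c_an.R.Glue

/-! A19abc: folding. -/

open Set Filter Topology

namespace CarpetLib

variable {X Y : Type*} [TopologicalSpace X] [CompactSpace X] [TopologicalSpace Y] [CompactSpace Y]

namespace RForm
variable (R : RForm X) (T : Mir X Y)

/-- A19a: folding preserves the domain -/
theorem half_fold (hI : R.Inv T.σ) {f : C(X, ℝ)} (hf : f ∈ R.dom) :
    (f.comp T.ι).comp T.π ∈ R.dom := by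
  set O' : Set X := T.σ ⁻¹' T.O with hO'
  have hO'open : IsOpen O' := T.openO.preimage T.σ.continuous
  set g : C(X, ℝ) := f.comp T.σ - f with hg
  have hgd : g ∈ R.dom := R.dom.sub_mem (hI.1 f hf) hf
  have hfix : ∀ x ∈ frontier O', T.σ x = x := by
    intro x hx
    have h1 : T.σ x ∈ frontier T.O := T.σ.continuous.frontier_preimage_subset T.O hx
    have h2 := T.fr _ h1
    rw [T.inv] at h2
    exact h2.symm
  have hgfr : ∀ x ∈ frontier O', g x = 0 := by
    intro x hx
    simp [hg, hfix x hx]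
  obtain ⟨k, hk1, hk0⟩ := exists_cut hO'open g hgfr
  have hkd : k ∈ R.dom := (R.glue hO'open hgd hgfr hk1 hk0).1
  have hdisj' : ∀ x, T.σ x = x → x ∉ O' := by
    intro x hx hx'
    have h1 : T.σ x ∈ T.O := hx'
    exact T.disj _ h1 (by rw [T.inv, ← hx]; exact h1)
  have heq : (f.comp T.ι).comp T.π = f + k := by
    ext x
    simp only [ContinuousMap.comp_apply, ContinuousMap.add_apply]
    rcases T.cover x with hx | hx | hx
    · have h1 : x ∉ O' := fun h => T.disj x hx h
      rw [T.ιπO x hx, hk0 x h1, add_zero]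
    · have h1 : x ∈ O' := hx
      have h2 : T.ι (T.π x) = T.σ x := by
        rw [← T.πσ x, T.ιπO _ hx]
      rw [h2, hk1 x h1]
      simp [hg]
    · rw [T.ιπfix x hx, hk0 x (hdisj' x hx), add_zero]
  rw [heq]
  exact R.dom.add_mem hf hkd

/-- A19b: the quotient form -/
theorem exists_half (hI : R.Inv T.σ) :
    ∃ S : RForm Y, (∀ f : C(Y, ℝ), f ∈ S.dom ↔ f.comp T.π ∈ R.dom) ∧
      ∀ f g, S.E f g = (1 / 2) * R.E (f.comp T.π) (g.comp T.π) :=
  exists_quot R T.π T.ι T.πι (by norm_num) fun _ hf => half_fold R T hI hf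

/-- A19c: a potential supported on one side of the mirror descends to the quotient -/
theorem half_potential (hI : R.Inv T.σ) {S : RForm Y}
    (hS : ∀ f : C(Y, ℝ), f ∈ S.dom ↔ f.comp T.π ∈ R.dom)
    (hSE : ∀ f g, S.E f g = (1 / 2) * R.E (f.comp T.π) (g.comp T.π))
    {u : C(X, ℝ)} (hu : u ∈ R.dom) (hu0 : ∀ z, z ∉ T.O → u z = 0) {x x' : Y}
    (hux : ∀ f ∈ R.dom, R.E u f = f (T.ι x) - f (T.ι x')) :
    u.comp T.ι ∈ S.dom ∧ ∀ f ∈ S.dom, S.E (u.comp T.ι) f = f x - f x' := by
  have heq : (u.comp T.ι).comp T.π = u + u.comp T.σ := by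
    ext z
    simp only [ContinuousMap.comp_apply, ContinuousMap.add_apply]
    rcases T.cover z with hz | hz | hz
    · rw [T.ιπO z hz, hu0 _ (T.disj z hz), add_zero]
    · have h2 : T.ι (T.π z) = T.σ z := by
        rw [← T.πσ z, T.ιπO _ hz]
      have h3 : z ∉ T.O := fun h => T.disj z h hz
      rw [h2, hu0 z h3, zero_add]
    · have h3 : z ∉ T.O := fun h => T.disj z h (by rw [hz]; exact h)
      rw [T.ιπfix z hz, hz, hu0 z h3, add_zero]
  have husd : u.comp T.σ ∈ R.dom := hI.1 u hu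
  refine ⟨?_, ?_⟩
  · rw [hS, heq]
    exact R.dom.add_mem hu husd
  · intro f hf
    have hfπ : f.comp T.π ∈ R.dom := (hS f).1 hf
    have hinv : (f.comp T.π).comp T.σ = f.comp T.π := by
      ext z
      simp only [ContinuousMap.comp_apply]
      rw [T.πσ]
    have h1 : R.E (u.comp T.σ) (f.comp T.π) = R.E u (f.comp T.π) := by
      have h2 := hI.2 u hu (f.comp T.π) hfπ
      rwa [hinv] at h2
    have h3 := hux (f.comp T.π) hfπ
    simp only [ContinuousMap.comp_apply, T.πι] at h3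
    rw [hSE, heq, map_add, LinearMap.add_apply, h1, h3]
    ring

end RForm

end CarpetLib
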