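import Pool.Agent.Lib.MP_f3090c_an.R.Defs

/-! killing at many points. -/

open Set Filter Topology

namespace CarpetLib

variable {X : Type*} [TopologicalSpace X] [CompactSpace X]

/-- `κ + N · (δ_{z 0} + ... + δ_{z (N-1)})` -/
def kap (κ : C(X, ℝ) →ₗ[ℝ] ℝ) (z : ℕ → X) (N : ℕ) : C(X, ℝ) →ₗ[ℝ] ℝ :=
  κ + (N : ℝ) • ∑ i ∈ Finset.range N, ev (z i)

theorem kap_pos {κ : C(X, ℝ) →ₗ[ℝ] ℝ} (hκ : Pos κ) (z : ℕ → X) (N : ℕ) : Pos (kap κ z N) := by
  intro f hf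
  simp only [kap, LinearMap.add_apply, LinearMap.smul_apply, smul_eq_mul,
    LinearMap.sum_apply, ev_apply]
  have h1 : 0 ≤ ∑ i ∈ Finset.range N, f (z i) := Finset.sum_nonneg fun i _ => hf (z i)
  have h2 := hκ f hf
  positivity

theorem kap_one_pos {κ : C(X, ℝ) →ₗ[ℝ] ℝ} (hκ : Pos κ) (z : ℕ → X) {N : ℕ} (hN : 1 ≤ N) :
    0 < kap κ z N 1 := by
  simp only [kap, LinearMap.add_apply, LinearMap.smul_apply, smul_eq_mul,
    LinearMap.sum_apply, ev_apply, ContinuousMap.one_apply]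
  have h2 := hκ 1 (fun _ => zero_le_one)
  have h3 : (0:ℝ) < N := by exact_mod_cast hN
  simp only [Finset.sum_const, Finset.card_range, nsmul_eq_mul, mul_one]
  positivity

end CarpetLib
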