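import Pool.Agent.Lib.MP_f3090c_an.R.SoftDef

/-! A02a: soft thresholds. -/

open Set Filter Topology

namespace CarpetLib

variable {X : Type*} [TopologicalSpace X] [CompactSpace X]

private theorem soft_clamp (e : ℝ) {x y : ℝ} (h : x ≤ y) :
    0 ≤ max (-e) (min e y) - max (-e) (min e x) ∧
      max (-e) (min e y) - max (-e) (min e x) ≤ y - x := by
  simp only [max_def, min_def]
  split_ifs <;> constructor <;> linarith

private theorem soft_lip1 (e : ℝ) : LipschitzWith 1 (softC e) := by
  apply LipschitzWith.of_dist_le_mul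
  intro x y
  rw [NNReal.coe_one, one_mul, Real.dist_eq, Real.dist_eq]
  simp only [softC, ContinuousMap.coe_mk]
  rcases le_total x y with h | h
  · have h1 := soft_clamp e h
    rw [abs_of_nonpos (by linarith : x - y ≤ 0), abs_of_nonpos (by linarith)]
    linarith
  · have h1 := soft_clamp e h
    rw [abs_of_nonneg (by linarith : 0 ≤ x - y), abs_of_nonneg (by linarith)]
    linarith

private def softD (e : ℝ) : C(ℝ, ℝ) := ⟨fun t => 2 * max (-e) (min e t) - t, by fun_prop⟩

private theorem soft_lip2 (e : ℝ) : LipschitzWith 1 (softD e) := by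
  apply LipschitzWith.of_dist_le_mul
  intro x y
  rw [NNReal.coe_one, one_mul, Real.dist_eq, Real.dist_eq]
  simp only [softD, ContinuousMap.coe_mk]
  rcases le_total x y with h | h
  · have h1 := soft_clamp e h
    rw [abs_of_nonpos (by linarith : x - y ≤ 0)]
    rw [abs_le]; constructor <;> linarith
  · have h1 := soft_clamp e h
    rw [abs_of_nonneg (by linarith : 0 ≤ x - y)]
    rw [abs_le]; constructor <;> linarith

private theorem soft_comp {a b : ℝ} (ha : 0 ≤ a) (hab : a ≤ b) (t : ℝ) :
    softC b t = softC (b - a) (softC a t) := by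
  simp only [softC, ContinuousMap.coe_mk, max_def, min_def]
  split_ifs <;> linarith

namespace RForm
variable (R : RForm X)

theorem soft_mem {g : C(X, ℝ)} (hg : g ∈ R.dom) {ε : ℝ} (hε : 0 ≤ ε) :
    (softC ε).comp g ∈ R.dom := (R.markov g hg (softC ε) (soft_lip1 ε)).1

private theorem soft_split {h : C(X, ℝ)} (hh : h ∈ R.dom) (d : ℝ) :
    R.E (h - (softC d).comp h) (h - (softC d).comp h) + R.E ((softC d).comp h) ((softC d).comp h)
      ≤ R.E h h := by
  have h1 := (R.markov h hh (softD d) (soft_lip2 d)).2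
  have he : (softD d).comp h = (h - (softC d).comp h) - (softC d).comp h := by
    ext x
    simp only [softD, softC, ContinuousMap.comp_apply, ContinuousMap.coe_mk,
      ContinuousMap.sub_apply]
    ring
  rw [he] at h1
  simp only [map_sub, LinearMap.sub_apply, R.symm ((softC d).comp h) h] at h1 ⊢
  linarith

private theorem soft_split2 {g : C(X, ℝ)} (hg : g ∈ R.dom) {a b : ℝ} (ha : 0 ≤ a) (hab : a ≤ b) :
    R.E ((softC a).comp g - (softC b).comp g) ((softC a).comp g - (softC b).comp g)
      + R.E ((softC b).comp g) ((softC b).comp g) ≤ R.E ((softC a).comp g) ((softC a).comp g) := by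
  have h := R.soft_split (R.soft_mem hg ha) (b - a)
  have he : (softC (b - a)).comp ((softC a).comp g) = (softC b).comp g := by
    ext x
    simp only [ContinuousMap.comp_apply]
    exact (soft_comp ha hab (g x)).symm
  rwa [he] at h

/-- the soft thresholds of `g` converge to `g` in energy -/
theorem soft_tendsto {g : C(X, ℝ)} (hg : g ∈ R.dom) :
    Tendsto (fun n : ℕ => R.E (g - (softC (1 / ((n : ℝ) + 1))).comp g)
      (g - (softC (1 / ((n : ℝ) + 1))).comp g)) atTop (𝓝 0) := by
  set u : ℕ → C(X, ℝ) := fun n => (softC (1 / ((n : ℝ) + 1))).comp g with hu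
  have hpos : ∀ n : ℕ, (0:ℝ) ≤ 1 / ((n:ℝ) + 1) := fun n => by positivity
  have hanti : ∀ m n : ℕ, m ≤ n → (1:ℝ) / ((n:ℝ) + 1) ≤ 1 / ((m:ℝ) + 1) := by
    intro m n hmn
    have : (m:ℝ) ≤ n := by exact_mod_cast hmn
    exact one_div_le_one_div_of_le (by positivity) (by linarith)
  have hmem : ∀ n, u n ∈ R.dom := fun n => R.soft_mem hg (hpos n)
  have key : ∀ m n : ℕ, m ≤ n →
      R.E (u n - u m) (u n - u m) + R.E (u m) (u m) ≤ R.E (u n) (u n) :=
    fun m n hmn => R.soft_split2 hg (hpos n) (hanti m n hmn)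
  have hmono : Monotone (fun n => R.E (u n) (u n)) := by
    intro m n hmn
    have := key m n hmn
    have := R.nonneg (u n - u m)
    simp only
    linarith
  have hbdd : ∀ n, R.E (u n) (u n) ≤ R.E g g := fun n => by
    have := (R.markov g hg (softC (1 / ((n : ℝ) + 1))) (soft_lip1 _)).2
    exact this
  have hconv : Tendsto (fun n => R.E (u n) (u n)) atTop (𝓝 (⨆ n, R.E (u n) (u n))) :=
    tendsto_atTop_ciSup hmono ⟨R.E g g, by rintro _ ⟨n, rfl⟩; exact hbdd n⟩
  have hcau := hconv.cauchySeq
  have hsym : ∀ f h : C(X, ℝ), R.E (f - h) (f - h) = R.E (h - f) (h - f) := by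
    intro f h
    have : f - h = -(h - f) := by abel
    rw [this]
    simp only [map_neg, LinearMap.neg_apply, neg_neg]
  obtain ⟨f, hf, hlim⟩ := R.complete u hmem (by
    intro ε hε
    obtain ⟨N, hN⟩ := Metric.cauchySeq_iff.1 hcau ε hε
    refine ⟨N, fun m hm n hn => ?_⟩
    have hd := hN m hm n hn
    rw [Real.dist_eq] at hd
    rcases le_total m n with hmn | hmn
    · have h1 := key m n hmn
      rw [hsym]
      have h2 := neg_abs_le (R.E (u m) (u m) - R.E (u n) (u n))
      linarith
    · have h1 := key n m hmn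
      have h2 := le_abs_self (R.E (u m) (u m) - R.E (u n) (u n))
      linarith)
  obtain ⟨K, hK, hbd⟩ := R.bound
  have hptw : ∀ x, Tendsto (fun n => u n x) atTop (𝓝 (g x)) := by
    intro x
    rw [tendsto_iff_dist_tendsto_zero]
    refine squeeze_zero (fun n => dist_nonneg) (g := fun n : ℕ => 1 / ((n:ℝ) + 1)) ?_
      tendsto_one_div_add_atTop_nhds_zero_nat
    intro n
    rw [Real.dist_eq]
    simp only [hu, softC, ContinuousMap.comp_apply, ContinuousMap.coe_mk]
    have h0 := hpos n
    have : g x - max (-(1 / ((n:ℝ) + 1))) (min (1 / ((n:ℝ) + 1)) (g x)) - g x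
        = - max (-(1 / ((n:ℝ) + 1))) (min (1 / ((n:ℝ) + 1)) (g x)) := by ring
    rw [this, abs_neg, abs_le]
    exact ⟨le_max_left _ _, max_le (by linarith) (min_le_left _ _)⟩
  have hconst : ∀ x y, (g - f) x = (g - f) y := by
    intro x y
    have h1 : Tendsto (fun n => ((u n - f) x - (u n - f) y) ^ 2) atTop
        (𝓝 (((g - f) x - (g - f) y) ^ 2)) := by
      simp only [ContinuousMap.sub_apply]
      exact (((hptw x).sub_const _).sub ((hptw y).sub_const _)).pow 2
    have h2 : Tendsto (fun n => K * R.E (u n - f) (u n - f)) atTop (𝓝 (K * 0)) :=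
      hlim.const_mul K
    have h3 : ((g - f) x - (g - f) y) ^ 2 ≤ K * 0 :=
      le_of_tendsto_of_tendsto' h1 h2 (fun n => hbd _ (R.dom.sub_mem (hmem n) hf) x y)
    have h4 : ((g - f) x - (g - f) y) ^ 2 = 0 := le_antisymm (by linarith) (sq_nonneg _)
    have h5 := (pow_eq_zero_iff two_ne_zero).1 h4
    linarith
  obtain ⟨c, hc⟩ : ∃ c : ℝ, g - f = ContinuousMap.const X c := by
    rcases isEmpty_or_nonempty X with hX | ⟨⟨x0⟩⟩
    · exact ⟨0, by ext x; exact hX.elim x⟩
    · exact ⟨(g - f) x0, by ext x; exact hconst x x0⟩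
  have hfin : ∀ n, R.E (g - u n) (g - u n) = R.E (u n - f) (u n - f) := by
    intro n
    have : g - u n = ContinuousMap.const X c - (u n - f) := by rw [← hc]; abel
    rw [this]
    simp only [map_sub (R.E) , map_sub (R.E _), LinearMap.sub_apply, R.E_const_left,
      R.E_const_right]
    ring
  simp only [hu] at hfin hlim ⊢
  exact (tendsto_congr hfin).2 hlim

end RForm

/-- the cut-off function is continuous -/
theorem exists_cut {O : Set X} (hO : IsOpen O) (g : C(X, ℝ)) (hfr : ∀ x ∈ frontier O, g x = 0) :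
    ∃ f : C(X, ℝ), (∀ x ∈ O, f x = g x) ∧ ∀ x, x ∉ O → f x = 0 := by
  classical
  refine ⟨⟨fun x => if x ∈ O then g x else 0, ?_⟩, ?_, ?_⟩
  · exact Continuous.if hfr g.continuous continuous_const
  · intro x hx
    simp [hx]
  · intro x hx
    simp [hx]

end CarpetLib
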