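import Pool.Agent.Lib.MP_f3090c_an.R.Basic

/-! soft thresholds. -/

open Set Filter Topology

namespace CarpetLib

/-- soft threshold `t ↦ t - max (-ε) (min ε t)` -/
def softC (ε : ℝ) : C(ℝ, ℝ) := ⟨fun t => t - max (-ε) (min ε t), by fun_prop⟩

end CarpetLib
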