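import Pool.Agent.Lib.MP_f3090c_an.R.MirrorDefs
import Pool.Agent.Lib.MP_f3090c_an.R.DetPos

/-! A14a. -/

open Set Filter Topology

namespace CarpetLib

variable {X : Type*} [MetricSpace X] [CompactSpace X]

namespace RForm
variable (R : RForm X) (M : MirrorData X)

/-- A14a: a function of the domain, harmonic off `{e1, e2}`, strictly monotone along `m`. -/
theorem exists_strictMono :
    ∃ h ∈ R.dom, (∀ x, 0 ≤ h x ∧ h x ≤ 1) ∧
      (∀ a ∈ M.m, ∀ b ∈ M.m, M.θ a < M.θ b → h b < h a) ∧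
      ∀ w ∈ R.dom, w M.e1 = 0 → w M.e2 = 0 → R.E h w = 0 := by
  set κ : C(X, ℝ) →ₗ[ℝ] ℝ := ev M.e1 + ev M.e2 with hκdef
  have hκa : ∀ f : C(X, ℝ), κ f = f M.e1 + f M.e2 := by
    intro f
    rw [hκdef, LinearMap.add_apply, ev_apply, ev_apply]
  have hpos : Pos κ := by
    intro f hf
    rw [hκa]
    exact add_nonneg (hf M.e1) (hf M.e2)
  have h1 : 0 < κ 1 := by
    rw [hκa]
    norm_num
  have hgood : Good κ ∅ := ⟨hpos, isClosed_empty, Or.inl h1⟩
  obtain ⟨g, hg⟩ := R.exists_green hgood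
  have hmem : ∀ f : C(X, ℝ), f ∈ R.dom → f ∈ R.domZ ∅ := fun f hf => ⟨hf, fun z hz => hz.elim⟩
  have hsum : g M.e1 + g M.e2 = 1 := by
    apply R.riesz_unique hgood ((R.domZ ∅).add_mem (hg M.e1).1 (hg M.e2).1) (hmem 1 R.one_mem)
    intro f hf
    rw [R.Q_add_left, (hg M.e1).2 f hf, (hg M.e2).2 f hf]
    unfold Q
    rw [R.E_one_left, one_mul, hκa, zero_add]
  have hsum' : ∀ x, g M.e1 x + g M.e2 x = 1 := by
    intro x
    have := congrArg (fun f : C(X, ℝ) => f x) hsum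
    simpa using this
  have hn1 : ∀ x, 0 ≤ g M.e1 x := fun x => R.green_nonneg hgood hg x M.e1
  have hn2 : ∀ x, 0 ≤ g M.e2 x := fun x => R.green_nonneg hgood hg x M.e2
  refine ⟨g M.e1, (hg M.e1).1.1, ?_, ?_, ?_⟩
  · intro x
    refine ⟨hn1 x, ?_⟩
    have := hsum' x
    have := hn2 x
    linarith
  · intro a ha b hb hab
    obtain ⟨C1, C2, hc1, hp1, hc2, hp2, hd, h1a, h1e, h2b, h2e⟩ := M.P3 a ha b hb hab
    have hdet := R.det_pos hpos h1 hg (M.P2 a ha b hb hab) hc1 hp1 hc2 hp2 hd h1a h1e h2b h2e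
    unfold dd at hdet
    have ea : g M.e2 a = 1 - g M.e1 a := by linarith [hsum' a]
    have eb : g M.e2 b = 1 - g M.e1 b := by linarith [hsum' b]
    rw [ea, eb] at hdet
    nlinarith [hdet]
  · intro w hw hw1 hw2
    have := (hg M.e1).2 w (hmem w hw)
    unfold Q at this
    rw [hκa] at this
    simp only [ContinuousMap.mul_apply, hw1, hw2, mul_zero, add_zero] at this
    exact this

end RForm

end CarpetLib
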