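import Pool.Agent.Lib.MP_f3090c_an.R.Riesz
import Pool.Agent.Lib.MP_f3090c_an.R.Sep

/-! A16a: traces on finite sets. -/

open Set Filter Topology

namespace CarpetLib

variable {X : Type*} [MetricSpace X] [CompactSpace X]

namespace RForm
variable (R : RForm X)

private theorem tf_good (V : Finset X) (hV : V.Nonempty) :
    Good (0 : C(X, ℝ) →ₗ[ℝ] ℝ) (V : Set X) :=
  ⟨fun _ _ => le_rfl, V.finite_toSet.isClosed, Or.inr (by simpa using hV)⟩

private theorem tf_Q (f g : C(X, ℝ)) : R.Q 0 f g = R.E f g := by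
  simp [Q]

private theorem tf_exP (V : Finset X) (hV : V.Nonempty) (f : C(X, ℝ)) :
    ∃ v ∈ R.domZ (V : Set X), ∀ g ∈ R.domZ (V : Set X), R.E v g = R.E f g := by
  obtain ⟨v, hv, h⟩ := R.riesz (tf_good V hV) (R.E f) ⟨R.E f f, fun g _ => by
    rw [R.tf_Q]; exact R.cs f g⟩
  exact ⟨v, hv, fun g hg => by rw [← h g hg, R.tf_Q]⟩

private theorem tf_uniq (V : Finset X) (hV : V.Nonempty) {v w : C(X, ℝ)}
    (hv : v ∈ R.domZ (V : Set X)) (hw : w ∈ R.domZ (V : Set X))
    (h : ∀ g ∈ R.domZ (V : Set X), R.E v g = R.E w g) : v = w :=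
  R.riesz_unique (tf_good V hV) hv hw fun g hg => by rw [R.tf_Q, R.tf_Q]; exact h g hg

/-- the projection on the functions vanishing on `V` -/
private noncomputable def tfP (V : Finset X) (hV : V.Nonempty) : C(X, ℝ) →ₗ[ℝ] C(X, ℝ) where
  toFun f := (R.tf_exP V hV f).choose
  map_add' f g := by
    have hf := (R.tf_exP V hV f).choose_spec
    have hg := (R.tf_exP V hV g).choose_spec
    have hfg := (R.tf_exP V hV (f + g)).choose_spec
    refine R.tf_uniq V hV hfg.1 ((R.domZ _).add_mem hf.1 hg.1) fun k hk => ?_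
    rw [hfg.2 k hk, map_add, map_add, LinearMap.add_apply, LinearMap.add_apply, hf.2 k hk,
      hg.2 k hk]
  map_smul' c f := by
    have hf := (R.tf_exP V hV f).choose_spec
    have hcf := (R.tf_exP V hV (c • f)).choose_spec
    refine R.tf_uniq V hV hcf.1 ((R.domZ _).smul_mem _ hf.1) fun k hk => ?_
    rw [hcf.2 k hk, map_smul, map_smul, LinearMap.smul_apply, LinearMap.smul_apply, hf.2 k hk]
    rfl

private theorem tfP_spec (V : Finset X) (hV : V.Nonempty) (f : C(X, ℝ)) :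
    R.tfP V hV f ∈ R.domZ (V : Set X) ∧
      ∀ g ∈ R.domZ (V : Set X), R.E (R.tfP V hV f) g = R.E f g :=
  (R.tf_exP V hV f).choose_spec

/-- the harmonic extension -/
private noncomputable def tfH (V : Finset X) (hV : V.Nonempty) : C(X, ℝ) →ₗ[ℝ] C(X, ℝ) :=
  LinearMap.id - R.tfP V hV

private theorem tfH_apply (V : Finset X) (hV : V.Nonempty) (f : C(X, ℝ)) :
    R.tfH V hV f = f - R.tfP V hV f := rfl

private theorem tfH_mem (V : Finset X) (hV : V.Nonempty) {f : C(X, ℝ)} (hf : f ∈ R.dom) :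
    R.tfH V hV f ∈ R.dom :=
  R.dom.sub_mem hf (R.tfP_spec V hV f).1.1

private theorem tfH_val (V : Finset X) (hV : V.Nonempty) (f : C(X, ℝ)) (p : X) (hp : p ∈ V) :
    R.tfH V hV f p = f p := by
  rw [tfH_apply, ContinuousMap.sub_apply, (R.tfP_spec V hV f).1.2 p (by exact_mod_cast hp),
    sub_zero]

private theorem tfH_orth (V : Finset X) (hV : V.Nonempty) (f : C(X, ℝ)) {g : C(X, ℝ)}
    (hg : g ∈ R.domZ (V : Set X)) : R.E (R.tfH V hV f) g = 0 := by
  rw [tfH_apply, map_sub, LinearMap.sub_apply, (R.tfP_spec V hV f).2 g hg, sub_self]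

private theorem tf_uniqH (V : Finset X) (hV : V.Nonempty) {u v : C(X, ℝ)} (hu : u ∈ R.dom)
    (hv : v ∈ R.dom) (hval : ∀ p ∈ V, u p = v p)
    (huo : ∀ g ∈ R.domZ (V : Set X), R.E u g = 0) (hvo : ∀ g ∈ R.domZ (V : Set X), R.E v g = 0) :
    u = v := by
  have h1 : u - v ∈ R.domZ (V : Set X) := ⟨R.dom.sub_mem hu hv, fun p hp => by
    rw [ContinuousMap.sub_apply, hval p (by exact_mod_cast hp), sub_self]⟩
  have h2 : u - v = 0 := R.tf_uniq V hV h1 (R.domZ _).zero_mem fun g hg => by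
    rw [map_sub, LinearMap.sub_apply, huo g hg, hvo g hg, map_zero, LinearMap.zero_apply, sub_zero]
  exact sub_eq_zero.1 h2

private theorem tfH_le (V : Finset X) (hV : V.Nonempty) (f : C(X, ℝ)) :
    R.E (R.tfH V hV f) (R.tfH V hV f) ≤ R.E f f := by
  have h1 : f = R.tfH V hV f + R.tfP V hV f := by rw [tfH_apply, sub_add_cancel]
  have h2 := R.tfH_orth V hV f (R.tfP_spec V hV f).1
  have h3 := R.nonneg (R.tfP V hV f)
  have h4 : R.E f f = R.E (R.tfH V hV f) (R.tfH V hV f) +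
      2 * R.E (R.tfH V hV f) (R.tfP V hV f) + R.E (R.tfP V hV f) (R.tfP V hV f) := by
    conv_lhs => rw [h1]
    simp only [map_add, LinearMap.add_apply]
    rw [R.symm (R.tfP V hV f) (R.tfH V hV f)]
    ring
  rw [h4, h2]
  linarith

open Classical in
private theorem tf_exphi (V : Finset X) (p : X) :
    ∃ f ∈ R.dom, ∀ q ∈ V, f q = if q = p then 1 else 0 := by
  obtain ⟨f, hf, -, h0, h1⟩ := R.exists_sep (A := ((V.erase p : Finset X) : Set X)) (B := {p})
    (V.erase p).finite_toSet.isClosed isClosed_singleton (by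
      rw [Set.disjoint_singleton_right]
      simp)
  refine ⟨f, hf, fun q hq => ?_⟩
  split_ifs with h
  · rw [h]
    exact h1 p rfl
  · exact h0 q (by simp [h, hq])

/-- A16a: traces on finite sets are given by nonnegative conductances -/
theorem trace_form (V : Finset X) (hV : V.Nonempty) :
    ∃ (H : C(X, ℝ) →ₗ[ℝ] C(X, ℝ)) (c : X → X → ℝ), (∀ p q, 0 ≤ c p q) ∧
      (∀ f ∈ R.dom, H f ∈ R.dom ∧ (∀ p ∈ V, H f p = f p) ∧
        ∀ g ∈ R.dom, (∀ p ∈ V, g p = 0) → R.E (H f) g = 0) ∧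
      ∀ f ∈ R.dom, ∀ g ∈ R.dom,
        R.E (H f) (H g) = ∑ p ∈ V, ∑ q ∈ V, c p q * (f p - f q) * (g p - g q) := by
  classical
  choose φ hφd hφ using R.tf_exphi V
  set H := R.tfH V hV with hH
  let χ : X → C(X, ℝ) := fun p => H (φ p)
  have χd : ∀ p, χ p ∈ R.dom := fun p => R.tfH_mem V hV (hφd p)
  have χv : ∀ p, ∀ q ∈ V, χ p q = if q = p then 1 else 0 := fun p q hq => by
    change H (φ p) q = _
    rw [hH, R.tfH_val V hV _ q hq, hφ p q hq]
  have χo : ∀ p, ∀ g ∈ R.domZ (V : Set X), R.E (χ p) g = 0 := fun p g hg =>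
    R.tfH_orth V hV _ hg
  have hneg : ∀ p ∈ V, ∀ q ∈ V, p ≠ q → R.E (χ p) (χ q) ≤ 0 := by
    intro p hp q hq hpq
    have hfd : χ p - χ q ∈ R.dom := R.dom.sub_mem (χd p) (χd q)
    obtain ⟨had, hae⟩ := R.abs_mem hfd
    have h1 : H |χ p - χ q| = χ p + χ q := by
      refine R.tf_uniqH V hV (R.tfH_mem V hV had) (R.dom.add_mem (χd p) (χd q)) ?_ ?_ ?_
      · intro r hr
        rw [R.tfH_val V hV _ r hr, ContinuousMap.abs_apply, ContinuousMap.sub_apply,
          ContinuousMap.add_apply, χv p r hr, χv q r hr]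
        by_cases h2 : r = p
        · have h3 : r ≠ q := fun h => hpq (h2.symm.trans h)
          simp [h2, hpq]
        · by_cases h3 : r = q
          · simp [h3, Ne.symm hpq]
          · simp [h2, h3]
      · exact fun g hg => R.tfH_orth V hV _ hg
      · intro g hg
        rw [map_add, LinearMap.add_apply, χo p g hg, χo q g hg, add_zero]
    have h2 := R.tfH_le V hV |χ p - χ q|
    rw [← hH, h1] at h2
    have h3 := h2.trans hae
    simp only [map_add, map_sub, LinearMap.add_apply, LinearMap.sub_apply,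
      R.symm (χ q) (χ p)] at h3
    linarith
  have hexp : ∀ f ∈ R.dom, H f = ∑ p ∈ V, f p • χ p := by
    intro f hf
    refine R.tf_uniqH V hV (R.tfH_mem V hV hf)
      (R.dom.sum_mem fun p _ => R.dom.smul_mem _ (χd p)) ?_ ?_ ?_
    · intro r hr
      rw [R.tfH_val V hV _ r hr, ContinuousMap.sum_apply]
      simp only [ContinuousMap.smul_apply, smul_eq_mul]
      rw [Finset.sum_congr rfl fun p _ => by rw [χv p r hr]]
      simp [hr]
    · exact fun g hg => R.tfH_orth V hV _ hg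
    · intro g hg
      simp only [map_sum, map_smul, LinearMap.sum_apply, LinearMap.smul_apply]
      exact Finset.sum_eq_zero fun p _ => by rw [χo p g hg, smul_zero]
  have hone : H 1 = 1 := by
    refine R.tf_uniqH V hV (R.tfH_mem V hV R.one_mem) R.one_mem
      (fun r hr => R.tfH_val V hV _ r hr) (fun g hg => R.tfH_orth V hV _ hg)
      (fun g _ => R.E_one_left g)
  have hrow : ∀ p, ∑ q ∈ V, R.E (χ p) (χ q) = 0 := by
    intro p
    have h1 : (1 : C(X, ℝ)) = ∑ q ∈ V, χ q := by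
      have h2 := hexp 1 R.one_mem
      rw [hone] at h2
      rw [h2]
      exact Finset.sum_congr rfl fun q _ => by simp
    rw [← map_sum, ← h1, R.E_one_right]
  refine ⟨H, fun p q => if p ∈ V ∧ q ∈ V ∧ p ≠ q then -(1 / 2) * R.E (χ p) (χ q) else 0, ?_, ?_, ?_⟩
  · intro p q
    change 0 ≤ (if p ∈ V ∧ q ∈ V ∧ p ≠ q then -(1 / 2) * R.E (χ p) (χ q) else 0)
    split_ifs with h
    · have := hneg p h.1 q h.2.1 h.2.2
      linarith
    · exact le_rfl
  · intro f hf
    refine ⟨R.tfH_mem V hV hf, fun p hp => R.tfH_val V hV f p hp, fun g hg h0 => ?_⟩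
    exact R.tfH_orth V hV f ⟨hg, fun p hp => h0 p (by exact_mod_cast hp)⟩
  · intro f hf g hg
    have h1 : R.E (H f) (H g) = ∑ p ∈ V, ∑ q ∈ V, f p * g q * R.E (χ p) (χ q) := by
      rw [hexp f hf, hexp g hg]
      simp only [map_sum, map_smul, LinearMap.sum_apply, LinearMap.smul_apply, smul_eq_mul,
        Finset.mul_sum]
      rw [Finset.sum_comm]
      exact Finset.sum_congr rfl fun p _ => Finset.sum_congr rfl fun q _ => by ring
    have h2 : ∑ p ∈ V, ∑ q ∈ V, (if p ∈ V ∧ q ∈ V ∧ p ≠ q then -(1 / 2) * R.E (χ p) (χ q) else 0) *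
        (f p - f q) * (g p - g q) =
        ∑ p ∈ V, ∑ q ∈ V, (-(1 / 2) * R.E (χ p) (χ q) * (f p * g p)
          + (1 / 2) * (f p * g q * R.E (χ p) (χ q)) + (1 / 2) * (f q * g p * R.E (χ q) (χ p))
          + -(1 / 2) * R.E (χ q) (χ p) * (f q * g q)) := by
      refine Finset.sum_congr rfl fun p hp => Finset.sum_congr rfl fun q hq => ?_
      rw [R.symm (χ q) (χ p)]
      by_cases hpq : p = q
      · subst hpq
        simp
        ring
      · rw [if_pos ⟨hp, hq, hpq⟩]
        ring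
    rw [h1, h2]
    simp only [Finset.sum_add_distrib]
    have e1 : ∑ p ∈ V, ∑ q ∈ V, -(1 / 2) * R.E (χ p) (χ q) * (f p * g p) = 0 := by
      refine Finset.sum_eq_zero fun p _ => ?_
      rw [← Finset.sum_mul, ← Finset.mul_sum, hrow]
      ring
    have e2 : ∑ p ∈ V, ∑ q ∈ V, -(1 / 2) * R.E (χ q) (χ p) * (f q * g q) = 0 := by
      rw [Finset.sum_comm]
      exact e1
    have e3 : ∑ p ∈ V, ∑ q ∈ V, (1 / 2 : ℝ) * (f q * g p * R.E (χ q) (χ p)) =
        ∑ p ∈ V, ∑ q ∈ V, (1 / 2 : ℝ) * (f p * g q * R.E (χ p) (χ q)) := by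
      rw [Finset.sum_comm]
    rw [e1, e2, e3, zero_add, add_zero, ← Finset.sum_add_distrib]
    refine Finset.sum_congr rfl fun p _ => ?_
    rw [← Finset.sum_add_distrib]
    exact Finset.sum_congr rfl fun q _ => by ring

end RForm

end CarpetLib
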